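import Pool.Agent.Lib.MP_2eab14_co.TwoSum.Defs

set_option linter.all false

/-!
# The 2-sum theorem: elementary facts
-/

noncomputable section

namespace TwoSum

open KSum52

variable {V : Type}

/-! ## `ext` -/

lemma ext_left {S : ℝ} (hS : 0 < S) (r r' : ℝ) : ext S 0 S r r' = r := by
  unfold ext
  have : (S + 0 - S) / (2 * S) = 0 := by rw [add_zero, sub_self, zero_div]
  rw [this]; ring

lemma ext_right {S : ℝ} (hS : 0 < S) (r r' : ℝ) : ext S S 0 r r' = r' := by
  unfold ext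
  have : (S + S - 0) / (2 * S) = 1 := by field_simp; ring
  rw [this]; ring

lemma ext_comp {S S₂ : ℝ} (hS : 0 < S) (a₂ b₂ as bs at' bt r r' : ℝ) :
    ext S₂ a₂ b₂ (ext S as bs r r') (ext S at' bt r r') =
      ext S (ext S₂ a₂ b₂ as at') (ext S₂ a₂ b₂ bs bt) r r' := by
  unfold ext
  generalize (S₂ + a₂ - b₂) / (2 * S₂) = T
  have h : S ≠ 0 := hS.ne'
  field_simp
  ring

/-- `0 ≤ T ≤ 1` -/
lemma extT {S a b : ℝ} (hS : 0 < S) (h : |a - b| ≤ S) :
    0 ≤ (S + a - b) / (2 * S) ∧ (S + a - b) / (2 * S) ≤ 1 := by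
  rw [abs_le] at h
  constructor
  · apply div_nonneg <;> linarith
  · rw [div_le_one (by linarith)]; linarith

lemma ext_mono {S a b r r' t t' : ℝ} (hS : 0 < S) (h : |a - b| ≤ S) (h1 : r ≤ t) (h2 : r' ≤ t') :
    ext S a b r r' ≤ ext S a b t t' := by
  obtain ⟨h3, h4⟩ := extT hS h
  unfold ext
  have := mul_le_mul_of_nonneg_left h1 (sub_nonneg.2 h4)
  have := mul_le_mul_of_nonneg_left h2 h3
  linarith

/-- the extended distance is 1-Lipschitz -/
lemma ext_lip {S a b a' b' m r r' : ℝ} (hS : 0 < S) (hr : |r - r'| ≤ S) (h1 : |a - a'| ≤ m)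
    (h2 : |b - b'| ≤ m) : |ext S a b r r' - ext S a' b' r r'| ≤ m := by
  have key : ext S a b r r' - ext S a' b' r r' =
      (S + r' - r) / (2 * S) * (a - a') + (S + r - r') / (2 * S) * (b - b') := by
    unfold ext
    field_simp
    ring
  obtain ⟨h3, h4⟩ := extT (a := r) (b := r') hS hr
  obtain ⟨h5, h6⟩ := extT (a := r') (b := r) hS (by rw [abs_sub_comm]; exact hr)
  have hsum : (S + r' - r) / (2 * S) + (S + r - r') / (2 * S) = 1 := by field_simp; ring
  rw [key]
  calc |(S + r' - r) / (2 * S) * (a - a') + (S + r - r') / (2 * S) * (b - b')|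
      ≤ |(S + r' - r) / (2 * S) * (a - a')| + |(S + r - r') / (2 * S) * (b - b')| := abs_add_le _ _
    _ = (S + r' - r) / (2 * S) * |a - a'| + (S + r - r') / (2 * S) * |b - b'| := by
        rw [abs_mul, abs_mul, abs_of_nonneg h5, abs_of_nonneg h3]
    _ ≤ (S + r' - r) / (2 * S) * m + (S + r - r') / (2 * S) * m :=
        add_le_add (mul_le_mul_of_nonneg_left h1 h5) (mul_le_mul_of_nonneg_left h2 h3)
    _ = m := by rw [← add_mul, hsum, one_mul]

/-- the triangle inequality with the outside point in the middle -/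
lemma ext_tri {S a b a' b' m r r' : ℝ} (hS : 0 < S) (hr : |r - r'| ≤ S) (hr' : S ≤ r + r')
    (hab : |a - b| ≤ S) (hab' : |a' - b'| ≤ S) (h1 : m ≤ a + a') (h2 : m ≤ b + b') :
    m ≤ ext S a b r r' + ext S a' b' r r' := by
  have hr0 : 0 ≤ r := by rw [abs_le] at hr; linarith
  have hr0' : 0 ≤ r' := by rw [abs_le] at hr; linarith
  obtain ⟨h3, h4⟩ := extT hS hab
  obtain ⟨h5, h6⟩ := extT hS hab'
  unfold ext
  set T := (S + a - b) / (2 * S) with hT
  set T' := (S + a' - b') / (2 * S) with hT'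
  have e1 : 2 * S * T = S + a - b := by rw [hT]; field_simp
  have e2 : 2 * S * T' = S + a' - b' := by rw [hT']; field_simp
  have e3 : a = (a + b - S) / 2 + S * T := by linarith
  have e4 : a' = (a' + b' - S) / 2 + S * T' := by linarith
  have e5 : b = (a + b - S) / 2 + S * (1 - T) := by linarith
  have e6 : b' = (a' + b' - S) / 2 + S * (1 - T') := by linarith
  rcases le_total (T + T') 1 with h | h
  · have k1 : (T + T') * S ≤ (T + T') * (r + r') := mul_le_mul_of_nonneg_left hr' (by linarith)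
    have k2 : 0 ≤ (1 - (T + T')) * r := mul_nonneg (by linarith) hr0
    nlinarith
  · have k1 : (2 - (T + T')) * S ≤ (2 - (T + T')) * (r + r') :=
      mul_le_mul_of_nonneg_left hr' (by linarith)
    have k2 : 0 ≤ ((T + T') - 1) * r' := mul_nonneg (by linarith) hr0'
    nlinarith

/-! ## Metric facts -/

lemma Met.le_wl {d : V → V → ℝ} (hd : Met d) {w : Sym2 V → ℝ} {H : SimpleGraph V}
    (h : ∀ x y, H.Adj x y → w s(x, y) = d x y) {x y : V} (W : H.Walk x y) : d x y ≤ wl w W := by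
  induction W with
  | nil => rw [hd.self]; simp
  | cons hadj p ih =>
    rw [wl_cons, h _ _ hadj]
    exact (hd.tri _ _ _).trans (add_le_add le_rfl ih)

lemma Met.posw {d : V → V → ℝ} (hd : Met d) {w : Sym2 V → ℝ} {H : SimpleGraph V}
    (h : ∀ x y, H.Adj x y → w s(x, y) = d x y) : Pos H w := by
  intro e
  induction e using Sym2.ind with
  | h x y =>
    intro he
    rw [SimpleGraph.mem_edgeSet] at he
    rw [h x y he]
    exact hd.pos x y he.ne

lemma Met.abs_sub_le {d : V → V → ℝ} (hd : Met d) (p x y : V) : |d p x - d p y| ≤ d x y := by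
  rw [abs_le]
  have h1 := hd.tri p x y
  have h2 := hd.tri p y x
  rw [hd.comm y x] at h2
  constructor <;> linarith

lemma IsL1.abs_sub_le' {ρ : V → V → ℝ} (h : IsL1 ρ) (p x y : V) : |ρ p x - ρ p y| ≤ ρ x y := by
  rw [abs_le]
  have h1 := h.tri p x y
  have h2 := h.tri p y x
  rw [h.comm y x] at h2
  constructor <;> linarith

/-- a semimetric which is 1-Lipschitz on the edges is at most `d` -/
lemma Geo.le_d {d : V → V → ℝ} {w : Sym2 V → ℝ} {H : SimpleGraph V} {S : Set V}
    (hg : Geo d w H S) {ρ : V → V → ℝ} (hρ : IsL1 ρ) (h : ∀ x y, H.Adj x y → ρ x y ≤ w s(x, y))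
    {x y : V} (hx : x ∈ S) (hy : y ∈ S) : ρ x y ≤ d x y := by
  obtain ⟨W, hW⟩ := hg.walk x hx y hy
  have := hρ.le_wl (L := 1) (w := w) (fun u v huv => by rw [one_mul]; exact h u v huv) W
  linarith

/-- on `S` the distance of `H` is `d` -/
lemma Geo.gd_eq [Fintype V] {d : V → V → ℝ} (hd : Met d) {w : Sym2 V → ℝ} {H : SimpleGraph V}
    {S : Set V} (hg : Geo d w H S) {x y : V} (hx : x ∈ S) (hy : y ∈ S) : gd H w x y = d x y := by
  have hw := hd.posw hg.edge
  obtain ⟨W, hW⟩ := hg.walk x hx y hy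
  apply le_antisymm
  · exact (gd_le hw W).trans hW
  · obtain ⟨p, hp⟩ := exists_gd hw ⟨W⟩
    rw [← hp]
    exact hd.le_wl hg.edge p

/-! ## Translation of `RootExact` -/

lemma rootExact_iff {F : Family} {D : ℝ} :
    RootExact F D ↔ ∀ (n : ℕ) (G : SimpleGraph (Fin n)), F n G → RE D G := by
  constructor
  · intro h n G hG w hw p q hpq
    obtain ⟨m, f, h1, ⟨W, hW⟩, h3⟩ := h n G hG w hw p q hpq
    have hL : IsL1 (fun x y => ∑ i, |f x i - f y i|) := ⟨m, f, fun _ _ => rfl⟩
    refine ⟨fun x y => ∑ i, |f x i - f y i|, hL, h1, ?_, ?_⟩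
    · apply le_antisymm
      · have := hL.le_gd (L := 1) hw (fun u v huv => by rw [one_mul]; exact h1 u v huv)
          hpq.reachable
        linarith
      · exact (gd_le hw W).trans hW
    · intro x y hxy
      obtain ⟨W', hW'⟩ := h3 x y hxy
      exact (gd_le hw W').trans hW'
  · intro h n G hG w hw p q hpq
    obtain ⟨ρ, ⟨m, f, hf⟩, h1, h2, h3⟩ := h n G hG w hw p q hpq
    refine ⟨m, f, fun u v huv => by rw [← hf]; exact h1 u v huv, ?_, ?_⟩
    · obtain ⟨W, hW⟩ := exists_gd hw hpq.reachable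
      refine ⟨W, ?_⟩
      rw [← hf, h2, ← hW]
      rfl
    · intro u v huv
      obtain ⟨W, hW⟩ := exists_gd hw huv
      refine ⟨W, ?_⟩
      rw [← hf]
      have := h3 u v huv
      rw [← hW] at this
      exact this

lemma RE.mono [Fintype V] {D D' : ℝ} {H : SimpleGraph V} (h : RE D H) (hD : D ≤ D') : RE D' H := by
  intro w hw p q hpq
  obtain ⟨ρ, h0, h1, h2, h3⟩ := h w hw p q hpq
  refine ⟨ρ, h0, h1, h2, fun x y hxy => (h3 x y hxy).trans ?_⟩
  exact mul_le_mul_of_nonneg_right hD (h0.nonneg x y)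

lemma embeds_iff {F : Family} {D : ℝ} :
    Embeds F D ↔ ∀ (n : ℕ) (G : SimpleGraph (Fin n)), F n G → EmbAll G D := Iff.rfl

end TwoSum
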