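import Pool.Agent.Lib.MP_2eab14_co.helper52.Main

set_option linter.all false

/-!
# The 2-sum theorem for `ℓ₁` embeddings: definitions
-/

noncomputable section

namespace TwoSum

open KSum52

/-! ## The public definitions (used in the hand-in) -/

/-- The closure `⊕_k F` of the family `F` under sums along cliques with at most `k` vertices, where
at each step some edges of the identified clique may be deleted. -/
inductive Clos (k : ℕ) (F : Family) : (n : ℕ) → SimpleGraph (Fin n) → Prop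
  | piece {n : ℕ} {G : SimpleGraph (Fin n)} (h : F n G) : Clos k F n G
  | glue {a b N : ℕ} {G₁ : SimpleGraph (Fin a)} {G₂ : SimpleGraph (Fin b)}
      (φ₁ : Fin a ↪ Fin N) (φ₂ : Fin b ↪ Fin N) (h₁ : Clos k F a G₁) (h₂ : Clos k F b G₂)
      (h : IsSum k G₁ G₂ φ₁ φ₂) (G : SimpleGraph (Fin N)) (hle : G ≤ G₁.map φ₁ ⊔ G₂.map φ₂)
      (hdel : ∀ x y : Fin N, (G₁.map φ₁ ⊔ G₂.map φ₂).Adj x y → ¬ G.Adj x y →
        x ∈ Set.range φ₁ ∩ Set.range φ₂ ∧ y ∈ Set.range φ₁ ∩ Set.range φ₂) : Clos k F N G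

/-- Every graph of `F`, with arbitrary positive edge weights, has for every edge `pq` a map `f` to
`ℓ₁` which is 1-Lipschitz on the edges, is isometric on the pair `p, q` (some `p`-`q` walk
has length at most `‖f p - f q‖₁`), and which contracts no distance (inside a connected component)
by more than the factor `D`. -/
def RootExact (F : Family) (D : ℝ) : Prop :=
  ∀ (n : ℕ) (G : SimpleGraph (Fin n)), F n G →
    ∀ w : Sym2 (Fin n) → ℝ, (∀ e ∈ G.edgeSet, 0 < w e) → ∀ p q : Fin n, G.Adj p q →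
      ∃ m : ℕ, ∃ f : Fin n → Fin m → ℝ,
        (∀ u v : Fin n, G.Adj u v → ∑ i, |f u i - f v i| ≤ w s(u, v)) ∧
        (∃ W : G.Walk p q, (W.edges.map w).sum ≤ ∑ i, |f p i - f q i|) ∧
        (∀ u v : Fin n, G.Reachable u v →
          ∃ W : G.Walk u v, (W.edges.map w).sum ≤ D * ∑ i, |f u i - f v i|)

/-- the graphs of pathwidth at most `k`: every vertex `v` gets an interval `[lo v, hi v]`, the
intervals of adjacent vertices meet, and every point is in at most `k + 1` intervals -/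
def PW (k : ℕ) : Family := fun n G => ∃ lo hi : Fin n → ℕ, (∀ v, lo v ≤ hi v) ∧
  (∀ u v, G.Adj u v → lo u ≤ hi v ∧ lo v ≤ hi u) ∧ ∀ i, {v | lo v ≤ i ∧ i ≤ hi v}.ncard ≤ k + 1

/-- union of two families -/
def FUnion (F F' : Family) : Family := fun n G => F n G ∨ F' n G

/-! ## Internal definitions -/

variable {V : Type}

/-- root-exactness for a single graph on an arbitrary vertex type -/
def RE (D : ℝ) (H : SimpleGraph V) : Prop :=
  ∀ w : Sym2 V → ℝ, Pos H w → ∀ p q : V, H.Adj p q → ∃ ρ : V → V → ℝ, IsL1 ρ ∧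
    (∀ x y, H.Adj x y → ρ x y ≤ w s(x, y)) ∧ ρ p q = gd H w p q ∧
    (∀ x y, H.Reachable x y → gd H w x y ≤ D * ρ x y)

/-- `d` is a metric -/
structure Met (d : V → V → ℝ) : Prop where
  self : ∀ x, d x x = 0
  comm : ∀ x y, d x y = d y x
  tri : ∀ x y z, d x z ≤ d x y + d y z
  pos : ∀ x y, x ≠ y → 0 < d x y

lemma Met.nonneg {d : V → V → ℝ} (h : Met d) (x y : V) : 0 ≤ d x y := by
  by_cases e : x = y
  · subst e; exact (h.self x).ge
  · exact (h.pos x y e).le

/-- on the set `S` the metric `d` is the path metric of the graph `H` with weights `w`, and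
the weight of every edge of `H` is the distance of its ends -/
structure Geo (d : V → V → ℝ) (w : Sym2 V → ℝ) (H : SimpleGraph V) (S : Set V) : Prop where
  edge : ∀ x y, H.Adj x y → w s(x, y) = d x y
  walk : ∀ x ∈ S, ∀ y ∈ S, ∃ W : H.Walk x y, wl w W ≤ d x y

/-- all edges of `H` are inside `S` -/
def Supp (H : SimpleGraph V) (S : Set V) : Prop := ∀ x y, H.Adj x y → x ∈ S ∧ y ∈ S

/-- a piece: a connected graph on `S` (with at least two vertices) which is root-exact -/
structure Piece (D : ℝ) (H : SimpleGraph V) (S : Set V) : Prop where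
  re : RE D H
  supp : Supp H S
  conn : ∀ x ∈ S, ∀ y ∈ S, H.Reachable x y
  nbr : ∀ x ∈ S, ∃ y, H.Adj x y

/-- graphs obtained from pieces by gluing along edges (inside one fixed vertex type) -/
inductive Built (P : SimpleGraph V → Set V → Prop) : SimpleGraph V → Set V → Prop
  | piece {H : SimpleGraph V} {S : Set V} (h : P H S) : Built P H S
  | glue {H₁ H₂ : SimpleGraph V} {S₁ S₂ : Set V} {s t : V} (h₁ : Built P H₁ S₁)
      (h₂ : Built P H₂ S₂) (hne : s ≠ t) (hS : S₁ ∩ S₂ = {s, t}) (e₁ : H₁.Adj s t)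
      (e₂ : H₂.Adj s t) : Built P (H₁ ⊔ H₂) (S₁ ∪ S₂)

/-- The distance from an outside point to `x`, if its distances to the two root vertices are
`r` and `r'`; here `S`, `a`, `b` are the distance of the two roots and their distances to `x`.
It equals `(1 - T) r + T r' + n` with `T = (S + a - b) / (2 S)` and `n = (a + b - S) / 2`. -/
def ext (S a b r r' : ℝ) : ℝ := (1 - (S + a - b) / (2 * S)) * r + (S + a - b) / (2 * S) * r' +
  (a + b - S) / 2

/-- admissible data of an outside point at an edge of `ρ`-length `S` -/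
structure Adm (κ S r r' A B : ℝ) : Prop where
  lip : |r - r'| ≤ S
  tri : S ≤ r + r'
  left : 4 * κ * A ≤ 3 * r + r' - S
  right : 4 * κ * B ≤ r + 3 * r' - S

/-- the one-step property (W) from the root `p q` -/
def WProp (κ : ℝ) (d : V → V → ℝ) (H : SimpleGraph V) (ρ : V → V → ℝ) (p q : V) : Prop :=
  ∀ r r' A B : ℝ, Adm κ (ρ p q) r r' A B → ∀ x y, H.Adj x y →
    4 * κ * min (A + d p x) (B + d q x) ≤ 3 * ext (ρ p q) (ρ p x) (ρ q x) r r' +
      ext (ρ p q) (ρ p y) (ρ q y) r r' - ρ x y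

/-- the data `T, n, α, β` of a virtual vertex at the edge `a b` are good -/
structure VGood (κ : ℝ) (d ρ : V → V → ℝ) (a b : V) (T n α β : ℝ) : Prop where
  T0 : 0 ≤ T
  T1 : T ≤ 1
  n0 : 0 ≤ n
  lip : |α - β| ≤ d a b
  good : ∀ r r' A B : ℝ, Adm κ (ρ a b) r r' A B →
    κ * min (A + α) (B + β) ≤ (1 - T) * r + T * r' + n

/-- the property (V) of virtual vertices -/
def VProp (κ κ₂ : ℝ) (d : V → V → ℝ) (H : SimpleGraph V) (ρ : V → V → ℝ) : Prop :=
  ∀ a b, H.Adj a b → ∀ T n α β : ℝ, VGood κ d ρ a b T n α β → ∀ x y, H.Adj x y →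
    4 * κ₂ * min (α + d a x) (β + d b x) ≤ 3 * ((1 - T) * ρ a x + T * ρ b x + n) +
      ((1 - T) * ρ a y + T * ρ b y + n) - ρ x y

/-- the induction claim -/
def Claim (θ κ κ₂ : ℝ) (d : V → V → ℝ) (H : SimpleGraph V) (S : Set V) : Prop :=
  ∀ p q, H.Adj p q → ∀ c : ℝ, θ ≤ c → c ≤ 1 → ∃ ρ : V → V → ℝ, IsL1 ρ ∧ ρ p q = c * d p q ∧
    (∀ x ∈ S, ∀ y ∈ S, ρ x y ≤ d x y) ∧ (∀ x y, H.Adj x y → θ * d x y ≤ ρ x y) ∧
    WProp κ d H ρ p q ∧ VProp κ κ₂ d H ρ

/-- the distance to the pair `{p, q}` -/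
def dpq (d : V → V → ℝ) (p q x : V) : ℝ := min (d p x) (d q x)

/-- the Fréchet semimetric of the pair `{p, q}` -/
def fre (d : V → V → ℝ) (p q x y : V) : ℝ := max |d p x - d p y| |d q x - d q y|

/-- weights equal distances -/
def Tight (G : SimpleGraph V) (w : Sym2 V → ℝ) : Prop :=
  ∀ x y, G.Adj x y → w s(x, y) = gd G w x y

/-- a convex combination of 1-Lipschitz functions separates the points as well as `ℓ₁` -/
def LipW (C : ℝ) (G : SimpleGraph V) (w : Sym2 V → ℝ) : Prop :=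
  ∃ m : ℕ, ∃ l : Fin m → ℝ, ∃ k : Fin m → V → ℝ, (∀ i, 0 ≤ l i) ∧ ∑ i, l i = 1 ∧
    (∀ i x y, G.Adj x y → |k i x - k i y| ≤ w s(x, y)) ∧
    ∀ x y, G.Reachable x y → gd G w x y ≤ C * ∑ i, l i * |k i x - k i y|

/-- the same for all weights -/
def LipAll (C : ℝ) (G : SimpleGraph V) : Prop := ∀ w : Sym2 V → ℝ, Pos G w → LipW C G w

end TwoSum
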