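import Pool.Agent.Lib.MP_2eab14_co.TwoSum.Spec

section
set_option linter.all false

/-!
# Module BE: every graph built from pieces embeds
-/

noncomputable section

namespace TwoSum

open KSum52

namespace BEM

variable {V : Type}

lemma th_pos {D : ℝ} (hD : 1 ≤ D) : 0 < th D := by
  unfold th
  have : (0 : ℝ) < 8 * D := by linarith
  positivity

lemma th_le_one {D : ℝ} (hD : 1 ≤ D) : th D ≤ 1 := by
  unfold th
  rw [div_le_one (by linarith)]
  linarith

lemma ka_pos {D : ℝ} (hD : 1 ≤ D) : 0 < ka D := by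
  have := th_pos hD
  unfold ka
  positivity

lemma k2_pos {D : ℝ} (hD : 1 ≤ D) : 0 < k2 D := by
  have := th_pos hD
  have := ka_pos hD
  unfold k2
  positivity

lemma k2_le_ka {D : ℝ} (hD : 1 ≤ D) : k2 D ≤ ka D := by
  have h1 := th_le_one hD
  have h2 := ka_pos hD
  have h3 := th_pos hD
  unfold k2
  nlinarith [mul_le_mul_of_nonneg_left h1 h2.le]

lemma built_facts {D : ℝ} {H : SimpleGraph V} {S : Set V} (h : Built (Piece D) H S) :
    Supp H S ∧ (∀ x ∈ S, ∀ y ∈ S, H.Reachable x y) ∧ (∀ x ∈ S, ∃ y, H.Adj x y) := by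
  induction h with
  | piece h => exact ⟨h.supp, h.conn, h.nbr⟩
  | @glue H₁ H₂ S₁ S₂ s t h₁ h₂ hne hS e₁ e₂ ih₁ ih₂ =>
    obtain ⟨a1, a2, a3⟩ := ih₁
    obtain ⟨b1, b2, b3⟩ := ih₂
    have hs : s ∈ S₁ ∩ S₂ := by rw [hS]; simp
    have key : ∀ x ∈ S₁ ∪ S₂, (H₁ ⊔ H₂).Reachable x s := by
      rintro x (hx | hx)
      · exact (a2 x hx s hs.1).mono le_sup_left
      · exact (b2 x hx s hs.2).mono le_sup_right
    refine ⟨?_, fun x hx y hy => (key x hx).trans (key y hy).symm, ?_⟩
    · rintro x y (h | h)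
      · exact ⟨Or.inl (a1 x y h).1, Or.inl (a1 x y h).2⟩
      · exact ⟨Or.inr (b1 x y h).1, Or.inr (b1 x y h).2⟩
    · rintro x (hx | hx)
      · obtain ⟨y, hy⟩ := a3 x hx
        exact ⟨y, Or.inl hy⟩
      · obtain ⟨y, hy⟩ := b3 x hx
        exact ⟨y, Or.inr hy⟩

lemma built_claim [Fintype V] (hPC : SpecPC) (hDIST : SpecDIST) (hCOMP : SpecCOMP) {D : ℝ}
    (hD : 1 ≤ D) {d : V → V → ℝ} {w : Sym2 V → ℝ} (hd : Met d) {H : SimpleGraph V} {S : Set V}
    (h : Built (Piece D) H S) : Geo d w H S → Claim (th D) (ka D) (k2 D) d H S := by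
  induction h with
  | piece h => exact fun hg => hPC V D d w _ _ hD hd h hg
  | @glue H₁ H₂ S₁ S₂ s t h₁ h₂ hne hS e₁ e₂ ih₁ ih₂ =>
    intro hg
    have f₁ := (built_facts h₁).1
    have f₂ := (built_facts h₂).1
    obtain ⟨g1, g2, g3⟩ := hDIST V d w H₁ H₂ S₁ S₂ s t hd f₁ f₂ hne hS e₁ e₂ hg
    exact hCOMP V (th D) (ka D) (k2 D) d H₁ H₂ S₁ S₂ s t (th_pos hD) (k2_pos hD) (k2_le_ka hD)
      hd f₁ f₂ hne hS e₁ e₂ g3 (ih₁ g1) (ih₂ g2)

lemma walk_mem {H : SimpleGraph V} {S : Set V} (hS : Supp H S) {u v : V} (p : H.Walk u v)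
    (hne : u ≠ v) : u ∈ S := by
  cases p with
  | nil => exact absurd rfl hne
  | cons h p => exact (hS _ _ h).1

lemma reach_mem {H : SimpleGraph V} {S : Set V} (hS : Supp H S) {u v : V}
    (h : H.Reachable u v) (hne : u ≠ v) : u ∈ S ∧ v ∈ S := by
  obtain ⟨p⟩ := h
  exact ⟨walk_mem hS p hne, walk_mem hS p.reverse hne.symm⟩

open Classical in
/-- the extended metric -/
def dd (H : SimpleGraph V) (w : Sym2 V → ℝ) (S : Set V) (M : ℝ) (x y : V) : ℝ :=
  if x = y then 0 else if x ∈ S ∧ y ∈ S then gd H w x y else M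

lemma dd_self {H : SimpleGraph V} {w : Sym2 V → ℝ} {S : Set V} {M : ℝ} (x : V) :
    dd H w S M x x = 0 := by
  unfold dd
  rw [if_pos rfl]

lemma dd_in {H : SimpleGraph V} {w : Sym2 V → ℝ} {S : Set V} {M : ℝ} (hw : Pos H w) {x y : V}
    (hx : x ∈ S) (hy : y ∈ S) : dd H w S M x y = gd H w x y := by
  unfold dd
  split_ifs with h h'
  · subst h
    exact (gd_self hw x).symm
  · rfl
  · exact absurd ⟨hx, hy⟩ h'

lemma dd_out {H : SimpleGraph V} {w : Sym2 V → ℝ} {S : Set V} {M : ℝ} {x y : V}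
    (hne : x ≠ y) (h : ¬(x ∈ S ∧ y ∈ S)) : dd H w S M x y = M := by
  unfold dd
  rw [if_neg hne, if_neg h]

lemma dd_nonneg {H : SimpleGraph V} {w : Sym2 V → ℝ} {S : Set V} {M : ℝ} (hw : Pos H w)
    (hM : 0 < M) (x y : V) : 0 ≤ dd H w S M x y := by
  unfold dd
  split_ifs with h h'
  · exact le_rfl
  · exact gd_nonneg hw x y
  · exact hM.le

lemma dd_le {H : SimpleGraph V} {w : Sym2 V → ℝ} {S : Set V} {M : ℝ}
    (hM : 0 < M) (hM' : ∀ u v, gd H w u v < M) (x y : V) : dd H w S M x y ≤ M := by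
  unfold dd
  split_ifs with h h'
  · exact hM.le
  · exact (hM' x y).le
  · exact le_rfl

lemma dd_met [Fintype V] {H : SimpleGraph V} {w : Sym2 V → ℝ} {S : Set V} {M : ℝ} (hw : Pos H w)
    (hr : ∀ x ∈ S, ∀ y ∈ S, H.Reachable x y) (hM : 0 < M) (hM' : ∀ u v, gd H w u v < M) :
    Met (dd H w S M) := by
  refine ⟨fun x => dd_self x, fun x y => ?_, fun x y z => ?_, fun x y hne => ?_⟩
  · by_cases h : x = y
    · subst h; rfl
    · by_cases h' : x ∈ S ∧ y ∈ S
      · rw [dd_in hw h'.1 h'.2, dd_in hw h'.2 h'.1, gd_comm hw]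
      · rw [dd_out h h', dd_out (Ne.symm h) (fun h2 => h' ⟨h2.2, h2.1⟩)]
  · have n1 := dd_nonneg (S := S) hw hM x y
    have n2 := dd_nonneg (S := S) hw hM y z
    have l1 := dd_le (H := H) (w := w) (S := S) hM hM' x z
    by_cases e1 : x = y
    · subst e1; rw [dd_self]; linarith
    by_cases e2 : y = z
    · subst e2; rw [dd_self y]; linarith
    by_cases hx : x ∈ S
    · by_cases hy : y ∈ S
      · by_cases hz : z ∈ S
        · rw [dd_in hw hx hy, dd_in hw hy hz, dd_in hw hx hz]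
          exact gd_tri hw (hr x hx y hy) (hr y hy z hz)
        · rw [dd_out (M := M) e2 (fun h => hz h.2)] at *
          linarith
      · rw [dd_out (M := M) e1 (fun h => hy h.2)] at *
        linarith
    · rw [dd_out (M := M) e1 (fun h => hx h.1)] at *
      linarith
  · by_cases h' : x ∈ S ∧ y ∈ S
    · rw [dd_in hw h'.1 h'.2]
      exact gd_pos hw (hr x h'.1 y h'.2) hne
    · rw [dd_out hne h']
      exact hM

lemma wl_mono {H : SimpleGraph V} {w w' : Sym2 V → ℝ}
    (h : ∀ x y, H.Adj x y → w s(x, y) ≤ w' s(x, y)) {x y : V} (p : H.Walk x y) :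
    wl w p ≤ wl w' p := by
  induction p with
  | nil => simp
  | cons hadj p ih =>
    rw [wl_cons, wl_cons]
    exact add_le_add (h _ _ hadj) ih

end BEM

open BEM in
/-- BE. -/
theorem specBE (hPC : SpecPC) (hDIST : SpecDIST) (hCOMP : SpecCOMP) : SpecBE := by
  intro V _ D H S hD hB w₀ hw₀
  obtain ⟨hS, hr, hn⟩ := built_facts hB
  have hk := k2_pos hD
  by_cases hE : ∃ p q, H.Adj p q
  swap
  · have hbot : H = ⊥ := by
      ext x y
      simp only [SimpleGraph.bot_adj, iff_false]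
      exact fun h => hE ⟨x, y, h⟩
    subst hbot
    exact embAll_bot w₀ hw₀
  obtain ⟨p, q, hpq⟩ := hE
  obtain ⟨M, hM, hM'⟩ := gd_bound hw₀
  set d := dd H w₀ S M with hdd
  have hd : Met d := dd_met hw₀ hr hM hM'
  set w : Sym2 V → ℝ := Sym2.lift ⟨fun x y => d x y, fun x y => hd.comm x y⟩ with hwdef
  have hw : ∀ x y, w s(x, y) = d x y := fun x y => rfl
  have hedge : ∀ x y, H.Adj x y → d x y ≤ w₀ s(x, y) := by
    intro x y h
    rw [hdd, dd_in hw₀ (hS x y h).1 (hS x y h).2]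
    exact gd_adj hw₀ h
  have hg : Geo d w H S := by
    refine ⟨fun x y _ => hw x y, fun x hx y hy => ?_⟩
    obtain ⟨W, hW⟩ := exists_gd hw₀ (hr x hx y hy)
    refine ⟨W, ?_⟩
    rw [hdd, dd_in hw₀ hx hy, ← hW]
    exact wl_mono (fun a b hab => by rw [hw]; exact hedge a b hab) W
  obtain ⟨ρ, hρ, -, hρd, -, -, hV⟩ :=
    built_claim hPC hDIST hCOMP hD hd hB hg p q hpq 1 (th_le_one hD) le_rfl
  have hlow : ∀ x ∈ S, ∀ y ∈ S, k2 D * d x y ≤ ρ x y := by
    intro x hx y hy
    obtain ⟨b, hb⟩ := hn x hx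
    obtain ⟨z, hz⟩ := hn y hy
    have hgood : VGood (ka D) d ρ x b 0 0 0 (d x b) := by
      refine ⟨le_rfl, zero_le_one, le_rfl, ?_, ?_⟩
      · rw [zero_sub, abs_neg, abs_of_nonneg (hd.nonneg x b)]
      · intro r r' A B hA
        have h1 := hA.left
        have h2 := hA.lip
        rw [abs_le] at h2
        have h3 : ka D * min (A + 0) (B + d x b) ≤ ka D * A := by
          apply mul_le_mul_of_nonneg_left _ (ka_pos hD).le
          exact (min_le_left _ _).trans (by rw [add_zero])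
        linarith [h2.1, h2.2]
    have h1 := hV x b hb 0 0 0 (d x b) hgood y z hz
    have h2 : min (0 + d x y) (d x b + d b y) = d x y := by
      rw [zero_add]
      exact min_eq_left (hd.tri x b y)
    rw [h2] at h1
    have h3 := hρ.tri x y z
    linarith
  refine (emb_iff hw₀).2 ⟨fun x y => 1 / k2 D * ρ x y, hρ.smul (by positivity), ?_, ?_⟩
  · intro u v huv
    have h1 := hρd u (hS u v huv).1 v (hS u v huv).2
    exact mul_le_mul_of_nonneg_left (h1.trans (hedge u v huv)) (by positivity)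
  · intro u v huv
    by_cases hne : u = v
    · subst hne
      rw [gd_self hw₀]
      exact mul_nonneg (by positivity) (hρ.nonneg _ _)
    · obtain ⟨hu, hv⟩ := reach_mem hS huv hne
      have h1 := hlow u hu v hv
      rw [hdd, dd_in hw₀ hu hv] at h1
      show gd H w₀ u v ≤ 1 / k2 D * ρ u v
      rw [one_div, ← div_eq_inv_mul, le_div_iff₀ hk]
      linarith

end TwoSum
end
end

section
set_option linter.all false

/-!
# The 2-sum theorem: components of graphs of the closure are subgraphs of built graphs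
-/

noncomputable section

namespace TwoSum

open KSum52

namespace BLTM

variable {V : Type}

lemma built_supp {D : ℝ} {H : SimpleGraph V} {S : Set V} (h : Built (Piece D) H S) : Supp H S := by
  induction h with
  | piece h => exact h.supp
  | glue h₁ h₂ hne hS e₁ e₂ ih₁ ih₂ =>
    rintro x y (h | h)
    · exact ⟨Or.inl (ih₁ x y h).1, Or.inl (ih₁ x y h).2⟩
    · exact ⟨Or.inr (ih₂ x y h).1, Or.inr (ih₂ x y h).2⟩

lemma built_nbr {D : ℝ} {H : SimpleGraph V} {S : Set V} (h : Built (Piece D) H S) :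
    ∀ x ∈ S, ∃ y, H.Adj x y := by
  induction h with
  | piece h => exact h.nbr
  | glue h₁ h₂ hne hS e₁ e₂ ih₁ ih₂ =>
    rintro x (hx | hx)
    · obtain ⟨y, hy⟩ := ih₁ x hx
      exact ⟨y, Or.inl hy⟩
    · obtain ⟨y, hy⟩ := ih₂ x hx
      exact ⟨y, Or.inr hy⟩

/-- the component of `v` -/
def cp (H : SimpleGraph V) (v : V) : Set V := {x | H.Reachable v x}

lemma mem_cp {H : SimpleGraph V} {v x : V} : x ∈ cp H v ↔ H.Reachable v x := Iff.rfl

lemma cp_self (H : SimpleGraph V) (v : V) : v ∈ cp H v := SimpleGraph.Reachable.refl v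

lemma cp_adj {H : SimpleGraph V} {v x y : V} (hx : x ∈ cp H v) (h : H.Adj x y) : y ∈ cp H v :=
  SimpleGraph.Reachable.trans hx h.reachable

lemma reach_ind {H : SimpleGraph V} {v : V} {S : Set V} (hv : v ∈ S)
    (hs : ∀ x ∈ S, ∀ y, H.Adj x y → y ∈ S) {x : V} (h : H.Reachable v x) : x ∈ S := by
  obtain ⟨p⟩ := h
  induction p with
  | nil => exact hv
  | cons h p ih => exact ih (hs _ hv _ h)

lemma cp_sub {H : SimpleGraph V} {R : Set V} (hs : Supp H R) {v : V} (hv : v ∈ R) : cp H v ⊆ R :=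
  fun _ hx => reach_ind hv (fun _ _ _ h => (hs _ _ h).2) hx

lemma reach_rs {H : SimpleGraph V} {C : Set V} (hC : ∀ x ∈ C, ∀ y, H.Adj x y → y ∈ C) {x y : V}
    (hx : x ∈ C) (h : H.Reachable x y) : (rs H C).Reachable x y := by
  obtain ⟨p⟩ := h
  induction p with
  | nil => exact SimpleGraph.Reachable.refl _
  | cons h p ih =>
    have h1 := hC _ hx _ h
    have h2 : (rs H C).Adj _ _ := ⟨h, hx, h1⟩
    exact h2.reachable.trans (ih h1)

lemma adj_of_reach {H : SimpleGraph V} {x y : V} (h : H.Reachable x y) (hne : x ≠ y) :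
    ∃ z, H.Adj x z := by
  obtain ⟨p⟩ := h
  cases p with
  | nil => exact absurd rfl hne
  | cons h p => exact ⟨_, h⟩

/-- the alternative -/
def Alt (D : ℝ) (H : SimpleGraph V) (R : Set V) (v : V) : Prop :=
  (∀ x ∈ cp H v, x = v) ∨ ∃ (H' : SimpleGraph V) (S' : Set V), Built (Piece D) H' S' ∧
    cp H v ⊆ S' ∧ S' ⊆ R ∧ rs H (cp H v) ≤ H'

lemma alt_mono {D : ℝ} {H H₁ : SimpleGraph V} {R : Set V} {v : V} (hle : H ≤ H₁)
    (h : Alt D H₁ R v) : Alt D H R v := by
  have hc : cp H v ⊆ cp H₁ v := fun x hx => SimpleGraph.Reachable.mono hle hx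
  rcases h with h | ⟨H', S', h1, h2, h3, h4⟩
  · exact Or.inl fun x hx => h x (hc hx)
  · exact Or.inr ⟨H', S', h1, hc.trans h2, h3, fun x y hxy =>
      h4 ⟨hle hxy.1, hc hxy.2.1, hc hxy.2.2⟩⟩

/-- the triangle -/
def tri (a b c : V) : SimpleGraph V where
  Adj x y := x ≠ y ∧ x ∈ ({a, b, c} : Set V) ∧ y ∈ ({a, b, c} : Set V)
  symm := ⟨fun x y h => ⟨h.1.symm, h.2.2, h.2.1⟩⟩
  loopless := ⟨fun x h => h.1 rfl⟩

lemma tri_piece (hR : SpecRMAP) [Fintype V] {D : ℝ} (hD : 1 ≤ D) {a b c : V} (hab : a ≠ b)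
    (hbc : b ≠ c) (hac : a ≠ c) : Piece D (tri a b c) {a, b, c} where
  re := hR.2.2 V D a b c (tri a b c) hD hab hbc hac fun x y => Iff.rfl
  supp := fun x y h => h.2
  conn := by
    intro x hx y hy
    by_cases h : x = y
    · rw [h]
    · have h1 : (tri a b c).Adj x y := ⟨h, hx, hy⟩
      exact h1.reachable
  nbr := by
    intro x hx
    by_cases h : x = a
    · refine ⟨b, ?_, hx, Or.inr (Or.inl rfl)⟩
      rw [h]
      exact hab
    · exact ⟨a, h, hx, Or.inl rfl⟩

lemma glue_lemma (hR : SpecRMAP) [Fintype V] {D : ℝ} (hD : 1 ≤ D) {H₁ H₂ : SimpleGraph V}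
    {R₁ R₂ : Set V} (hs₁ : Supp H₁ R₁) (hs₂ : Supp H₂ R₂) (hcard : (R₁ ∩ R₂).ncard ≤ 2)
    (hcl : ∀ x ∈ R₁ ∩ R₂, ∀ y ∈ R₁ ∩ R₂, x ≠ y → H₁.Adj x y ∧ H₂.Adj x y)
    (A₁ : ∀ v ∈ R₁, Alt D H₁ R₁ v) (A₂ : ∀ v ∈ R₂, Alt D H₂ R₂ v) {v : V} (hv : v ∈ R₁) :
    Alt D (H₁ ⊔ H₂) (R₁ ∪ R₂) v := by
  have hC₁ := cp_sub hs₁ hv
  by_cases hB : ∃ s ∈ cp H₁ v, s ∈ R₂
  · obtain ⟨s, hs, hs2⟩ := hB
    have hs1 : s ∈ R₁ := hC₁ hs
    have hC₂ : cp H₂ s ⊆ R₂ := cp_sub hs₂ hs2
    have L1 : ∀ x, x ∈ cp H₁ v ∨ x ∈ cp H₂ s → x ∈ R₁ → x ∈ cp H₁ v := by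
      rintro x (hx | hx) hx1
      · exact hx
      · by_cases h : s = x
        · rw [← h]
          exact hs
        · exact cp_adj hs (hcl s ⟨hs1, hs2⟩ x ⟨hx1, hC₂ hx⟩ h).1
    have L2 : ∀ x, x ∈ cp H₁ v ∨ x ∈ cp H₂ s → x ∈ R₂ → x ∈ cp H₂ s := by
      rintro x (hx | hx) hx2
      · by_cases h : s = x
        · rw [← h]
          exact cp_self _ _
        · exact cp_adj (cp_self _ _) (hcl s ⟨hs1, hs2⟩ x ⟨hC₁ hx, hx2⟩ h).2
      · exact hx
    have hC : cp (H₁ ⊔ H₂) v ⊆ cp H₁ v ∪ cp H₂ s := by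
      intro x hx
      refine reach_ind (S := cp H₁ v ∪ cp H₂ s) (Or.inl (cp_self _ _)) ?_ hx
      rintro y hy z (hyz | hyz)
      · exact Or.inl (cp_adj (L1 y hy (hs₁ _ _ hyz).1) hyz)
      · exact Or.inr (cp_adj (L2 y hy (hs₂ _ _ hyz).1) hyz)
    have hrs : ∀ x y, (rs (H₁ ⊔ H₂) (cp (H₁ ⊔ H₂) v)).Adj x y →
        (rs H₁ (cp H₁ v)).Adj x y ∨ (rs H₂ (cp H₂ s)).Adj x y := by
      rintro x y ⟨hxy | hxy, hx, hy⟩
      · exact Or.inl ⟨hxy, L1 x (hC hx) (hs₁ _ _ hxy).1, L1 y (hC hy) (hs₁ _ _ hxy).2⟩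
      · exact Or.inr ⟨hxy, L2 x (hC hx) (hs₂ _ _ hxy).1, L2 y (hC hy) (hs₂ _ _ hxy).2⟩
    rcases A₁ v hv with h₁ | ⟨H₁', S₁', b₁, c₁, r₁, l₁⟩
    · have hsv : s = v := h₁ s hs
      rcases A₂ s hs2 with h₂ | ⟨H₂', S₂', b₂, c₂, r₂, l₂⟩
      · left
        intro x hx
        rcases hC hx with h | h
        · exact h₁ x h
        · rw [← hsv]
          exact h₂ x h
      · right
        refine ⟨H₂', S₂', b₂, ?_, r₂.trans Set.subset_union_right, ?_⟩
        · intro x hx
          rcases hC hx with h | h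
          · rw [h₁ x h, ← hsv]
            exact c₂ (cp_self _ _)
          · exact c₂ h
        · intro x y hxy
          rcases hrs x y hxy with h | h
          · exact absurd ((h₁ x h.2.1).trans (h₁ y h.2.2).symm) h.1.ne
          · exact l₂ h
    · rcases A₂ s hs2 with h₂ | ⟨H₂', S₂', b₂, c₂, r₂, l₂⟩
      · right
        refine ⟨H₁', S₁', b₁, ?_, r₁.trans Set.subset_union_left, ?_⟩
        · intro x hx
          rcases hC hx with h | h
          · exact c₁ h
          · rw [h₂ x h]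
            exact c₁ hs
        · intro x y hxy
          rcases hrs x y hxy with h | h
          · exact l₁ h
          · exact absurd ((h₂ x h.2.1).trans (h₂ y h.2.2).symm) h.1.ne
      · right
        have e₁ : s ∈ S₁' := c₁ hs
        have e₂ : s ∈ S₂' := c₂ (cp_self _ _)
        have hsub : S₁' ∩ S₂' ⊆ R₁ ∩ R₂ := Set.inter_subset_inter r₁ r₂
        by_cases ht : ∃ t, t ∈ S₁' ∩ S₂' ∧ s ≠ t
        · obtain ⟨t, ht, hne⟩ := ht
          have hS : S₁' ∩ S₂' = {s, t} := by
            symm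
            apply Set.eq_of_subset_of_ncard_le
            · rintro x (rfl | rfl)
              · exact ⟨e₁, e₂⟩
              · exact ht
            · rw [Set.ncard_pair hne]
              exact (Set.ncard_le_ncard hsub (Set.toFinite _)).trans hcard
            · exact Set.toFinite _
          obtain ⟨a₁, a₂⟩ := hcl s (hsub ⟨e₁, e₂⟩) t (hsub ht) hne
          refine ⟨H₁' ⊔ H₂', S₁' ∪ S₂', Built.glue b₁ b₂ hne hS
            (l₁ ⟨a₁, hs, cp_adj hs a₁⟩) (l₂ ⟨a₂, cp_self _ _, cp_adj (cp_self _ _) a₂⟩), ?_,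
            Set.union_subset_union r₁ r₂, ?_⟩
          · intro x hx
            rcases hC hx with h | h
            · exact Or.inl (c₁ h)
            · exact Or.inr (c₂ h)
          · intro x y hxy
            rcases hrs x y hxy with h | h
            · exact Or.inl (l₁ h)
            · exact Or.inr (l₂ h)
        · have hu : ∀ t, t ∈ S₁' → t ∈ S₂' → t = s := by
            intro t h1 h2
            by_contra hc
            exact ht ⟨t, ⟨h1, h2⟩, fun h => hc h.symm⟩
          obtain ⟨s₁, hs₁'⟩ := built_nbr b₁ s e₁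
          obtain ⟨s₂, hs₂'⟩ := built_nbr b₂ s e₂
          have m₁ : s₁ ∈ S₁' := (built_supp b₁ _ _ hs₁').2
          have m₂ : s₂ ∈ S₂' := (built_supp b₂ _ _ hs₂').2
          have n₁ : s ≠ s₁ := hs₁'.ne
          have n₂ : s ≠ s₂ := hs₂'.ne
          have k₁ : s₁ ∉ S₂' := fun h => n₁ (hu s₁ m₁ h).symm
          have k₂ : s₂ ∉ S₁' := fun h => n₂ (hu s₂ h m₂).symm
          have n₁₂ : s₁ ≠ s₂ := fun h => k₁ (h ▸ m₂)
          have hT := tri_piece hR hD n₁ n₁₂ n₂
          have g₁ : Built (Piece D) (H₁' ⊔ tri s s₁ s₂) (S₁' ∪ {s, s₁, s₂}) := by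
            refine Built.glue b₁ (Built.piece hT) n₁ ?_ hs₁' ⟨n₁, Or.inl rfl, Or.inr (Or.inl rfl)⟩
            ext x
            constructor
            · rintro ⟨h1, h2 | h2 | h2⟩
              · exact Or.inl h2
              · exact Or.inr h2
              · rw [Set.mem_singleton_iff] at h2
                rw [h2] at h1
                exact absurd h1 k₂
            · rintro (h2 | h2)
              · rw [h2]
                exact ⟨e₁, Or.inl rfl⟩
              · rw [Set.mem_singleton_iff] at h2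
                rw [h2]
                exact ⟨m₁, Or.inr (Or.inl rfl)⟩
          have g₂ : Built (Piece D) (H₁' ⊔ tri s s₁ s₂ ⊔ H₂') (S₁' ∪ {s, s₁, s₂} ∪ S₂') := by
            refine Built.glue g₁ b₂ n₂ ?_ (Or.inr ⟨n₂, Or.inl rfl, Or.inr (Or.inr rfl)⟩) hs₂'
            ext x
            constructor
            · rintro ⟨h1 | h2 | h2 | h2, h3⟩
              · exact Or.inl (hu x h1 h3)
              · exact Or.inl h2
              · rw [h2] at h3
                exact absurd h3 k₁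
              · exact Or.inr h2
            · rintro (h2 | h2)
              · rw [h2]
                exact ⟨Or.inl e₁, e₂⟩
              · rw [Set.mem_singleton_iff] at h2
                rw [h2]
                exact ⟨Or.inr (Or.inr (Or.inr rfl)), m₂⟩
          refine ⟨_, _, g₂, ?_, ?_, ?_⟩
          · intro x hx
            rcases hC hx with h | h
            · exact Or.inl (Or.inl (c₁ h))
            · exact Or.inr (c₂ h)
          · rintro x ((hx | hx | hx | hx) | hx)
            · exact Or.inl (r₁ hx)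
            · rw [hx]
              exact Or.inl (r₁ e₁)
            · rw [hx]
              exact Or.inl (r₁ m₁)
            · rw [Set.mem_singleton_iff] at hx
              rw [hx]
              exact Or.inr (r₂ m₂)
            · exact Or.inr (r₂ hx)
          · intro x y hxy
            rcases hrs x y hxy with h | h
            · exact Or.inl (Or.inl (l₁ h))
            · exact Or.inr (l₂ h)
  · have hB' : ∀ s ∈ cp H₁ v, s ∉ R₂ := fun s h1 h2 => hB ⟨s, h1, h2⟩
    have hC : cp (H₁ ⊔ H₂) v ⊆ cp H₁ v := by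
      intro x hx
      refine reach_ind (S := cp H₁ v) (cp_self _ _) ?_ hx
      rintro y hy z (hyz | hyz)
      · exact cp_adj hy hyz
      · exact absurd (hs₂ _ _ hyz).1 (hB' y hy)
    rcases A₁ v hv with h₁ | ⟨H₁', S₁', b₁, c₁, r₁, l₁⟩
    · exact Or.inl fun x hx => h₁ x (hC hx)
    · right
      refine ⟨H₁', S₁', b₁, hC.trans c₁, r₁.trans Set.subset_union_left, ?_⟩
      rintro x y ⟨hxy | hxy, hx, hy⟩
      · exact l₁ ⟨hxy, hC hx, hC hy⟩
      · exact absurd (hs₂ _ _ hxy).1 (hB' x (hC hx))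

lemma supp_map {n : ℕ} (G : SimpleGraph (Fin n)) (φ : Fin n ↪ V) :
    Supp (G.map φ) (Set.range φ) := by
  intro x y h
  obtain ⟨a, b, hab, rfl, rfl⟩ := (SimpleGraph.map_adj _ _ _ _).1 h
  exact ⟨⟨a, rfl⟩, ⟨b, rfl⟩⟩

lemma key (hR : SpecRMAP) [Fintype V] {F : Family} {D : ℝ} (hD : 1 ≤ D)
    (hF : ∀ (n : ℕ) (G : SimpleGraph (Fin n)), F n G → RE D G) {n : ℕ} {G : SimpleGraph (Fin n)}
    (hG : Clos 2 F n G) : ∀ (φ : Fin n ↪ V), ∀ v ∈ Set.range φ,
      Alt D (G.map φ) (Set.range φ) v := by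
  induction hG with
  | piece h =>
    rename_i n G
    intro φ v hv
    by_cases hc : ∀ x ∈ cp (G.map φ) v, x = v
    · exact Or.inl hc
    · right
      push Not at hc
      obtain ⟨z, hz, hzv⟩ := hc
      have hcl : ∀ x ∈ cp (G.map φ) v, ∀ y, (G.map φ).Adj x y → y ∈ cp (G.map φ) v :=
        fun x hx y hxy => cp_adj hx hxy
      have hconn : ∀ x ∈ cp (G.map φ) v, ∀ y ∈ cp (G.map φ) v,
          (rs (G.map φ) (cp (G.map φ) v)).Reachable x y := fun x hx y hy =>
        reach_rs hcl hx ((SimpleGraph.Reachable.symm hx).trans hy)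
      refine ⟨rs (G.map φ) (cp (G.map φ) v), cp (G.map φ) v, Built.piece ⟨?_, ?_, hconn, ?_⟩,
        le_rfl, cp_sub (supp_map G φ) hv, le_rfl⟩
      · exact hR.2.1 V D (G.map φ) _ (fun x y hxy hx => hcl x hx y hxy)
          (hR.1 (Fin n) V D G φ (hF n G h))
      · exact fun x y hxy => hxy.2
      · intro x hx
        by_cases hxz : x = z
        · exact adj_of_reach (hconn x hx v (cp_self _ _)) (by rw [hxz]; exact hzv)
        · exact adj_of_reach (hconn x hx z hz) hxz
  | glue φ₁ φ₂ h₁ h₂ h G hle hdel ih₁ ih₂ =>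
    rename_i a b N G₁ G₂
    intro φ v hv
    have hle' : G.map φ ≤ G₁.map (φ₁.trans φ) ⊔ G₂.map (φ₂.trans φ) := by
      intro x y hxy
      obtain ⟨c, d, hcd, rfl, rfl⟩ := (SimpleGraph.map_adj _ _ _ _).1 hxy
      rcases hle hcd with h | h
      · obtain ⟨c', d', h', rfl, rfl⟩ := (SimpleGraph.map_adj _ _ _ _).1 h
        exact Or.inl ((SimpleGraph.map_adj _ _ _ _).2 ⟨c', d', h', rfl, rfl⟩)
      · obtain ⟨c', d', h', rfl, rfl⟩ := (SimpleGraph.map_adj _ _ _ _).1 h
        exact Or.inr ((SimpleGraph.map_adj _ _ _ _).2 ⟨c', d', h', rfl, rfl⟩)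
    have hr1 : Set.range (φ₁.trans φ) = φ '' Set.range φ₁ := by
      rw [← Set.range_comp]
      rfl
    have hr2 : Set.range (φ₂.trans φ) = φ '' Set.range φ₂ := by
      rw [← Set.range_comp]
      rfl
    have hint : Set.range (φ₁.trans φ) ∩ Set.range (φ₂.trans φ) =
        φ '' (Set.range φ₁ ∩ Set.range φ₂) := by
      rw [hr1, hr2, Set.image_inter φ.injective]
    have hcard : (Set.range (φ₁.trans φ) ∩ Set.range (φ₂.trans φ)).ncard ≤ 2 := by
      rw [hint, Set.ncard_image_of_injective _ φ.injective]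
      exact h.card
    have hcl : ∀ x ∈ Set.range (φ₁.trans φ) ∩ Set.range (φ₂.trans φ),
        ∀ y ∈ Set.range (φ₁.trans φ) ∩ Set.range (φ₂.trans φ), x ≠ y →
        (G₁.map (φ₁.trans φ)).Adj x y ∧ (G₂.map (φ₂.trans φ)).Adj x y := by
      rw [hint]
      rintro x ⟨c, hc, rfl⟩ y ⟨d, hd, rfl⟩ hne
      obtain ⟨h3, h4⟩ := h.clique c hc d hd fun h => hne (by rw [h])
      constructor
      · obtain ⟨c', d', h', rfl, rfl⟩ := (SimpleGraph.map_adj _ _ _ _).1 h3
        exact (SimpleGraph.map_adj _ _ _ _).2 ⟨c', d', h', rfl, rfl⟩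
      · obtain ⟨c', d', h', rfl, rfl⟩ := (SimpleGraph.map_adj _ _ _ _).1 h4
        exact (SimpleGraph.map_adj _ _ _ _).2 ⟨c', d', h', rfl, rfl⟩
    have hun : Set.range (φ₁.trans φ) ∪ Set.range (φ₂.trans φ) = Set.range φ := by
      rw [hr1, hr2, ← Set.image_union]
      have h5 : Set.range φ₁ ∪ Set.range φ₂ = Set.univ := by
        ext x
        exact ⟨fun _ => trivial, fun _ => h.cover x⟩
      rw [h5, Set.image_univ]
    apply alt_mono hle'
    rw [← hun] at hv ⊢
    rcases hv with hv | hv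
    · exact glue_lemma hR hD (supp_map _ _) (supp_map _ _) hcard hcl (ih₁ _) (ih₂ _) hv
    · rw [sup_comm, Set.union_comm]
      refine glue_lemma hR hD (supp_map _ _) (supp_map _ _) (by rw [Set.inter_comm]; exact hcard)
        (fun x hx y hy hne => ?_) (ih₂ _) (ih₁ _) hv
      exact (hcl x ⟨hx.2, hx.1⟩ y ⟨hy.2, hy.1⟩ hne).symm

end BLTM

open BLTM in
theorem specBLT (hR : SpecRMAP) : SpecBLT := by
  intro F D hD hF n G hG v
  have h := key hR hD hF hG (Function.Embedding.refl (Fin n)) v ⟨v, rfl⟩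
  have he : G.map (Function.Embedding.refl (Fin n)) = G := by
    ext x y
    rw [SimpleGraph.map_adj]
    constructor
    · rintro ⟨a, b, hab, rfl, rfl⟩
      exact hab
    · intro h
      exact ⟨x, y, h, rfl, rfl⟩
  rw [he] at h
  rcases h with h | ⟨H', S', h1, h2, h3, h4⟩
  · exact Or.inl h
  · exact Or.inr ⟨H', S', h1, h4⟩

end TwoSum
end
end

section
set_option linter.all false

/-!
# Module CLO: compactness of the set of `ℓ₁` semimetrics
-/

noncomputable section

namespace TwoSum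

open KSum52

namespace CLOM

variable {V : Type}

/-- the semimetric of a function on the set of all cuts -/
def cs [Fintype V] [DecidableEq V] (a : (V → Bool) → ℝ) (x y : V) : ℝ :=
  ∑ c : V → Bool, if c x = c y then 0 else a c

lemma group [Fintype V] [DecidableEq V] (L : List (ℝ × (V → Bool))) (hL : Nn L) :
    ∃ a : (V → Bool) → ℝ, (∀ c, 0 ≤ a c) ∧ ∀ x y, cd L x y = cs a x y := by
  induction L with
  | nil => exact ⟨fun _ => 0, fun _ => le_rfl, fun x y => by simp [cs]⟩
  | cons c L ih =>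
    obtain ⟨a, ha, h⟩ := ih (fun c' hc' => hL c' (by simp [hc']))
    refine ⟨fun e => a e + if e = c.2 then c.1 else 0, fun e => ?_, fun x y => ?_⟩
    · have h1 : 0 ≤ c.1 := hL c (by simp)
      have := ha e
      show 0 ≤ a e + if e = c.2 then c.1 else 0
      split_ifs <;> linarith
    · rw [cd_cons, h]
      unfold cs
      have h2 : ∀ e : V → Bool, (if e x = e y then (0 : ℝ) else a e + if e = c.2 then c.1 else 0) =
          (if e = c.2 then (if c.2 x = c.2 y then 0 else c.1) else 0) +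
            (if e x = e y then 0 else a e) := by
        intro e
        by_cases he : e = c.2
        · subst he
          split_ifs <;> simp [add_comm]
        · simp [he]
      rw [Finset.sum_congr rfl fun e _ => h2 e, Finset.sum_add_distrib, Finset.sum_ite_eq']
      simp

lemma isL1_cs [Fintype V] [DecidableEq V] {a : (V → Bool) → ℝ} (ha : ∀ c, 0 ≤ a c) :
    IsL1 (cs a) := by
  have h1 : IsL1 (fun x y : V => ∑ c : V → Bool,
      a c * |(if c x then (1 : ℝ) else 0) - (if c y then 1 else 0)|) :=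
    IsL1.sum Finset.univ fun c _ => (IsL1.abs (fun x => if c x then (1 : ℝ) else 0)).smul (ha c)
  refine h1.of_eq fun x y => Finset.sum_congr rfl fun c _ => ?_
  rcases hx : c x <;> rcases hy : c y <;> simp

end CLOM

open CLOM in
theorem specCLO : SpecCLO := by
  classical
  intro V _ δ B hδ hB
  have h1 : ∀ n, ∃ a : (V → Bool) → ℝ, (∀ c, 0 ≤ a c ∧ a c ≤ max B 0) ∧
      ∀ x y, δ n x y = cs a x y := by
    intro n
    obtain ⟨L, hL, hcd⟩ := (hδ n).exists_cuts
    obtain ⟨a, ha, h⟩ := group L hL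
    refine ⟨fun c => if ∃ x y, c x ≠ c y then a c else 0, fun c => ?_, fun x y => ?_⟩
    · by_cases hc : ∃ x y, c x ≠ c y
      · simp only [if_pos hc]
        refine ⟨ha c, ?_⟩
        obtain ⟨x, y, hxy⟩ := hc
        have h2 := hB n x y
        rw [hcd, h] at h2
        have h3 : a c ≤ cs a x y := by
          unfold cs
          have := Finset.single_le_sum (f := fun c : V → Bool => if c x = c y then 0 else a c)
            (fun c _ => by split_ifs <;> simp [ha]) (Finset.mem_univ c)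
          simpa [if_neg hxy] using this
        exact (h3.trans h2).trans (le_max_left _ _)
      · simp only [if_neg hc]
        exact ⟨le_rfl, le_max_right _ _⟩
    · rw [hcd, h]
      unfold cs
      refine Finset.sum_congr rfl fun c _ => ?_
      by_cases hxy : c x = c y
      · simp [hxy]
      · have hex : ∃ x y, c x ≠ c y := ⟨x, y, hxy⟩
        rw [if_neg hxy, if_neg hxy]
        show a c = if ∃ x y, c x ≠ c y then a c else 0
        rw [if_pos hex]
  choose a ha haδ using h1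
  have hK : IsCompact (Set.pi Set.univ (fun _ : V → Bool => Set.Icc (0 : ℝ) (max B 0))) :=
    isCompact_univ_pi fun _ => isCompact_Icc
  obtain ⟨a', ha', φ, hφ, ht⟩ := hK.tendsto_subseq (x := a) (fun n c _ => ha n c)
  refine ⟨cs a', φ, isL1_cs fun c => (ha' c (Set.mem_univ c)).1, hφ, fun x y => ?_⟩
  have h2 : (fun n => δ (φ n) x y) = fun n => cs (a (φ n)) x y := funext fun n => haδ _ _ _
  rw [h2]
  unfold cs
  refine tendsto_finsetSum _ fun c _ => ?_
  by_cases hxy : c x = c y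
  · simp [hxy]
  · simp only [if_neg hxy]
    exact (tendsto_pi_nhds.1 ht) c

end TwoSum
end
end

section
set_option linter.all false

/-! # Module COMP -/

noncomputable section

namespace TwoSum

open KSum52

namespace COMPM

variable {V : Type}

lemma wprop_congr {κ : ℝ} {d ρ ρ' : V → V → ℝ} {H : SimpleGraph V} {S : Set V} {p q : V}
    (hS : Supp H S) (hp : p ∈ S) (hq : q ∈ S) (he : ∀ x ∈ S, ∀ y ∈ S, ρ' x y = ρ x y)
    (h : WProp κ d H ρ p q) : WProp κ d H ρ' p q := by
  intro r r' A B hA x y hxy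
  obtain ⟨hx, hy⟩ := hS x y hxy
  rw [he p hp q hq] at hA
  have := h r r' A B hA x y hxy
  rw [he p hp q hq, he p hp x hx, he q hq x hx, he p hp y hy, he q hq y hy, he x hx y hy]
  exact this

lemma vprop_congr {κ κ₂ : ℝ} {d ρ ρ' : V → V → ℝ} {H : SimpleGraph V} {S : Set V}
    (hS : Supp H S) (he : ∀ x ∈ S, ∀ y ∈ S, ρ' x y = ρ x y)
    (h : VProp κ κ₂ d H ρ) : VProp κ κ₂ d H ρ' := by
  intro a b hab T n α β hV x y hxy
  obtain ⟨ha, hb⟩ := hS a b hab
  obtain ⟨hx, hy⟩ := hS x y hxy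
  have hV' : VGood κ d ρ a b T n α β := by
    refine ⟨hV.T0, hV.T1, hV.n0, hV.lip, ?_⟩
    intro r r' A B hA
    rw [← he a ha b hb] at hA
    exact hV.good r r' A B hA
  have := h a b hab T n α β hV' x y hxy
  rw [he a ha x hx, he b hb x hx, he a ha y hy, he b hb y hy, he x hx y hy]
  exact this

lemma half (hG : SpecGLUE) (hCW : SpecCW) (hCV : SpecCV) [Fintype V] (θ κ κ₂ : ℝ)
    (d : V → V → ℝ) (H₁ H₂ : SimpleGraph V) (S₁ S₂ : Set V) (s t : V) (hθ : 0 < θ) (hκ₂ : 0 < κ₂)
    (hκ : κ₂ ≤ κ) (hd : Met d) (hS₁ : Supp H₁ S₁) (hS₂ : Supp H₂ S₂) (hst : s ≠ t)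
    (hS : S₁ ∩ S₂ = {s, t}) (e₁ : H₁.Adj s t) (e₂ : H₂.Adj s t)
    (hmin : ∀ u ∈ S₁, ∀ x ∈ S₂, min (d u s + d s x) (d u t + d t x) ≤ d u x)
    (h₁ : Claim θ κ κ₂ d H₁ S₁) (h₂ : Claim θ κ κ₂ d H₂ S₂) (p q : V) (hpq : H₁.Adj p q) (c : ℝ)
    (hc : θ ≤ c) (hc1 : c ≤ 1) : ∃ ρ : V → V → ℝ, IsL1 ρ ∧ ρ p q = c * d p q ∧
    (∀ x ∈ S₁ ∪ S₂, ∀ y ∈ S₁ ∪ S₂, ρ x y ≤ d x y) ∧
    (∀ x y, (H₁ ⊔ H₂).Adj x y → θ * d x y ≤ ρ x y) ∧
    WProp κ d (H₁ ⊔ H₂) ρ p q ∧ VProp κ κ₂ d (H₁ ⊔ H₂) ρ := by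
  obtain ⟨ρ₁, a1, a2, a3, a4, a5, a6⟩ := h₁ p q hpq c hc hc1
  obtain ⟨hs1, ht1⟩ := hS₁ s t e₁
  obtain ⟨hs2, ht2⟩ := hS₂ s t e₂
  obtain ⟨hp1, hq1⟩ := hS₁ p q hpq
  have hdst := hd.pos s t hst
  have hc'1 : θ ≤ ρ₁ s t / d s t := by
    rw [le_div_iff₀ hdst]
    exact a4 s t e₁
  have hc'2 : ρ₁ s t / d s t ≤ 1 := by
    rw [div_le_one hdst]
    exact a3 s hs1 t ht1
  obtain ⟨ρ₂, b1, b2, b3, b4, b5, b6⟩ := h₂ s t e₂ _ hc'1 hc'2
  rw [div_mul_cancel₀ _ hdst.ne'] at b2
  have hpos : 0 < ρ₁ s t := lt_of_lt_of_le (mul_pos hθ hdst) (a4 s t e₁)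
  obtain ⟨ρ, r1, r2, r3, r4⟩ := hG V S₁ S₂ s t ρ₁ ρ₂ a1 b1 hS hpos b2
  have hW₁ : WProp κ d H₁ ρ p q := wprop_congr hS₁ hp1 hq1 r2 a5
  have hV₁ : VProp κ κ₂ d H₁ ρ := vprop_congr hS₁ r2 a6
  have hW₂ : WProp κ d H₂ ρ s t := wprop_congr hS₂ hs2 ht2 r3 b5
  have hV₂ : VProp κ κ₂ d H₂ ρ := vprop_congr hS₂ r3 b6
  have hρst : 0 < ρ s t := by rw [r2 s hs1 t ht1]; exact hpos
  have hcross : ∀ u ∈ S₁, ∀ x ∈ S₂, ρ u x = ext (ρ s t) (ρ s x) (ρ t x) (ρ u s) (ρ u t) := by
    intro u hu x hx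
    rw [r4 u hu x hx, r2 s hs1 t ht1, r3 s hs2 x hx, r3 t ht2 x hx, r2 u hu s hs1, r2 u hu t ht1]
  have hle₁ : ∀ x ∈ S₁, ∀ y ∈ S₁, ρ x y ≤ d x y := fun x hx y hy => by
    rw [r2 x hx y hy]; exact a3 x hx y hy
  have hle₂ : ∀ x ∈ S₂, ∀ y ∈ S₂, ρ x y ≤ d x y := fun x hx y hy => by
    rw [r3 x hx y hy]; exact b3 x hx y hy
  have hle₁₂ : ∀ x ∈ S₁, ∀ y ∈ S₂, ρ x y ≤ d x y := by
    intro x hx y hy
    refine le_trans (le_min ?_ ?_) (hmin x hx y hy)
    · exact (r1.tri x s y).trans (add_le_add (hle₁ x hx s hs1) (hle₂ s hs2 y hy))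
    · exact (r1.tri x t y).trans (add_le_add (hle₁ x hx t ht1) (hle₂ t ht2 y hy))
  have hρpq : ρ p q = c * d p q := by rw [r2 p hp1 q hq1, a2]
  have hppq : 0 < ρ p q := by
    rw [hρpq]
    exact mul_pos (lt_of_lt_of_le hθ hc) (hd.pos p q hpq.ne)
  refine ⟨ρ, r1, hρpq, ?_, ?_, ?_, ?_⟩
  · rintro x (hx | hx) y (hy | hy)
    · exact hle₁ x hx y hy
    · exact hle₁₂ x hx y hy
    · rw [r1.comm, hd.comm]
      exact hle₁₂ y hy x hx
    · exact hle₂ x hx y hy
  · intro x y hxy
    rw [SimpleGraph.sup_adj] at hxy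
    rcases hxy with hxy | hxy
    · obtain ⟨hx, hy⟩ := hS₁ x y hxy
      rw [r2 x hx y hy]
      exact a4 x y hxy
    · obtain ⟨hx, hy⟩ := hS₂ x y hxy
      rw [r3 x hx y hy]
      exact b4 x y hxy
  · exact hCW V κ d ρ H₁ H₂ S₁ S₂ s t p q (lt_of_lt_of_le hκ₂ hκ) hd r1 hS₁ hS₂ e₁ e₂ hpq hρst hppq
      hcross hW₁ hW₂
  · exact hCV V κ κ₂ d ρ H₁ H₂ S₁ S₂ s t hκ₂ hκ hd r1 hS₁ hS₂ e₁ e₂ hρst hcross hV₁ hV₂ hW₂

end COMPM

theorem specCOMP (hG : SpecGLUE) (hCW : SpecCW) (hCV : SpecCV) : SpecCOMP := by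
  intro V _ θ κ κ₂ d H₁ H₂ S₁ S₂ s t hθ hκ₂ hκ hd hS₁ hS₂ hst hS e₁ e₂ hmin h₁ h₂ p q hpq c hc hc1
  rw [SimpleGraph.sup_adj] at hpq
  rcases hpq with hpq | hpq
  · exact COMPM.half hG hCW hCV θ κ κ₂ d H₁ H₂ S₁ S₂ s t hθ hκ₂ hκ hd hS₁ hS₂ hst hS e₁ e₂ hmin
      h₁ h₂ p q hpq c hc hc1
  · have h := COMPM.half hG hCW hCV θ κ κ₂ d H₂ H₁ S₂ S₁ s t hθ hκ₂ hκ hd hS₂ hS₁ hst
      (by rw [Set.inter_comm]; exact hS) e₂ e₁ (by
        intro u hu x hx
        have := hmin x hx u hu
        rw [hd.comm u x, hd.comm u s, hd.comm s x, hd.comm u t, hd.comm t x, add_comm (d s u),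
          add_comm (d t u)]
        exact this) h₂ h₁ p q hpq c hc hc1
    rw [sup_comm, Set.union_comm]
    exact h

end TwoSum
end
end

section
set_option linter.all false

/-!
# Module COPY: gluing a scaled copy of a graph on every edge
-/

noncomputable section

namespace TwoSum

open KSum52

namespace COPYM

lemma wl_smul {V : Type} {H : SimpleGraph V} (lam : ℝ) (v : Sym2 V → ℝ) {x y : V}
    (W : H.Walk x y) : wl (fun e => lam * v e) W = lam * wl v W := by
  induction W with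
  | nil => simp
  | cons h p ih => rw [wl_cons, wl_cons, ih, mul_add]

lemma pos_smul {V : Type} {H : SimpleGraph V} {lam : ℝ} (hl : 0 < lam) {v : Sym2 V → ℝ}
    (hv : Pos H v) : Pos H (fun e => lam * v e) := fun e he => mul_pos hl (hv e he)

lemma gd_smul {V : Type} [Fintype V] {H : SimpleGraph V} {lam : ℝ} (hl : 0 < lam)
    {v : Sym2 V → ℝ} (hv : Pos H v) {x y : V} (h : H.Reachable x y) :
    gd H (fun e => lam * v e) x y = lam * gd H v x y := by
  apply le_antisymm
  · obtain ⟨W, hW⟩ := exists_gd hv h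
    rw [← hW, ← wl_smul]
    exact gd_le (pos_smul hl hv) W
  · obtain ⟨W, hW⟩ := exists_gd (pos_smul hl hv) h
    rw [← hW, wl_smul]
    exact mul_le_mul_of_nonneg_left (gd_le hv W) hl.le

lemma reach_map {a N : ℕ} {G : SimpleGraph (Fin a)} {G' : SimpleGraph (Fin N)}
    (φ : Fin a ↪ Fin N) (h : ∀ x y, G.Adj x y → G'.Adj (φ x) (φ y)) {x y : Fin a}
    (hr : G.Reachable x y) : G'.Reachable (φ x) (φ y) := by
  obtain ⟨W⟩ := hr
  induction W with
  | nil => exact SimpleGraph.Reachable.refl _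
  | cons hadj p ih => exact (h _ _ hadj).reachable.trans ih

end COPYM

open COPYM in
theorem specCOPY (hI : SpecISO) : SpecCOPY := by
  classical
  intro F N n G w H v p q hG hF hw hTw hv hT hpq
  have key : ∀ L : Finset (Fin N × Fin N),
      ∃ (N' : ℕ) (G' : SimpleGraph (Fin N')) (w' : Sym2 (Fin N') → ℝ) (ψ : Fin N ↪ Fin N'),
      Clos 2 F N' G' ∧ Pos G' w' ∧ Tight G' w' ∧
      (∀ x y, G.Adj x y → G'.Adj (ψ x) (ψ y) ∧ w' s(ψ x, ψ y) = w s(x, y)) ∧
      (∀ x y, G.Reachable x y → G'.Reachable (ψ x) (ψ y) ∧ gd G w x y ≤ gd G' w' (ψ x) (ψ y)) ∧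
      ∀ s t, (s, t) ∈ L → G.Adj s t → ∃ (φ : Fin n ↪ Fin N') (lam : ℝ), 0 < lam ∧ φ p = ψ s ∧
        φ q = ψ t ∧
        (∀ x y, H.Adj x y → G'.Adj (φ x) (φ y) ∧ w' s(φ x, φ y) = lam * v s(x, y)) ∧
        (∀ x y, H.Reachable x y → G'.Reachable (φ x) (φ y) ∧
          lam * gd H v x y ≤ gd G' w' (φ x) (φ y)) := by
    intro L
    induction L using Finset.induction_on with
    | empty =>
      exact ⟨N, G, w, Function.Embedding.refl _, hG, hw, hTw, fun x y h => ⟨h, rfl⟩,
        fun x y h => ⟨h, le_rfl⟩, fun s t h => absurd h (Finset.notMem_empty _)⟩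
    | insert st L _ ih =>
      obtain ⟨N', G', w', ψ, hG', hw', hTw', h1, h2, h3⟩ := ih
      obtain ⟨s, t⟩ := st
      by_cases hst : G.Adj s t
      · have hvpq : 0 < v s(p, q) := hv.adj hpq
        have hwst : 0 < w s(s, t) := hw.adj hst
        set lam : ℝ := w s(s, t) / v s(p, q) with hlam
        have hl : 0 < lam := div_pos hwst hvpq
        have hTl : Tight H (fun e => lam * v e) := by
          intro x y hxy
          rw [gd_smul hl hv hxy.reachable, ← hT x y hxy]
        obtain ⟨N'', φ₁, φ₂, w'', hsum, e1, e2, hw'', hTw'', g1, g2, g3, g4⟩ :=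
          hI N' n G' w' H (fun e => lam * v e) (ψ s) (ψ t) p q hw' hTw' (pos_smul hl hv) hTl
            (h1 s t hst).1 hpq (by
              rw [(h1 s t hst).2, hlam]
              field_simp)
        have a1 : ∀ x y, G'.Adj x y → (G'.map φ₁ ⊔ H.map φ₂).Adj (φ₁ x) (φ₁ y) := by
          intro x y h
          exact Or.inl ((SimpleGraph.map_adj φ₁ G' _ _).2 ⟨x, y, h, rfl, rfl⟩)
        have a2 : ∀ x y, H.Adj x y → (G'.map φ₁ ⊔ H.map φ₂).Adj (φ₂ x) (φ₂ y) := by
          intro x y h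
          exact Or.inr ((SimpleGraph.map_adj φ₂ H _ _).2 ⟨x, y, h, rfl, rfl⟩)
        refine ⟨N'', G'.map φ₁ ⊔ H.map φ₂, w'', ψ.trans φ₁,
          Clos.glue φ₁ φ₂ hG' (Clos.piece hF) hsum _ le_rfl (fun x y h h' => absurd h h'),
          hw'', hTw'', ?_, ?_, ?_⟩
        · intro x y h
          refine ⟨a1 _ _ (h1 x y h).1, ?_⟩
          rw [Function.Embedding.trans_apply, Function.Embedding.trans_apply,
            g1 _ _ (h1 x y h).1, (h1 x y h).2]
        · intro x y h
          obtain ⟨h4, h5⟩ := h2 x y h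
          exact ⟨reach_map φ₁ a1 h4, h5.trans (g3 _ _ h4)⟩
        · intro s' t' hmem hadj
          rw [Finset.mem_insert] at hmem
          rcases hmem with hmem | hmem
          · rw [Prod.mk.injEq] at hmem
            obtain ⟨rfl, rfl⟩ := hmem
            refine ⟨φ₂, lam, hl, e1.symm, e2.symm, fun x y h => ⟨a2 x y h, g2 x y h⟩,
              fun x y h => ⟨reach_map φ₂ a2 h, ?_⟩⟩
            rw [← gd_smul hl hv h]
            exact g4 x y h
          · obtain ⟨φ, lam', hl', hp, hq, h4, h5⟩ := h3 s' t' hmem hadj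
            refine ⟨φ.trans φ₁, lam', hl', ?_, ?_, fun x y h => ⟨a1 _ _ (h4 x y h).1, ?_⟩,
              fun x y h => ⟨reach_map φ₁ a1 (h5 x y h).1, ?_⟩⟩
            · rw [Function.Embedding.trans_apply, hp, Function.Embedding.trans_apply]
            · rw [Function.Embedding.trans_apply, hq, Function.Embedding.trans_apply]
            · rw [Function.Embedding.trans_apply, Function.Embedding.trans_apply,
                g1 _ _ (h4 x y h).1, (h4 x y h).2]
            · exact (h5 x y h).2.trans (g3 _ _ (h5 x y h).1)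
      · refine ⟨N', G', w', ψ, hG', hw', hTw', h1, h2, fun s' t' hmem hadj => ?_⟩
        rw [Finset.mem_insert] at hmem
        rcases hmem with hmem | hmem
        · rw [Prod.mk.injEq] at hmem
          obtain ⟨rfl, rfl⟩ := hmem
          exact absurd hadj hst
        · exact h3 s' t' hmem hadj
  obtain ⟨N', G', w', ψ, a, b, c, d, e, f⟩ := key Finset.univ
  exact ⟨N', G', w', ψ, a, b, c, d, e, fun s t h => f s t (Finset.mem_univ _) h⟩

end TwoSum
end
end

section
set_option linter.all false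

/-! # [CV] Composition of (V) -/

noncomputable section

namespace TwoSum

open KSum52

private lemma abs_convex {T u v c : ℝ} (h0 : 0 ≤ T) (h1 : T ≤ 1) (hu : |u| ≤ c) (hv : |v| ≤ c) :
    |(1 - T) * u + T * v| ≤ c := by
  rw [abs_le] at *
  constructor <;> nlinarith

private lemma le_mul_min {a k u v : ℝ} (hk : 0 ≤ k) (h1 : a ≤ k * u) (h2 : a ≤ k * v) :
    a ≤ k * min u v := by
  rcases min_choice u v with h | h <;> rw [h] <;> assumption

private lemma min_lip {u v u' v' c : ℝ} (h1 : |u - u'| ≤ c) (h2 : |v - v'| ≤ c) :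
    |min u v - min u' v'| ≤ c := by
  rw [abs_le] at *
  constructor
  · have : min u' v' - c ≤ min u v := by
      apply le_min
      · have := min_le_left u' v'; linarith
      · have := min_le_right u' v'; linarith
    linarith
  · have : min u v - c ≤ min u' v' := by
      apply le_min
      · have := min_le_left u v; linarith
      · have := min_le_right u v; linarith
    linarith

theorem specCV : SpecCV := by
  intro V κ κ₂ d ρ H₁ H₂ S₁ S₂ s t hκ₂ hκκ hd hρ hS₁ hS₂ e₁ e₂ hst hcross hV1 hV2 hW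
    a b hab T n α β hG x y hxy
  have hκ : 0 < κ := lt_of_lt_of_le hκ₂ hκκ
  have hT0 := hG.T0
  have hT1 := hG.T1
  have hn0 := hG.n0
  rcases hab with hab | hab <;> rcases hxy with hxy | hxy
  · exact hV1 a b hab T n α β hG x y hxy
  · -- (4)
    obtain ⟨ha1, hb1⟩ := hS₁ _ _ hab
    obtain ⟨hx2, hy2⟩ := hS₂ _ _ hxy
    have k1 := hV1 a b hab T n α β hG s t e₁
    have k2 := hV1 a b hab T n α β hG t s e₁.symm
    rw [hρ.comm t s] at k2
    set Qs := (1 - T) * ρ a s + T * ρ b s + n with hQs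
    set Qt := (1 - T) * ρ a t + T * ρ b t + n with hQt
    have hAdm : Adm κ (ρ s t) Qs Qt (κ₂ / κ * min (α + d a s) (β + d b s))
        (κ₂ / κ * min (α + d a t) (β + d b t)) := by
      refine ⟨?_, ?_, ?_, ?_⟩
      · have e : Qs - Qt = (1 - T) * (ρ a s - ρ a t) + T * (ρ b s - ρ b t) := by
          rw [hQs, hQt]; ring
        rw [e]
        exact abs_convex hT0 hT1 (IsL1.abs_sub_le' hρ a s t) (IsL1.abs_sub_le' hρ b s t)
      · have h1 := hρ.tri s a t
        have h2 := hρ.tri s b t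
        rw [hρ.comm s a] at h1
        rw [hρ.comm s b] at h2
        have h3 := mul_le_mul_of_nonneg_left h1 (by linarith : 0 ≤ 1 - T)
        have h4 := mul_le_mul_of_nonneg_left h2 hT0
        rw [hQs, hQt]
        linarith
      · have e : 4 * κ * (κ₂ / κ * min (α + d a s) (β + d b s)) =
            4 * κ₂ * min (α + d a s) (β + d b s) := by
          field_simp
        rw [e]; exact k1
      · have e : 4 * κ * (κ₂ / κ * min (α + d a t) (β + d b t)) =
            4 * κ₂ * min (α + d a t) (β + d b t) := by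
          field_simp
        rw [e]; linarith
    have h2 := hW _ _ _ _ hAdm x y hxy
    have hQ : ∀ z ∈ S₂, ext (ρ s t) (ρ s z) (ρ t z) Qs Qt = (1 - T) * ρ a z + T * ρ b z + n := by
      intro z hz
      rw [hcross a ha1 z hz, hcross b hb1 z hz, hQs, hQt]
      unfold ext
      generalize (ρ s t + ρ s z - ρ t z) / (2 * ρ s t) = U
      ring
    rw [hQ x hx2, hQ y hy2] at h2
    refine le_trans ?_ h2
    have hmin0 : ∀ v, min (α + d a x) (β + d b x) ≤ min (α + d a v) (β + d b v) + d v x := by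
      intro v
      rw [← min_add_add_right]
      have k3 := hd.tri a v x
      have k4 := hd.tri b v x
      exact le_min ((min_le_left _ _).trans (by linarith)) ((min_le_right _ _).trans (by linarith))
    have hkey : ∀ v, 4 * κ₂ * min (α + d a x) (β + d b x) ≤
        4 * κ * (κ₂ / κ * min (α + d a v) (β + d b v) + d v x) := by
      intro v
      have e : 4 * κ * (κ₂ / κ * min (α + d a v) (β + d b v) + d v x) =
          4 * κ₂ * min (α + d a v) (β + d b v) + 4 * κ * d v x := by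
        field_simp
      rw [e]
      have h3 := mul_le_mul_of_nonneg_left (hmin0 v) (by linarith : 0 ≤ 4 * κ₂)
      have h4 := mul_le_mul_of_nonneg_right hκκ (hd.nonneg v x)
      linarith
    exact le_mul_min (by linarith) (hkey s) (hkey t)
  · -- (3)
    obtain ⟨ha2, hb2⟩ := hS₂ _ _ hab
    obtain ⟨hx1, hy1⟩ := hS₁ _ _ hxy
    obtain ⟨hs1, ht1⟩ := hS₁ _ _ e₁
    have habs : ∀ v, |ρ s v - ρ t v| ≤ ρ s t := by
      intro v
      rw [hρ.comm s v, hρ.comm t v]
      exact IsL1.abs_sub_le' hρ v s t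
    have hns : ∀ v, 0 ≤ (ρ s v + ρ t v - ρ s t) / 2 := by
      intro v
      have := hρ.tri s v t
      rw [hρ.comm v t] at this
      linarith
    obtain ⟨Ta, hTa⟩ : ∃ U, U = (ρ s t + ρ s a - ρ t a) / (2 * ρ s t) := ⟨_, rfl⟩
    obtain ⟨Tb, hTb⟩ : ∃ U, U = (ρ s t + ρ s b - ρ t b) / (2 * ρ s t) := ⟨_, rfl⟩
    obtain ⟨na, hna⟩ : ∃ U, U = (ρ s a + ρ t a - ρ s t) / 2 := ⟨_, rfl⟩
    obtain ⟨nb, hnb⟩ : ∃ U, U = (ρ s b + ρ t b - ρ s t) / 2 := ⟨_, rfl⟩
    obtain ⟨hTa0, hTa1⟩ := extT hst (habs a)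
    obtain ⟨hTb0, hTb1⟩ := extT hst (habs b)
    rw [← hTa] at hTa0 hTa1
    rw [← hTb] at hTb0 hTb1
    have hna0 : 0 ≤ na := by rw [hna]; exact hns a
    have hnb0 : 0 ≤ nb := by rw [hnb]; exact hns b
    have hexta : ∀ r r', ext (ρ s t) (ρ s a) (ρ t a) r r' = (1 - Ta) * r + Ta * r' + na := by
      intro r r'; rw [hTa, hna]; rfl
    have hextb : ∀ r r', ext (ρ s t) (ρ s b) (ρ t b) r r' = (1 - Tb) * r + Tb * r' + nb := by
      intro r r'; rw [hTb, hnb]; rfl
    have hQ : ∀ u ∈ S₁, (1 - T) * ρ a u + T * ρ b u + n =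
        (1 - ((1 - T) * Ta + T * Tb)) * ρ s u + ((1 - T) * Ta + T * Tb) * ρ t u +
          (n + (1 - T) * na + T * nb) := by
      intro u hu
      rw [hρ.comm a u, hρ.comm b u, hcross u hu a ha2, hcross u hu b hb2, hexta, hextb,
        hρ.comm u s, hρ.comm u t]
      ring
    have hG' : VGood κ d ρ s t ((1 - T) * Ta + T * Tb) (n + (1 - T) * na + T * nb)
        (min (α + d a s) (β + d b s)) (min (α + d a t) (β + d b t)) := by
      refine ⟨?_, ?_, ?_, ?_, ?_⟩
      · have := mul_nonneg (by linarith : 0 ≤ 1 - T) hTa0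
        have := mul_nonneg hT0 hTb0
        linarith
      · have := mul_le_mul_of_nonneg_left hTa1 (by linarith : 0 ≤ 1 - T)
        have := mul_le_mul_of_nonneg_left hTb1 hT0
        linarith
      · have := mul_nonneg (by linarith : 0 ≤ 1 - T) hna0
        have := mul_nonneg hT0 hnb0
        linarith
      · apply min_lip
        · rw [add_sub_add_left_eq_sub]; exact hd.abs_sub_le a s t
        · rw [add_sub_add_left_eq_sub]; exact hd.abs_sub_le b s t
      · intro r r' A B hA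
        have k1 := hW r r' A B hA a b hab
        have k2 := hW r r' A B hA b a hab.symm
        rw [hρ.comm b a] at k2
        have hAdm : Adm κ (ρ a b) (ext (ρ s t) (ρ s a) (ρ t a) r r')
            (ext (ρ s t) (ρ s b) (ρ t b) r r') (min (A + d s a) (B + d t a))
            (min (A + d s b) (B + d t b)) := by
          refine ⟨?_, ?_, k1, by linarith⟩
          · exact ext_lip hst hA.lip (IsL1.abs_sub_le' hρ s a b) (IsL1.abs_sub_le' hρ t a b)
          · refine ext_tri hst hA.lip hA.tri (habs a) (habs b) ?_ ?_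
            · have := hρ.tri a s b
              rw [hρ.comm a s] at this
              exact this
            · have := hρ.tri a t b
              rw [hρ.comm a t] at this
              exact this
        have k3 := hG.good _ _ _ _ hAdm
        rw [hexta, hextb] at k3
        have k4 : min (A + min (α + d a s) (β + d b s)) (B + min (α + d a t) (β + d b t)) ≤
            min (min (A + d s a) (B + d t a) + α) (min (A + d s b) (B + d t b) + β) := by
          have c1 := hd.comm a s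
          have c2 := hd.comm a t
          have c3 := hd.comm b s
          have c4 := hd.comm b t
          have m1 := min_le_left (α + d a s) (β + d b s)
          have m2 := min_le_right (α + d a s) (β + d b s)
          have m3 := min_le_left (α + d a t) (β + d b t)
          have m4 := min_le_right (α + d a t) (β + d b t)
          rw [← min_add_add_right, ← min_add_add_right]
          refine le_min (le_min ?_ ?_) (le_min ?_ ?_)
          · exact (min_le_left _ _).trans (by linarith)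
          · exact (min_le_right _ _).trans (by linarith)
          · exact (min_le_left _ _).trans (by linarith)
          · exact (min_le_right _ _).trans (by linarith)
        have k5 := mul_le_mul_of_nonneg_left k4 hκ.le
        refine k5.trans (k3.trans (le_of_eq ?_))
        ring
    have k := hV1 s t e₁ _ _ _ _ hG' x y hxy
    rw [← hQ x hx1, ← hQ y hy1] at k
    refine le_trans ?_ k
    have hmin : min (α + d a x) (β + d b x) ≤
        min (min (α + d a s) (β + d b s) + d s x) (min (α + d a t) (β + d b t) + d t x) := by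
      have k1 := hd.tri a s x
      have k2 := hd.tri b s x
      have k3 := hd.tri a t x
      have k4 := hd.tri b t x
      rw [← min_add_add_right, ← min_add_add_right]
      refine le_min (le_min ?_ ?_) (le_min ?_ ?_)
      · exact (min_le_left _ _).trans (by linarith)
      · exact (min_le_right _ _).trans (by linarith)
      · exact (min_le_left _ _).trans (by linarith)
      · exact (min_le_right _ _).trans (by linarith)
    exact mul_le_mul_of_nonneg_left hmin (by linarith)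
  · exact hV2 a b hab T n α β hG x y hxy

end TwoSum
end
end

section
set_option linter.all false

/-! # [CW] Composition of (W) -/

noncomputable section

namespace TwoSum

open KSum52

theorem specCW : SpecCW := by
  intro V κ d ρ H₁ H₂ S₁ S₂ s t p q hκ hd hρ hS₁ hS₂ e₁ e₂ epq hst hpq hcross hW1 hW2
    r r' A B hA x y hxy
  rcases hxy with h | h
  · exact hW1 r r' A B hA x y h
  obtain ⟨hx2, hy2⟩ := hS₂ _ _ h
  obtain ⟨hp1, hq1⟩ := hS₁ _ _ epq
  have hs := hW1 r r' A B hA s t e₁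
  have ht := hW1 r r' A B hA t s e₁.symm
  rw [hρ.comm t s] at ht
  have hAdm : Adm κ (ρ s t) (ext (ρ p q) (ρ p s) (ρ q s) r r') (ext (ρ p q) (ρ p t) (ρ q t) r r')
      (min (A + d p s) (B + d q s)) (min (A + d p t) (B + d q t)) := by
    refine ⟨?_, ?_, hs, ?_⟩
    · exact ext_lip hpq hA.lip (IsL1.abs_sub_le' hρ p s t) (IsL1.abs_sub_le' hρ q s t)
    · refine ext_tri hpq hA.lip hA.tri ?_ ?_ ?_ ?_
      · rw [hρ.comm p s, hρ.comm q s]
        exact IsL1.abs_sub_le' hρ s p q
      · rw [hρ.comm p t, hρ.comm q t]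
        exact IsL1.abs_sub_le' hρ t p q
      · have := hρ.tri s p t
        rw [hρ.comm s p] at this
        exact this
      · have := hρ.tri s q t
        rw [hρ.comm s q] at this
        exact this
    · linarith
  have hR : ∀ z ∈ S₂, ext (ρ s t) (ρ s z) (ρ t z) (ext (ρ p q) (ρ p s) (ρ q s) r r')
      (ext (ρ p q) (ρ p t) (ρ q t) r r') = ext (ρ p q) (ρ p z) (ρ q z) r r' := by
    intro z hz
    rw [ext_comp hpq, ← hcross p hp1 z hz, ← hcross q hq1 z hz]
  have h2 := hW2 _ _ _ _ hAdm x y h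
  rw [hR x hx2, hR y hy2] at h2
  refine le_trans ?_ h2
  have hmin : min (A + d p x) (B + d q x) ≤
      min (min (A + d p s) (B + d q s) + d s x) (min (A + d p t) (B + d q t) + d t x) := by
    have k1 := hd.tri p s x
    have k2 := hd.tri q s x
    have k3 := hd.tri p t x
    have k4 := hd.tri q t x
    rw [← min_add_add_right, ← min_add_add_right]
    refine le_min (le_min ?_ ?_) (le_min ?_ ?_)
    · exact (min_le_left _ _).trans (by linarith)
    · exact (min_le_right _ _).trans (by linarith)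
    · exact (min_le_left _ _).trans (by linarith)
    · exact (min_le_right _ _).trans (by linarith)
  exact mul_le_mul_of_nonneg_left hmin (by linarith)

end TwoSum
end
end

section
set_option linter.all false

/-! # [DIST] A path metric of a 2-sum -/

noncomputable section

namespace TwoSum

open KSum52

private lemma distOne {V : Type} {d : V → V → ℝ} {w : Sym2 V → ℝ} {H₁ H₂ : SimpleGraph V}
    {S₁ S₂ : Set V} {s t : V} (hd : Met d) (hS₁ : Supp H₁ S₁) (hS₂ : Supp H₂ S₂)
    (hI : S₁ ∩ S₂ = {s, t}) (e₁ : H₁.Adj s t)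
    (hw : ∀ x y, (H₁ ⊔ H₂).Adj x y → w s(x, y) = d x y) {u x : V}
    (W : (H₁ ⊔ H₂).Walk u x) (hx : x ∈ S₁) :
    (u ∈ S₁ → ∃ W' : H₁.Walk u x, wl w W' ≤ wl w W) ∧
    (u ∈ S₂ → ∃ v, (v = s ∨ v = t) ∧ ∃ W' : H₁.Walk v x, d u v + wl w W' ≤ wl w W) := by
  have hmem : ∀ z, z ∈ S₁ → z ∈ S₂ → z = s ∨ z = t := by
    intro z h1 h2
    have : z ∈ S₁ ∩ S₂ := ⟨h1, h2⟩
    rw [hI] at this
    simpa using this
  induction W with
  | nil =>
    refine ⟨fun _ => ⟨SimpleGraph.Walk.nil, by simp⟩, fun h2 => ⟨_, hmem _ hx h2,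
      SimpleGraph.Walk.nil, ?_⟩⟩
    rw [hd.self]; simp
  | @cons u z x hadj p ih =>
    have ih := ih hx
    have hl : wl w (SimpleGraph.Walk.cons hadj p) = d u z + wl w p := by
      rw [wl_cons, hw _ _ hadj]
    rw [hl]
    rcases hadj with h | h
    · obtain ⟨hu1, hz1⟩ := hS₁ _ _ h
      obtain ⟨W', hW'⟩ := ih.1 hz1
      have hl' : wl w (SimpleGraph.Walk.cons h W') = d u z + wl w W' := by
        rw [wl_cons, hw _ _ (Or.inl h)]
      refine ⟨fun _ => ⟨SimpleGraph.Walk.cons h W', by rw [hl']; linarith⟩, fun h2 =>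
        ⟨u, hmem u hu1 h2, SimpleGraph.Walk.cons h W', by rw [hl', hd.self]; linarith⟩⟩
    · obtain ⟨hu2, hz2⟩ := hS₂ _ _ h
      obtain ⟨v, hv, W', hW'⟩ := ih.2 hz2
      have htri := hd.tri u z v
      refine ⟨fun hu1 => ?_, fun _ => ⟨v, hv, W', by linarith⟩⟩
      by_cases huv : v = u
      · subst huv
        refine ⟨W', ?_⟩
        have h1 := hd.nonneg v z
        have h2 := hd.nonneg z v
        linarith
      · have hadj' : H₁.Adj u v := by
          rcases hmem u hu1 hu2 with rfl | rfl <;> rcases hv with rfl | rfl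
          · exact absurd rfl huv
          · exact e₁
          · exact e₁.symm
          · exact absurd rfl huv
        refine ⟨SimpleGraph.Walk.cons hadj' W', ?_⟩
        rw [wl_cons, hw _ _ (Or.inl hadj')]
        linarith

theorem specDIST : SpecDIST := by
  intro V d w H₁ H₂ S₁ S₂ s t hd hS₁ hS₂ hne hI e₁ e₂ hg
  have hI' : S₂ ∩ S₁ = {s, t} := by rw [Set.inter_comm, hI]
  have hw' : ∀ x y, (H₂ ⊔ H₁).Adj x y → w s(x, y) = d x y := by
    intro x y h
    exact hg.edge x y (by rw [sup_comm]; exact h)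
  have hwalk' : ∀ x ∈ S₁ ∪ S₂, ∀ y ∈ S₁ ∪ S₂, ∃ W : (H₂ ⊔ H₁).Walk x y, wl w W ≤ d x y := by
    rw [sup_comm]
    exact hg.walk
  refine ⟨⟨fun x y h => hg.edge x y (Or.inl h), ?_⟩, ⟨fun x y h => hg.edge x y (Or.inr h), ?_⟩, ?_⟩
  · intro x hx y hy
    obtain ⟨W, hW⟩ := hg.walk x (Or.inl hx) y (Or.inl hy)
    obtain ⟨W', hW'⟩ := (distOne hd hS₁ hS₂ hI e₁ hg.edge W hy).1 hx
    exact ⟨W', hW'.trans hW⟩
  · intro x hx y hy
    obtain ⟨W, hW⟩ := hwalk' x (Or.inr hx) y (Or.inr hy)
    obtain ⟨W', hW'⟩ := (distOne hd hS₂ hS₁ hI' e₂ hw' W hy).1 hx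
    exact ⟨W', hW'.trans hW⟩
  · intro u hu x hx
    obtain ⟨W, hW⟩ := hwalk' u (Or.inl hu) x (Or.inr hx)
    obtain ⟨v, hv, W', hW'⟩ := (distOne hd hS₂ hS₁ hI' e₂ hw' W hx).2 hu
    have h1 : d v x ≤ wl w W' := hd.le_wl (fun a b h => hw' a b (Or.inl h)) W'
    rcases hv with rfl | rfl
    · exact (min_le_left _ _).trans (by linarith)
    · exact (min_le_right _ _).trans (by linarith)

end TwoSum
end
end

section
set_option linter.all false

/-! # Module FOLD -/

noncomputable section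

namespace TwoSum

open KSum52

namespace FOLDM

/-- distance to the nearest multiple of `Q` -/
def tri (Q u : ℝ) : ℝ := Q * |u / Q - round (u / Q)|

lemma tri_nonneg {Q : ℝ} (hQ : 0 < Q) (u : ℝ) : 0 ≤ tri Q u := mul_nonneg hQ.le (abs_nonneg _)

lemma tri_le {Q : ℝ} (hQ : 0 < Q) (u : ℝ) : tri Q u ≤ Q / 2 := by
  unfold tri
  have := abs_sub_round (u / Q)
  nlinarith

lemma tri_eq {Q : ℝ} (hQ : 0 < Q) (u : ℝ) : ∃ n : ℤ, tri Q u = |u - Q * n| := by
  refine ⟨round (u / Q), ?_⟩
  unfold tri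
  rw [← abs_of_pos hQ, ← abs_mul, abs_of_pos hQ]
  congr 1
  field_simp

lemma tri_le_abs {Q : ℝ} (hQ : 0 < Q) (u : ℝ) (n : ℤ) : tri Q u ≤ |u - Q * n| := by
  have h1 := round_le (u / Q) n
  have h2 : |u - Q * n| = Q * |u / Q - n| := by
    rw [← abs_of_pos hQ, ← abs_mul, abs_of_pos hQ]
    congr 1
    field_simp
  rw [h2]
  exact mul_le_mul_of_nonneg_left h1 hQ.le

lemma tri_lip {Q : ℝ} (hQ : 0 < Q) (u v : ℝ) : |tri Q u - tri Q v| ≤ |u - v| := by
  have key : ∀ a b : ℝ, tri Q a - tri Q b ≤ |a - b| := by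
    intro a b
    obtain ⟨n, hn⟩ := tri_eq hQ b
    have h1 := tri_le_abs hQ a n
    have h2 : |a - Q * n| ≤ |a - b| + |b - Q * n| := by
      calc |a - Q * n| = |(a - b) + (b - Q * n)| := by ring_nf
        _ ≤ _ := abs_add_le _ _
    linarith
  rw [abs_le]
  have h1 := key u v
  have h2 := key v u
  rw [abs_sub_comm v u] at h2
  constructor <;> linarith

/-- points of different cells -/
lemma tri_add {Q : ℝ} (hQ : 0 < Q) (u v : ℝ) (h : ⌊u / Q⌋ ≠ ⌊v / Q⌋) :
    tri Q u + tri Q v ≤ |u - v| := by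
  have key : ∀ a b : ℝ, ⌊a / Q⌋ < ⌊b / Q⌋ → tri Q a + tri Q b ≤ |a - b| := by
    intro a b hlt
    have h1 : a / Q < ⌊b / Q⌋ := Int.floor_lt.1 hlt
    have h2 : (⌊b / Q⌋ : ℝ) ≤ b / Q := Int.floor_le _
    rw [div_lt_iff₀ hQ] at h1
    rw [le_div_iff₀ hQ] at h2
    have h3 := tri_le_abs hQ a ⌊b / Q⌋
    have h4 := tri_le_abs hQ b ⌊b / Q⌋
    rw [abs_of_nonpos (by linarith)] at h3
    rw [abs_of_nonneg (by linarith)] at h4
    rw [abs_of_nonpos (by linarith)]
    linarith
  rcases lt_or_gt_of_ne h with h | h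
  · exact key u v h
  · rw [add_comm, abs_sub_comm]
    exact key v u h

/-- two shifts -/
lemma tri_shift {Q : ℝ} (hQ : 0 < Q) (u : ℝ) : Q / 4 ≤ tri Q u + tri Q (u + Q / 4) := by
  obtain ⟨n, hn⟩ := tri_eq hQ u
  obtain ⟨m, hm⟩ := tri_eq hQ (u + Q / 4)
  rw [hn, hm]
  have h1 : |(u + Q / 4 - Q * m) - (u - Q * n)| ≤ |u + Q / 4 - Q * m| + |u - Q * n| :=
    abs_sub _ _
  rw [add_comm |u - Q * n|]
  refine le_trans ?_ h1
  have e : (u + Q / 4 - Q * m) - (u - Q * n) = Q * (1 / 4 + ((n - m : ℤ) : ℝ)) := by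
    push_cast; ring
  rw [e, abs_mul, abs_of_pos hQ]
  have h2 : (1 / 4 : ℝ) ≤ |1 / 4 + ((n - m : ℤ) : ℝ)| := by
    rcases le_or_gt 0 (n - m) with h | h
    · have h' : (0 : ℝ) ≤ ((n - m : ℤ) : ℝ) := by exact_mod_cast h
      rw [abs_of_nonneg (by linarith)]
      linarith
    · have h' : ((n - m : ℤ) : ℝ) ≤ -1 := by exact_mod_cast (by omega : n - m ≤ -1)
      rw [abs_of_nonpos (by linarith)]
      linarith
  nlinarith

/-- the fold is affine on half cells -/
lemma tri_affine {Q : ℝ} (hQ : 0 < Q) (u v : ℝ) (h : ⌊u / (Q / 2)⌋ = ⌊v / (Q / 2)⌋) :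
    ⌊u / Q⌋ = ⌊v / Q⌋ ∧ |tri Q u - tri Q v| = |u - v| := by
  obtain ⟨m, hm⟩ : ∃ m, m = ⌊u / (Q / 2)⌋ := ⟨_, rfl⟩
  have hQ2 : 0 < Q / 2 := by linarith
  have key : ∀ a : ℝ, m = ⌊a / (Q / 2)⌋ → (m : ℝ) * (Q / 2) ≤ a ∧ a < (m + 1) * (Q / 2) := by
    intro a ha
    have h1 : (⌊a / (Q / 2)⌋ : ℝ) ≤ a / (Q / 2) := Int.floor_le _
    have h2 := Int.lt_floor_add_one (a / (Q / 2))
    rw [← ha] at h1 h2
    rw [le_div_iff₀ hQ2] at h1
    rw [div_lt_iff₀ hQ2] at h2
    exact ⟨h1, h2⟩
  have hu := key u hm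
  have hv := key v (hm.trans h)
  rcases Int.even_or_odd' m with ⟨j, hj | hj⟩
  · -- rising half
    have hj' : (m : ℝ) = 2 * j := by exact_mod_cast hj
    have val : ∀ a : ℝ, (m : ℝ) * (Q / 2) ≤ a ∧ a < (m + 1) * (Q / 2) →
        ⌊a / Q⌋ = j ∧ tri Q a = a - Q * j := by
      rintro a ⟨h1, h2⟩
      rw [hj'] at h1 h2
      have e : ⌊a / Q⌋ = j := by
        rw [Int.floor_eq_iff]
        constructor
        · rw [le_div_iff₀ hQ]; nlinarith
        · rw [div_lt_iff₀ hQ]; nlinarith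
      refine ⟨e, ?_⟩
      apply le_antisymm
      · have := tri_le_abs hQ a j
        rwa [abs_of_nonneg (by nlinarith)] at this
      · obtain ⟨n, hn⟩ := tri_eq hQ a
        rw [hn]
        rcases le_or_gt n j with hle | hgt
        · have h3 : (n : ℝ) ≤ j := by exact_mod_cast hle
          have h4 := mul_le_mul_of_nonneg_left h3 hQ.le
          exact le_trans (by linarith) (le_abs_self _)
        · have h3 : (j : ℝ) + 1 ≤ n := by exact_mod_cast hgt
          have h4 := mul_le_mul_of_nonneg_left h3 hQ.le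
          refine le_trans ?_ (neg_le_abs _)
          nlinarith
    obtain ⟨f1, t1⟩ := val u hu
    obtain ⟨f2, t2⟩ := val v hv
    refine ⟨f1.trans f2.symm, ?_⟩
    rw [t1, t2]
    congr 1
    ring
  · have hj' : (m : ℝ) = 2 * j + 1 := by exact_mod_cast hj
    have val : ∀ a : ℝ, (m : ℝ) * (Q / 2) ≤ a ∧ a < (m + 1) * (Q / 2) →
        ⌊a / Q⌋ = j ∧ tri Q a = Q * (j + 1) - a := by
      rintro a ⟨h1, h2⟩
      rw [hj'] at h1 h2
      have e : ⌊a / Q⌋ = j := by
        rw [Int.floor_eq_iff]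
        constructor
        · rw [le_div_iff₀ hQ]; nlinarith
        · rw [div_lt_iff₀ hQ]; nlinarith
      refine ⟨e, ?_⟩
      apply le_antisymm
      · have := tri_le_abs hQ a (j + 1)
        push_cast at this
        rwa [abs_of_nonpos (by nlinarith), neg_sub] at this
      · obtain ⟨n, hn⟩ := tri_eq hQ a
        rw [hn]
        rcases le_or_gt n j with hle | hgt
        · have h3 : (n : ℝ) ≤ j := by exact_mod_cast hle
          have h4 := mul_le_mul_of_nonneg_left h3 hQ.le
          refine le_trans ?_ (le_abs_self _)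
          nlinarith
        · have h3 : (j : ℝ) + 1 ≤ n := by exact_mod_cast hgt
          have h4 := mul_le_mul_of_nonneg_left h3 hQ.le
          refine le_trans ?_ (neg_le_abs _)
          linarith
    obtain ⟨f1, t1⟩ := val u hu
    obtain ⟨f2, t2⟩ := val v hv
    refine ⟨f1.trans f2.symm, ?_⟩
    rw [t1, t2, abs_sub_comm u v]
    congr 1
    ring

/-- one of the two shifts puts close points in one half cell -/
lemma shift_half {P : ℝ} (hP : 0 < P) (a b : ℝ) (h : |a - b| < P / 4) :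
    ⌊a / (P / 2)⌋ = ⌊b / (P / 2)⌋ ∨ ⌊(a + P / 4) / (P / 2)⌋ = ⌊(b + P / 4) / (P / 2)⌋ := by
  have hP2 : 0 < P / 2 := by linarith
  have key : ∀ a b : ℝ, |a - b| < P / 4 → ⌊a / (P / 2)⌋ < ⌊b / (P / 2)⌋ →
      ⌊(a + P / 4) / (P / 2)⌋ = ⌊(b + P / 4) / (P / 2)⌋ := by
    intro a b hab hlt
    rw [abs_lt] at hab
    have h1 : a / (P / 2) < ⌊b / (P / 2)⌋ := Int.floor_lt.1 hlt
    have h2 : (⌊b / (P / 2)⌋ : ℝ) ≤ b / (P / 2) := Int.floor_le _
    rw [div_lt_iff₀ hP2] at h1
    rw [le_div_iff₀ hP2] at h2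
    have e1 : ⌊(a + P / 4) / (P / 2)⌋ = ⌊b / (P / 2)⌋ := by
      rw [Int.floor_eq_iff]
      constructor
      · rw [le_div_iff₀ hP2]; nlinarith
      · rw [div_lt_iff₀ hP2]; nlinarith
    have e2 : ⌊(b + P / 4) / (P / 2)⌋ = ⌊b / (P / 2)⌋ := by
      rw [Int.floor_eq_iff]
      constructor
      · rw [le_div_iff₀ hP2]; nlinarith
      · rw [div_lt_iff₀ hP2]; nlinarith
    rw [e1, e2]
  rcases lt_trichotomy ⌊a / (P / 2)⌋ ⌊b / (P / 2)⌋ with h1 | h1 | h1
  · exact Or.inr (key a b h h1)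
  · exact Or.inl h1
  · exact Or.inr (key b a (by rw [abs_sub_comm]; exact h) h1).symm

variable {V : Type} [Fintype V] [DecidableEq V]

/-- the sign -/
def sg (b : Bool) : ℝ := if b then 1 else -1

lemma abs_sg (b : Bool) (u : ℝ) : |sg b * u| = |u| := by
  cases b <;> simp [sg]

lemma sg_not (b : Bool) : sg (!b) = - sg b := by
  cases b <;> simp [sg]

/-- one scale and one shift -/
lemma one_scale (ι : Type) (k : V → ℝ) (c : V → ι) (Q s : ℝ) (hQ : 0 < Q) :
    ∃ f : (V → Bool) → V → ℝ, (∀ σ x, |f σ x| ≤ Q / 2) ∧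
      (∀ σ x y, c x = c y → |f σ x - f σ y| ≤ |k x - k y|) ∧
      (∀ x y, (c x ≠ c y ∨ ⌊(k x + s) / Q⌋ ≠ ⌊(k y + s) / Q⌋) →
        (Fintype.card (V → Bool) : ℝ) * tri Q (k x + s) ≤ ∑ σ, |f σ x - f σ y|) ∧
      (∀ x y, c x = c y → ⌊(k x + s) / Q⌋ = ⌊(k y + s) / Q⌋ →
        ∑ σ, |f σ x - f σ y| =
          (Fintype.card (V → Bool) : ℝ) * |tri Q (k x + s) - tri Q (k y + s)|) := by
  classical
  let L : V → ι × ℤ := fun x => (c x, ⌊(k x + s) / Q⌋)
  let rep : V → V := fun x => (show ∃ y, L y = L x from ⟨x, rfl⟩).choose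
  have hrep1 : ∀ x, L (rep x) = L x := fun x => (show ∃ y, L y = L x from ⟨x, rfl⟩).choose_spec
  have hrep2 : ∀ x y, L x = L y → rep x = rep y := by
    have h : ∀ (l l' : ι × ℤ) (e : l = l') (h : ∃ y, L y = l) (h' : ∃ y, L y = l'),
        h.choose = h'.choose := by
      intro l l' e h h'
      subst e
      rfl
    intro x y hxy
    exact h _ _ hxy _ _
  have hrep3 : ∀ x y, rep x = rep y → L x = L y := by
    intro x y h
    rw [← hrep1 x, ← hrep1 y, h]
  refine ⟨fun σ x => sg (σ (rep x)) * tri Q (k x + s), ?_, ?_, ?_, ?_⟩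
  · intro σ x
    rw [abs_sg, abs_of_nonneg (tri_nonneg hQ _)]
    exact tri_le hQ _
  · intro σ x y hc
    by_cases hL : ⌊(k x + s) / Q⌋ = ⌊(k y + s) / Q⌋
    · have h1 : rep x = rep y := hrep2 x y (Prod.ext hc hL)
      show |sg (σ (rep x)) * tri Q (k x + s) - sg (σ (rep y)) * tri Q (k y + s)| ≤ _
      rw [h1, ← mul_sub, abs_sg]
      refine (tri_lip hQ _ _).trans (le_of_eq ?_)
      congr 1
      ring
    · have h1 := tri_add hQ (k x + s) (k y + s) hL
      have h2 : |sg (σ (rep x)) * tri Q (k x + s) - sg (σ (rep y)) * tri Q (k y + s)| ≤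
          tri Q (k x + s) + tri Q (k y + s) := by
        refine (abs_sub _ _).trans (le_of_eq ?_)
        rw [abs_sg, abs_sg, abs_of_nonneg (tri_nonneg hQ _), abs_of_nonneg (tri_nonneg hQ _)]
      refine h2.trans (h1.trans (le_of_eq ?_))
      congr 1
      ring
  · intro x y hne
    have hne' : rep x ≠ rep y := by
      intro h
      have h1 := hrep3 x y h
      have h2 : c x = c y := congrArg Prod.fst h1
      have h3 : ⌊(k x + s) / Q⌋ = ⌊(k y + s) / Q⌋ := congrArg Prod.snd h1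
      rcases hne with h4 | h4
      · exact h4 h2
      · exact h4 h3
    -- flip the sign at `rep x`
    let fl : (V → Bool) → (V → Bool) := fun σ => Function.update σ (rep x) (!σ (rep x))
    have hfl : Function.Involutive fl := by
      intro σ
      funext z
      by_cases hz : z = rep x
      · subst hz
        simp [fl]
      · simp [fl, hz]
    let g : (V → Bool) → ℝ := fun σ =>
      |sg (σ (rep x)) * tri Q (k x + s) - sg (σ (rep y)) * tri Q (k y + s)|
    have h1 : ∑ σ, g (fl σ) = ∑ σ, g σ := Equiv.sum_comp hfl.toPerm g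
    have h2 : ∀ σ, 2 * tri Q (k x + s) ≤ g σ + g (fl σ) := by
      intro σ
      have e1 : (fl σ) (rep x) = !σ (rep x) := by simp [fl]
      have e2 : (fl σ) (rep y) = σ (rep y) := by simp [fl, hne'.symm]
      show 2 * tri Q (k x + s) ≤ |_| + |_|
      rw [e1, e2, sg_not]
      have h3 : |sg (σ (rep x)) * tri Q (k x + s) - sg (σ (rep y)) * tri Q (k y + s) -
          (-sg (σ (rep x)) * tri Q (k x + s) - sg (σ (rep y)) * tri Q (k y + s))| ≤
          |sg (σ (rep x)) * tri Q (k x + s) - sg (σ (rep y)) * tri Q (k y + s)| +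
          |-sg (σ (rep x)) * tri Q (k x + s) - sg (σ (rep y)) * tri Q (k y + s)| := abs_sub _ _
      have e3 : sg (σ (rep x)) * tri Q (k x + s) - sg (σ (rep y)) * tri Q (k y + s) -
          (-sg (σ (rep x)) * tri Q (k x + s) - sg (σ (rep y)) * tri Q (k y + s)) =
          sg (σ (rep x)) * (2 * tri Q (k x + s)) := by ring
      rw [e3, abs_sg, abs_of_nonneg (by have := tri_nonneg hQ (k x + s); linarith)] at h3
      exact h3
    have h3 : ∑ σ : V → Bool, 2 * tri Q (k x + s) ≤ ∑ σ, (g σ + g (fl σ)) :=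
      Finset.sum_le_sum fun σ _ => h2 σ
    rw [Finset.sum_add_distrib, h1, Finset.sum_const, Finset.card_univ, nsmul_eq_mul] at h3
    show (Fintype.card (V → Bool) : ℝ) * tri Q (k x + s) ≤ ∑ σ, g σ
    linarith
  · intro x y hc hL
    have h1 : rep x = rep y := hrep2 x y (Prod.ext hc hL)
    have h2 : ∀ σ : V → Bool, |sg (σ (rep x)) * tri Q (k x + s) -
        sg (σ (rep y)) * tri Q (k y + s)| = |tri Q (k x + s) - tri Q (k y + s)| := by
      intro σ
      rw [h1, ← mul_sub, abs_sg]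
    show ∑ σ : V → Bool, |sg (σ (rep x)) * tri Q (k x + s) -
        sg (σ (rep y)) * tri Q (k y + s)| = _
    rw [Finset.sum_congr rfl fun σ _ => h2 σ, Finset.sum_const, Finset.card_univ, nsmul_eq_mul]

end FOLDM

open FOLDM in
theorem specFOLD : SpecFOLD := by
  intro V _ _ ι k c P hP
  have hP4 : 0 < P / 4 := by linarith
  obtain ⟨f₀, a0, b0, c0, d0⟩ := one_scale ι k c P 0 hP
  obtain ⟨f₁, a1, b1, c1, d1⟩ := one_scale ι k c P (P / 4) hP
  obtain ⟨f₂, a2, b2, c2, d2⟩ := one_scale ι k c (P / 4) 0 hP4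
  obtain ⟨f₃, a3, b3, c3, d3⟩ := one_scale ι k c (P / 4) (P / 4 / 4) hP4
  obtain ⟨N, hN⟩ : ∃ N : ℝ, N = (Fintype.card (V → Bool) : ℝ) := ⟨_, rfl⟩
  have hN0 : 0 ≤ N := by rw [hN]; exact Nat.cast_nonneg _
  have hcard : (Fintype.card (Fin 4 × (V → Bool)) : ℝ) = 4 * N := by
    rw [hN, Fintype.card_prod, Fintype.card_fin]
    push_cast
    ring
  rw [← hN] at c0 c1 c2 c3 d0 d1 d2 d3
  let h : Fin 4 × (V → Bool) → V → ℝ := fun i => (![f₀, f₁, f₂, f₃] i.1) i.2
  have hsum : ∀ x y, ∑ i, |h i x - h i y| = ∑ σ, |f₀ σ x - f₀ σ y| + ∑ σ, |f₁ σ x - f₁ σ y| +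
      ∑ σ, |f₂ σ x - f₂ σ y| + ∑ σ, |f₃ σ x - f₃ σ y| := by
    intro x y
    rw [Fintype.sum_prod_type, Fin.sum_univ_four]
    rfl
  have n0 : ∀ x y, 0 ≤ ∑ σ, |f₀ σ x - f₀ σ y| := fun x y => Finset.sum_nonneg fun _ _ => abs_nonneg _
  have n1 : ∀ x y, 0 ≤ ∑ σ, |f₁ σ x - f₁ σ y| := fun x y => Finset.sum_nonneg fun _ _ => abs_nonneg _
  have n2 : ∀ x y, 0 ≤ ∑ σ, |f₂ σ x - f₂ σ y| := fun x y => Finset.sum_nonneg fun _ _ => abs_nonneg _
  have n3 : ∀ x y, 0 ≤ ∑ σ, |f₃ σ x - f₃ σ y| := fun x y => Finset.sum_nonneg fun _ _ => abs_nonneg _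
  refine ⟨h, ?_, ?_, ?_, ?_⟩
  · rintro ⟨j, σ⟩ x
    have e0 := a0 σ x
    have e1 := a1 σ x
    have e2 := a2 σ x
    have e3 := a3 σ x
    fin_cases j
    · show |f₀ σ x| ≤ P; linarith
    · show |f₁ σ x| ≤ P; linarith
    · show |f₂ σ x| ≤ P; linarith
    · show |f₃ σ x| ≤ P; linarith
  · rintro ⟨j, σ⟩ x y hc
    fin_cases j
    · exact b0 σ x y hc
    · exact b1 σ x y hc
    · exact b2 σ x y hc
    · exact b3 σ x y hc
  · intro x y hc
    rw [hcard, hsum]
    have e0 := c0 x y (Or.inl hc)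
    have e1 := c1 x y (Or.inl hc)
    have e2 := tri_shift hP (k x)
    rw [add_zero] at e0
    have e3 := mul_le_mul_of_nonneg_left e2 hN0
    have := n2 x y
    have := n3 x y
    have h5 : 0 ≤ N * P := by positivity
    nlinarith
  · intro x y hc
    rw [hcard, hsum]
    rcases le_or_gt (P / 4) |k x - k y| with hbig | hsmall
    · -- the cells of the small period differ
      have hcell : ∀ s : ℝ, ⌊(k x + s) / (P / 4)⌋ ≠ ⌊(k y + s) / (P / 4)⌋ := by
        intro s he
        have h1 : (⌊(k x + s) / (P / 4)⌋ : ℝ) ≤ (k x + s) / (P / 4) := Int.floor_le _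
        have h2 := Int.lt_floor_add_one ((k x + s) / (P / 4))
        have h3 : (⌊(k y + s) / (P / 4)⌋ : ℝ) ≤ (k y + s) / (P / 4) := Int.floor_le _
        have h4 := Int.lt_floor_add_one ((k y + s) / (P / 4))
        rw [he] at h1 h2
        rw [le_div_iff₀ hP4] at h1 h3
        rw [div_lt_iff₀ hP4] at h2 h4
        rcases abs_cases (k x - k y) with ⟨h5, h6⟩ | ⟨h5, h6⟩ <;> rw [h5] at hbig <;> nlinarith
      have e0 := c2 x y (Or.inr (hcell 0))
      have e1 := c3 x y (Or.inr (hcell _))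
      have e2 := tri_shift hP4 (k x)
      rw [add_zero] at e0
      have e3 := mul_le_mul_of_nonneg_left e2 hN0
      have := n0 x y
      have := n1 x y
      have h5 : 0 ≤ N * P := by positivity
      have h6 : N * min |k x - k y| P ≤ N * P := mul_le_mul_of_nonneg_left (min_le_right _ _) hN0
      nlinarith
    · have h6 : N * min |k x - k y| P ≤ N * |k x - k y| :=
        mul_le_mul_of_nonneg_left (min_le_left _ _) hN0
      have h7 : 0 ≤ N * |k x - k y| := by positivity
      have := n0 x y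
      have := n1 x y
      have := n2 x y
      have := n3 x y
      rcases shift_half hP (k x) (k y) hsmall with h8 | h8
      · obtain ⟨h9, h10⟩ := tri_affine hP (k x) (k y) h8
        have e0 := d0 x y hc (by rw [add_zero, add_zero]; exact h9)
        rw [add_zero, add_zero, h10] at e0
        linarith
      · obtain ⟨h9, h10⟩ := tri_affine hP (k x + P / 4) (k y + P / 4) h8
        have e0 := d1 x y hc h9
        rw [h10, add_sub_add_right_eq_sub] at e0
        linarith

end TwoSum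
end
end

section
set_option linter.all false

/-!
# The 2-sum theorem: the final statement from the main specifications
-/

noncomputable section

namespace TwoSum

open KSum52

lemma pw_rootExact (hLPW : SpecLPW) (hLRE : SpecLRE) (k : ℕ) :
    RootExact (PW k) (100000 ^ (k + 1)) := by
  rw [rootExact_iff]
  rintro n G ⟨lo, hi, h1, h2, h3⟩
  exact hLRE (Fin n) G _ (hLPW (Fin n) G (k + 1) lo hi h1 h2 h3)

lemma rootExact_union {F F' : Family} {D D' : ℝ} (h : RootExact F D) (h' : RootExact F' D') :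
    RootExact (FUnion F F') (max D D') := by
  rw [rootExact_iff] at *
  rintro n G (hG | hG)
  · exact (h n G hG).mono (le_max_left _ _)
  · exact (h' n G hG).mono (le_max_right _ _)

theorem specFINAL (hIF : SpecIF) (hNEC : SpecNEC) (hLPW : SpecLPW) (hLRE : SpecLRE) :
    SpecFINAL := by
  refine ⟨fun F => ⟨fun ⟨D, hD⟩ => ⟨D, hNEC F D hD⟩, fun ⟨D, hD⟩ => hIF F D hD⟩, ?_, ?_⟩
  · rintro F F' ⟨D, hD⟩ ⟨D', hD'⟩
    exact hIF _ _ (rootExact_union (hNEC F D hD) (hNEC F' D' hD'))
  · rintro F k ⟨D, hD⟩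
    exact hIF _ _ (rootExact_union (hNEC F D hD) (pw_rootExact hLPW hLRE k))

end TwoSum
end
end

section
set_option linter.all false

/-!
# Gluing two `ℓ₁` semimetrics along a pair
-/

noncomputable section

namespace TwoSum

open KSum52

namespace GLUEM

variable {V : Type}

/-- a weighted family of cuts, all of them `0` at `s` -/
lemma cuts [Fintype V] {ρ : V → V → ℝ} (h : IsL1 ρ) (s : V) :
    ∃ (n : ℕ) (a : Fin n → ℝ) (c : Fin n → V → ℝ), (∀ i, 0 ≤ a i) ∧
      (∀ i x, c i x = 0 ∨ c i x = 1) ∧ (∀ i, c i s = 0) ∧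
      ∀ x y, ρ x y = ∑ i, a i * |c i x - c i y| := by
  obtain ⟨L, hL, hρ⟩ := h.exists_cuts
  refine ⟨L.length, fun i => (L[i.1]).1,
    fun i x => if (L[i.1]).2 x = (L[i.1]).2 s then 0 else 1, ?_, ?_, ?_, ?_⟩
  · intro i
    exact hL _ (List.getElem_mem i.2)
  · intro i x
    by_cases e : (L[i.1]).2 x = (L[i.1]).2 s
    · left; simp only [if_pos e]
    · right; simp only [if_neg e]
  · intro i
    simp
  · intro x y
    rw [hρ x y]
    unfold cd
    rw [← Fin.sum_univ_fun_getElem L (fun c => if c.2 x = c.2 y then 0 else c.1)]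
    apply Finset.sum_congr rfl
    intro i _
    rcases hx : (L[i.1]).2 x <;> rcases hy : (L[i.1]).2 y <;> rcases hs : (L[i.1]).2 s <;>
      simp [hx, hy, hs]

/-- the product of two separating families -/
lemma cross {a b : ℝ} (ha : a = 0 ∨ a = 1) (hb : b = 0 ∨ b = 1) :
    |a - b| = a * (1 - b) + (1 - a) * b := by
  rcases ha with rfl | rfl <;> rcases hb with rfl | rfl <;> norm_num

lemma isL1_fin {n : ℕ} (a : Fin n → ℝ) (ha : ∀ i, 0 ≤ a i) (c : Fin n → V → ℝ) :
    IsL1 (fun x y => ∑ i, a i * |c i x - c i y|) :=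
  IsL1.sum Finset.univ (δ := fun i x y => a i * |c i x - c i y|)
    (fun i _ => (IsL1.abs (c i)).smul (ha i))

end GLUEM

open GLUEM

theorem specGLUE : SpecGLUE := by
  classical
  intro V _ S₁ S₂ s t ρ₁ ρ₂ h₁ h₂ hS hpos heq
  obtain ⟨n, a, c, ha, hc, hcs, hρ₁⟩ := cuts h₁ s
  obtain ⟨n', b, c', hb, hc', hcs', hρ₂⟩ := cuts h₂ s
  have hs1 : s ∈ S₁ := (by rw [hS]; simp : s ∈ S₁ ∩ S₂).1
  have hs2 : s ∈ S₂ := (by rw [hS]; simp : s ∈ S₁ ∩ S₂).2
  have ht1 : t ∈ S₁ := (by rw [hS]; simp : t ∈ S₁ ∩ S₂).1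
  have ht2 : t ∈ S₂ := (by rw [hS]; simp : t ∈ S₁ ∩ S₂).2
  have hst : ∀ x, x ∈ S₁ → x ∈ S₂ → x = s ∨ x = t := by
    intro x h1 h2
    have : x ∈ S₁ ∩ S₂ := ⟨h1, h2⟩
    rw [hS] at this
    simpa using this
  have hnn : ∀ i x, 0 ≤ c i x := fun i x => by rcases hc i x with h | h <;> rw [h] <;> norm_num
  have hle : ∀ i x, c i x ≤ 1 := fun i x => by rcases hc i x with h | h <;> rw [h] <;> norm_num
  have hnn' : ∀ i x, 0 ≤ c' i x := fun i x => by rcases hc' i x with h | h <;> rw [h] <;> norm_num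
  have hle' : ∀ i x, c' i x ≤ 1 := fun i x => by rcases hc' i x with h | h <;> rw [h] <;> norm_num
  set S := ρ₁ s t with hSdef
  have hSa : ∑ i, a i * c i t = S := by
    rw [hSdef, hρ₁]
    apply Finset.sum_congr rfl
    intro i _
    rw [hcs, zero_sub, abs_neg, abs_of_nonneg (hnn i t)]
  have hSb : ∑ j, b j * c' j t = S := by
    rw [← heq, hρ₂]
    apply Finset.sum_congr rfl
    intro j _
    rw [hcs', zero_sub, abs_neg, abs_of_nonneg (hnn' j t)]
  -- the new functions
  let g : Fin n → Fin n' → V → ℝ := fun i j x => if x ∈ S₁ then c i x else c' j x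
  let k : Fin n → V → ℝ := fun i x => if x ∈ S₁ then c i x else 0
  let k' : Fin n' → V → ℝ := fun j x => if x ∈ S₂ then c' j x else 0
  let ρ : V → V → ℝ := fun x y =>
    (∑ i, ∑ j, (a i * c i t * (b j * c' j t) / S) * |g i j x - g i j y|) +
      (∑ i, (a i * (1 - c i t)) * |k i x - k i y|) +
      ∑ j, (b j * (1 - c' j t)) * |k' j x - k' j y|
  -- values on the two sides (with the factors)
  have g1 : ∀ i j x, x ∈ S₁ → g i j x = c i x := fun i j x hx => if_pos hx
  have g2 : ∀ i j x, x ∈ S₂ → c i t * c' j t * g i j x = c i t * c' j t * c' j x := by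
    intro i j x hx
    by_cases h1 : x ∈ S₁
    · rw [g1 i j x h1]
      rcases hst x h1 hx with rfl | rfl
      · rw [hcs, hcs']
      · rcases hc i x with h | h <;> rcases hc' j x with h' | h' <;> rw [h, h'] <;> norm_num
    · simp only [g, if_neg h1]
  have k1 : ∀ i x, x ∈ S₁ → k i x = c i x := fun i x hx => if_pos hx
  have k2 : ∀ i x, x ∈ S₂ → (1 - c i t) * k i x = 0 := by
    intro i x hx
    by_cases h1 : x ∈ S₁
    · rw [k1 i x h1]
      rcases hst x h1 hx with rfl | rfl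
      · rw [hcs, mul_zero]
      · rcases hc i x with h | h <;> rw [h] <;> norm_num
    · simp only [k, if_neg h1, mul_zero]
  have k1' : ∀ j x, x ∈ S₂ → k' j x = c' j x := fun j x hx => if_pos hx
  have k2' : ∀ j x, x ∈ S₁ → (1 - c' j t) * k' j x = 0 := by
    intro j x hx
    by_cases h1 : x ∈ S₂
    · rw [k1' j x h1]
      rcases hst x hx h1 with rfl | rfl
      · rw [hcs', mul_zero]
      · rcases hc' j x with h | h <;> rw [h] <;> norm_num
    · simp only [k', if_neg h1, mul_zero]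
  -- factors inside absolute values
  have absf : ∀ (w u v : ℝ), 0 ≤ w → w * |u - v| = |w * u - w * v| := by
    intro w u v hw
    rw [← mul_sub, abs_mul, abs_of_nonneg hw]
  refine ⟨ρ, ?_, ?_, ?_, ?_⟩
  · have e1 : IsL1 (fun x y => ∑ i, ∑ j, (a i * c i t * (b j * c' j t) / S) *
        |g i j x - g i j y|) :=
      IsL1.sum Finset.univ (δ := fun i x y => ∑ j, (a i * c i t * (b j * c' j t) / S) *
        |g i j x - g i j y|) (fun i _ => isL1_fin _ (fun j => by
          have := ha i; have := hb j; have := hnn i t; have := hnn' j t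
          positivity) (g i))
    have e2 : IsL1 (fun x y => ∑ i, (a i * (1 - c i t)) * |k i x - k i y|) :=
      isL1_fin _ (fun i => mul_nonneg (ha i) (by linarith [hle i t])) k
    have e3 : IsL1 (fun x y => ∑ j, (b j * (1 - c' j t)) * |k' j x - k' j y|) :=
      isL1_fin _ (fun j => mul_nonneg (hb j) (by linarith [hle' j t])) k'
    exact (e1.add e2).add e3
  · intro x hx y hy
    have f1 : ∑ i, ∑ j, (a i * c i t * (b j * c' j t) / S) * |g i j x - g i j y| =
        ∑ i, a i * c i t * |c i x - c i y| := by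
      apply Finset.sum_congr rfl
      intro i _
      have : ∀ j, (a i * c i t * (b j * c' j t) / S) * |g i j x - g i j y| =
          (a i * c i t * |c i x - c i y| / S) * (b j * c' j t) := by
        intro j
        rw [g1 i j x hx, g1 i j y hy]
        ring
      simp only [this]
      rw [← Finset.mul_sum, hSb]
      field_simp
    have f2 : ∑ i, (a i * (1 - c i t)) * |k i x - k i y| =
        ∑ i, a i * (1 - c i t) * |c i x - c i y| := by
      apply Finset.sum_congr rfl
      intro i _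
      rw [k1 i x hx, k1 i y hy]
    have f3 : ∑ j, (b j * (1 - c' j t)) * |k' j x - k' j y| = 0 := by
      apply Finset.sum_eq_zero
      intro j _
      rw [mul_assoc, absf _ _ _ (by linarith [hle' j t]), k2' j x hx, k2' j y hy]
      simp
    show (∑ i, ∑ j, (a i * c i t * (b j * c' j t) / S) * |g i j x - g i j y|) +
      (∑ i, (a i * (1 - c i t)) * |k i x - k i y|) +
      ∑ j, (b j * (1 - c' j t)) * |k' j x - k' j y| = ρ₁ x y
    rw [f1, f2, f3, add_zero, ← Finset.sum_add_distrib, hρ₁]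
    apply Finset.sum_congr rfl
    intro i _
    ring
  · intro x hx y hy
    have f1 : ∑ i, ∑ j, (a i * c i t * (b j * c' j t) / S) * |g i j x - g i j y| =
        ∑ j, b j * c' j t * |c' j x - c' j y| := by
      rw [Finset.sum_comm]
      apply Finset.sum_congr rfl
      intro j _
      have : ∀ i, (a i * c i t * (b j * c' j t) / S) * |g i j x - g i j y| =
          (b j * c' j t * |c' j x - c' j y| / S) * (a i * c i t) := by
        intro i
        have e : c i t * c' j t * |g i j x - g i j y| = c i t * c' j t * |c' j x - c' j y| := by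
          rw [absf _ _ _ (mul_nonneg (hnn i t) (hnn' j t)), g2 i j x hx, g2 i j y hy,
            ← absf _ _ _ (mul_nonneg (hnn i t) (hnn' j t))]
        calc (a i * c i t * (b j * c' j t) / S) * |g i j x - g i j y| =
            (a i * b j / S) * (c i t * c' j t * |g i j x - g i j y|) := by ring
          _ = (b j * c' j t * |c' j x - c' j y| / S) * (a i * c i t) := by rw [e]; ring
      simp only [this]
      rw [← Finset.mul_sum, hSa]
      field_simp
    have f2 : ∑ i, (a i * (1 - c i t)) * |k i x - k i y| = 0 := by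
      apply Finset.sum_eq_zero
      intro i _
      rw [mul_assoc, absf _ _ _ (by linarith [hle i t]), k2 i x hx, k2 i y hy]
      simp
    have f3 : ∑ j, (b j * (1 - c' j t)) * |k' j x - k' j y| =
        ∑ j, b j * (1 - c' j t) * |c' j x - c' j y| := by
      apply Finset.sum_congr rfl
      intro j _
      rw [k1' j x hx, k1' j y hy]
    show (∑ i, ∑ j, (a i * c i t * (b j * c' j t) / S) * |g i j x - g i j y|) +
      (∑ i, (a i * (1 - c i t)) * |k i x - k i y|) +
      ∑ j, (b j * (1 - c' j t)) * |k' j x - k' j y| = ρ₂ x y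
    rw [f1, f2, f3, add_zero, ← Finset.sum_add_distrib, hρ₂]
    apply Finset.sum_congr rfl
    intro j _
    ring
  · intro u hu x hx
    set α := ∑ i, a i * c i t * c i u with hα
    set β := ∑ j, b j * c' j t * c' j x with hβ
    set nu := ∑ i, a i * (1 - c i t) * c i u with hnu
    set nx := ∑ j, b j * (1 - c' j t) * c' j x with hnx
    have r1 : ρ₁ u s = α + nu := by
      rw [hρ₁, hα, hnu, ← Finset.sum_add_distrib]
      apply Finset.sum_congr rfl
      intro i _
      rw [hcs, sub_zero, abs_of_nonneg (hnn i u)]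
      ring
    have r2 : ρ₁ u t = S - α + nu := by
      rw [hρ₁, hα, hnu, ← hSa, ← Finset.sum_sub_distrib, ← Finset.sum_add_distrib]
      apply Finset.sum_congr rfl
      intro i _
      rw [cross (hc i u) (hc i t)]
      ring
    have r3 : ρ₂ s x = β + nx := by
      rw [hρ₂, hβ, hnx, ← Finset.sum_add_distrib]
      apply Finset.sum_congr rfl
      intro j _
      rw [hcs', zero_sub, abs_neg, abs_of_nonneg (hnn' j x)]
      ring
    have r4 : ρ₂ t x = S - β + nx := by
      rw [hρ₂, hβ, hnx, ← hSb, ← Finset.sum_sub_distrib, ← Finset.sum_add_distrib]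
      apply Finset.sum_congr rfl
      intro j _
      rw [cross (hc' j t) (hc' j x)]
      ring
    have f1 : ∑ i, ∑ j, (a i * c i t * (b j * c' j t) / S) * |g i j u - g i j x| =
        (α * (S - β) + (S - α) * β) / S := by
      have : ∀ i j, (a i * c i t * (b j * c' j t) / S) * |g i j u - g i j x| =
          (a i * c i t * c i u) * (b j * c' j t - b j * c' j t * c' j x) / S +
          (a i * c i t - a i * c i t * c i u) * (b j * c' j t * c' j x) / S := by
        intro i j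
        have e : c i t * c' j t * |g i j u - g i j x| = c i t * c' j t * |c i u - c' j x| := by
          rw [absf _ _ _ (mul_nonneg (hnn i t) (hnn' j t)), g1 i j u hu, g2 i j x hx,
            ← absf _ _ _ (mul_nonneg (hnn i t) (hnn' j t))]
        calc (a i * c i t * (b j * c' j t) / S) * |g i j u - g i j x| =
            (a i * b j / S) * (c i t * c' j t * |g i j u - g i j x|) := by ring
          _ = _ := by
            rw [e, cross (hc i u) (hc' j x)]
            ring
      simp only [this, Finset.sum_add_distrib]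
      rw [add_div]
      congr 1
      · simp only [← Finset.sum_div, ← Finset.mul_sum, ← Finset.sum_mul,
          Finset.sum_sub_distrib, hSb, ← hα, ← hβ]
      · simp only [← Finset.sum_div, ← Finset.mul_sum, ← Finset.sum_mul,
          Finset.sum_sub_distrib, hSa, ← hα, ← hβ]
    have f2 : ∑ i, (a i * (1 - c i t)) * |k i u - k i x| = nu := by
      rw [hnu]
      apply Finset.sum_congr rfl
      intro i _
      rw [mul_assoc, absf _ _ _ (by linarith [hle i t]), k2 i x hx, sub_zero, k1 i u hu,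
        abs_of_nonneg (mul_nonneg (by linarith [hle i t]) (hnn i u))]
      ring
    have f3 : ∑ j, (b j * (1 - c' j t)) * |k' j u - k' j x| = nx := by
      rw [hnx]
      apply Finset.sum_congr rfl
      intro j _
      rw [mul_assoc, absf _ _ _ (by linarith [hle' j t]), k2' j u hu, zero_sub, abs_neg,
        k1' j x hx, abs_of_nonneg (mul_nonneg (by linarith [hle' j t]) (hnn' j x))]
      ring
    show (∑ i, ∑ j, (a i * c i t * (b j * c' j t) / S) * |g i j u - g i j x|) +
      (∑ i, (a i * (1 - c i t)) * |k i u - k i x|) +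
      ∑ j, (b j * (1 - c' j t)) * |k' j u - k' j x| = _
    rw [f1, f2, f3, r1, r2, r3, r4]
    unfold ext
    field_simp
    ring

end TwoSum
end
end

section
set_option linter.all false

/-!
# Root-exact families are closed under 2-sums up to a constant
-/

noncomputable section

namespace TwoSum

open KSum52

theorem specIF (hBE : SpecBE) (hBLT : SpecBLT) : SpecIF := by
  classical
  intro F D hF
  have hD1 : (1 : ℝ) ≤ max D 1 := le_max_right _ _
  have hRE : ∀ (n : ℕ) (G : SimpleGraph (Fin n)), F n G → RE (max D 1) G := fun n G hG =>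
    (rootExact_iff.1 hF n G hG).mono (le_max_left _ _)
  have hk : 0 ≤ 1 / k2 (max D 1) := by
    unfold k2 ka th
    have : 0 < max D 1 := lt_of_lt_of_le one_pos hD1
    positivity
  refine ⟨1 / k2 (max D 1), ?_⟩
  intro n G hG w hw
  have hw : Pos G w := hw
  show Emb G w (1 / k2 (max D 1))
  refine emb_label hw (fun x => G.connectedComponentMk x)
    (fun x y hxy => SimpleGraph.ConnectedComponent.sound hxy.reachable) (fun i => ?_)
  induction i using SimpleGraph.ConnectedComponent.ind with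
  | h v =>
    have hset : ({x | G.connectedComponentMk x = G.connectedComponentMk v} : Set (Fin n)) =
        {x | G.Reachable v x} := by
      ext x
      simp only [Set.mem_setOf_eq]
      rw [SimpleGraph.ConnectedComponent.eq]
      exact ⟨fun h => h.symm, fun h => h.symm⟩
    show Emb (rs G {x | G.connectedComponentMk x = G.connectedComponentMk v}) w _
    rw [hset]
    have hpos : Pos (rs G {x | G.Reachable v x}) w := hw.mono (rs_le _ _)
    rcases hBLT F (max D 1) hD1 hRE n G hG v with h | ⟨H', S', hB, hle⟩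
    · have hbot : rs G {x | G.Reachable v x} ≤ ⊥ := by
        rintro x y ⟨hxy, hx, hy⟩
        have e1 : x = v := h x hx
        have e2 : y = v := h y hy
        exact absurd (e1.trans e2.symm) hxy.ne
      exact (embAll_bot (D := 1 / k2 (max D 1))).mono hk hbot w hpos
    · exact (hBE (Fin n) (max D 1) H' S' hD1 hB).mono hk hle w hpos

end TwoSum
end
end

section
set_option linter.all false

/-!
# Module ISO: isometric gluing of two weighted graphs along edges of equal length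
-/

noncomputable section

namespace TwoSum

open KSum52

namespace ISOM

variable {A B V : Type}

lemma gd_unreach {G : SimpleGraph V} {w : Sym2 V → ℝ} {a b : V} (h : ¬ G.Reachable a b) :
    gd G w a b = 0 := by
  unfold gd
  have : IsEmpty (G.Walk a b) := ⟨fun p => h ⟨p⟩⟩
  rw [Set.range_eq_empty, Real.sInf_empty]

/-- the distance from a point is 1-Lipschitz on all edges -/
lemma gd_lip' [Fintype V] {G : SimpleGraph V} {w : Sym2 V → ℝ} (hw : Pos G w) (x : V) {a b : V}
    (h : G.Adj a b) : |gd G w x a - gd G w x b| ≤ w s(a, b) := by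
  by_cases hr : G.Reachable x a
  · exact gd_lip hw hr h
  · have hr' : ¬ G.Reachable x b := fun h' => hr (h'.trans h.symm.reachable)
    rw [gd_unreach hr, gd_unreach hr', sub_zero, abs_zero]
    exact (hw.adj h).le

lemma potential {G : SimpleGraph V} {w : Sym2 V → ℝ} {f : V → ℝ}
    (hf : ∀ a b, G.Adj a b → |f a - f b| ≤ w s(a, b)) {a b : V} (p : G.Walk a b) :
    f b - f a ≤ wl w p := by
  induction p with
  | nil => simp
  | @cons u v z h p ih =>
    rw [wl_cons]
    have := (abs_le.1 (hf u v h)).1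
    linarith

/-- two graphs glued along an edge -/
structure Glue (G : SimpleGraph A) (w : Sym2 A → ℝ) (H : SimpleGraph B) (v : Sym2 B → ℝ)
    (s t : A) (p q : B) (φ₁ : A ↪ V) (φ₂ : B ↪ V) (w' : Sym2 V → ℝ) : Prop where
  hs : φ₁ s = φ₂ p
  ht : φ₁ t = φ₂ q
  inter : ∀ a b, φ₁ a = φ₂ b → (a = s ∧ b = p) ∨ (a = t ∧ b = q)
  w1 : ∀ x y, G.Adj x y → w' s(φ₁ x, φ₁ y) = w s(x, y)
  w2 : ∀ x y, H.Adj x y → w' s(φ₂ x, φ₂ y) = v s(x, y)

lemma Glue.symm {G : SimpleGraph A} {w : Sym2 A → ℝ} {H : SimpleGraph B} {v : Sym2 B → ℝ}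
    {s t : A} {p q : B} {φ₁ : A ↪ V} {φ₂ : B ↪ V} {w' : Sym2 V → ℝ}
    (h : Glue G w H v s t p q φ₁ φ₂ w') : Glue H v G w p q s t φ₂ φ₁ w' where
  hs := h.hs.symm
  ht := h.ht.symm
  inter a b hab := by
    rcases h.inter b a hab.symm with h1 | h1
    · exact Or.inl h1.symm
    · exact Or.inr h1.symm
  w1 := h.w2
  w2 := h.w1

section Core

variable [Fintype A] [Fintype B] [Fintype V] {G : SimpleGraph A} {w : Sym2 A → ℝ}
  {H : SimpleGraph B} {v : Sym2 B → ℝ} {s t : A} {p q : B} {φ₁ : A ↪ V} {φ₂ : B ↪ V}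
  {w' : Sym2 V → ℝ}

lemma Glue.pos (h : Glue G w H v s t p q φ₁ φ₂ w') (hw : Pos G w) (hv : Pos H v) :
    Pos (G.map φ₁ ⊔ H.map φ₂) w' := by
  intro e
  induction e using Sym2.ind with
  | h x y =>
    intro he
    rw [SimpleGraph.mem_edgeSet] at he
    rcases he with he | he
    · obtain ⟨a, b, hab, rfl, rfl⟩ := (SimpleGraph.map_adj _ _ _ _).1 he
      rw [h.w1 a b hab]
      exact hw.adj hab
    · obtain ⟨a, b, hab, rfl, rfl⟩ := (SimpleGraph.map_adj _ _ _ _).1 he
      rw [h.w2 a b hab]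
      exact hv.adj hab

lemma Glue.core (h : Glue G w H v s t p q φ₁ φ₂ w') (hw : Pos G w) (hv : Pos H v)
    (htv : Tight H v) (hst : G.Adj s t) (hpq : H.Adj p q) (heq : w s(s, t) = v s(p, q)) {x y : A}
    (hxy : G.Reachable x y) :
    gd G w x y ≤ gd (G.map φ₁ ⊔ H.map φ₂) w' (φ₁ x) (φ₁ y) := by
  classical
  have hw' := h.pos hw hv
  let m : B → ℝ := fun z => min (gd G w x s + gd H v p z) (gd G w x t + gd H v q z)
  let f : V → ℝ := fun u => if h1 : ∃ z, φ₁ z = u then gd G w x h1.choose else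
    if h2 : ∃ z, φ₂ z = u then m h2.choose else 0
  have hf1 : ∀ z, f (φ₁ z) = gd G w x z := by
    intro z
    have h1 : ∃ z', φ₁ z' = φ₁ z := ⟨z, rfl⟩
    simp only [f, dif_pos h1]
    rw [φ₁.injective h1.choose_spec]
  have hlst := abs_le.1 (gd_lip' hw x hst)
  have hd : gd H v p q = w s(s, t) := by rw [← htv p q hpq, heq]
  have hd' : gd H v q p = w s(s, t) := by rw [gd_comm hv, hd]
  have hf2 : ∀ z, f (φ₂ z) = m z := by
    intro z
    by_cases h1 : ∃ a, φ₁ a = φ₂ z
    · obtain ⟨a, ha⟩ := h1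
      rw [← ha, hf1]
      rcases h.inter a z ha with ⟨rfl, rfl⟩ | ⟨rfl, rfl⟩
      · simp only [m]
        rw [gd_self hv, hd', add_zero, min_eq_left]
        linarith
      · simp only [m]
        rw [gd_self hv, hd, add_zero, min_eq_right]
        linarith
    · have h2 : ∃ z', φ₂ z' = φ₂ z := ⟨z, rfl⟩
      simp only [f, dif_neg h1, dif_pos h2]
      rw [φ₂.injective h2.choose_spec]
  have hlip : ∀ a b, (G.map φ₁ ⊔ H.map φ₂).Adj a b → |f a - f b| ≤ w' s(a, b) := by
    rintro _ _ (hab' | hab')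
    · obtain ⟨a, b, hab, rfl, rfl⟩ := (SimpleGraph.map_adj _ _ _ _).1 hab'
      rw [hf1, hf1, h.w1 a b hab]
      exact gd_lip' hw x hab
    · obtain ⟨a, b, hab, rfl, rfl⟩ := (SimpleGraph.map_adj _ _ _ _).1 hab'
      rw [hf2, hf2, h.w2 a b hab]
      refine (abs_min_sub_min_le_max _ _ _ _).trans (max_le ?_ ?_)
      · rw [add_sub_add_left_eq_sub]
        exact gd_lip' hv p hab
      · rw [add_sub_add_left_eq_sub]
        exact gd_lip' hv q hab
  have hr : (G.map φ₁ ⊔ H.map φ₂).Reachable (φ₁ x) (φ₁ y) := by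
    let φ' : G →g (G.map φ₁ ⊔ H.map φ₂) := ⟨φ₁, fun {a b} hab =>
      Or.inl ((SimpleGraph.map_adj _ _ _ _).2 ⟨a, b, hab, rfl, rfl⟩)⟩
    exact hxy.map φ'
  obtain ⟨W, hW⟩ := exists_gd hw' hr
  have := potential hlip W
  rw [hf1, hf1, gd_self hw, sub_zero] at this
  rw [← hW]
  exact this

lemma Glue.tight (h : Glue G w H v s t p q φ₁ φ₂ w') (hw : Pos G w) (hv : Pos H v)
    (htw : Tight G w) (htv : Tight H v) (hst : G.Adj s t) (hpq : H.Adj p q)
    (heq : w s(s, t) = v s(p, q)) : Tight (G.map φ₁ ⊔ H.map φ₂) w' := by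
  have hw' := h.pos hw hv
  intro x y hxy
  refine le_antisymm ?_ (gd_adj hw' hxy)
  rcases hxy with hxy | hxy
  · obtain ⟨a, b, hab, rfl, rfl⟩ := (SimpleGraph.map_adj _ _ _ _).1 hxy
    rw [h.w1 a b hab, htw a b hab]
    exact h.core hw hv htv hst hpq heq hab.reachable
  · obtain ⟨a, b, hab, rfl, rfl⟩ := (SimpleGraph.map_adj _ _ _ _).1 hxy
    rw [h.w2 a b hab, htv a b hab, sup_comm]
    exact h.symm.core hv hw htw hpq hst heq.symm hab.reachable

end Core

/-- the weights on the glued graph -/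
lemma exists_weights {G : SimpleGraph A} {w : Sym2 A → ℝ} {H : SimpleGraph B} {v : Sym2 B → ℝ}
    {s t : A} {p q : B} {φ₁ : A ↪ V} {φ₂ : B ↪ V} (hs : φ₁ s = φ₂ p) (ht : φ₁ t = φ₂ q)
    (inter : ∀ a b, φ₁ a = φ₂ b → (a = s ∧ b = p) ∨ (a = t ∧ b = q))
    (heq : w s(s, t) = v s(p, q)) :
    ∃ w' : Sym2 V → ℝ, Glue G w H v s t p q φ₁ φ₂ w' := by
  classical
  refine ⟨fun e => if h : ∃ c ∈ G.edgeSet, Sym2.map φ₁ c = e then w h.choose else
    if h2 : ∃ c ∈ H.edgeSet, Sym2.map φ₂ c = e then v h2.choose else 1, hs, ht, inter, ?_, ?_⟩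
  · intro x y hxy
    have h : ∃ c ∈ G.edgeSet, Sym2.map φ₁ c = s(φ₁ x, φ₁ y) :=
      ⟨s(x, y), (SimpleGraph.mem_edgeSet _).2 hxy, rfl⟩
    simp only [dif_pos h]
    have h2 : Sym2.map φ₁ h.choose = Sym2.map φ₁ s(x, y) := h.choose_spec.2
    rw [Sym2.map.injective φ₁.injective h2]
  · intro x y hxy
    by_cases h : ∃ c ∈ G.edgeSet, Sym2.map φ₁ c = s(φ₂ x, φ₂ y)
    · simp only [dif_pos h]
      have h1 := h.choose_spec.1
      have h2 := h.choose_spec.2
      generalize h.choose = c at h1 h2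
      induction c using Sym2.ind with
      | h a b =>
        rw [SimpleGraph.mem_edgeSet] at h1
        rw [Sym2.map_mk, Sym2.eq_iff] at h2
        have hne := h1.ne
        have hne' := hxy.ne
        rcases h2 with ⟨h3, h4⟩ | ⟨h3, h4⟩
        · rcases inter _ _ h3 with ⟨rfl, rfl⟩ | ⟨rfl, rfl⟩ <;>
            rcases inter _ _ h4 with ⟨h5, h6⟩ | ⟨h5, h6⟩
          · exact absurd h5.symm hne
          · subst h5; subst h6; exact heq
          · subst h5; subst h6
            rw [Sym2.eq_swap, heq, Sym2.eq_swap]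
          · exact absurd h5.symm hne
        · rcases inter _ _ h3 with ⟨rfl, rfl⟩ | ⟨rfl, rfl⟩ <;>
            rcases inter _ _ h4 with ⟨h5, h6⟩ | ⟨h5, h6⟩
          · exact absurd h5.symm hne
          · subst h5; subst h6
            rw [heq, Sym2.eq_swap]
          · subst h5; subst h6
            rw [Sym2.eq_swap, heq]
          · exact absurd h5.symm hne
    · have h2 : ∃ c ∈ H.edgeSet, Sym2.map φ₂ c = s(φ₂ x, φ₂ y) :=
        ⟨s(x, y), (SimpleGraph.mem_edgeSet _).2 hxy, rfl⟩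
      simp only [dif_neg h, dif_pos h2]
      have h3 : Sym2.map φ₂ h2.choose = Sym2.map φ₂ s(x, y) := h2.choose_spec.2
      rw [Sym2.map.injective φ₂.injective h3]

/-- the embeddings -/
lemma exists_emb {N n : ℕ} {s t : Fin N} {p q : Fin n} (hst : s ≠ t) (hpq : p ≠ q) :
    ∃ (N' : ℕ) (φ₁ : Fin N ↪ Fin N') (φ₂ : Fin n ↪ Fin N'), φ₁ s = φ₂ p ∧ φ₁ t = φ₂ q ∧
      (∀ a b, φ₁ a = φ₂ b → (a = s ∧ b = p) ∨ (a = t ∧ b = q)) ∧
      ∀ x : Fin N', x ∈ Set.range φ₁ ∨ x ∈ Set.range φ₂ := by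
  classical
  let X := Fin N ⊕ {z : Fin n // z ≠ p ∧ z ≠ q}
  let e : X ≃ Fin (Fintype.card X) := Fintype.equivFin X
  let j : Fin n → X := fun z => if h : z ≠ p ∧ z ≠ q then Sum.inr ⟨z, h⟩ else
    if z = p then Sum.inl s else Sum.inl t
  have jp : j p = Sum.inl s := by
    have h : ¬ (p ≠ p ∧ p ≠ q) := fun h => h.1 rfl
    change (if h : p ≠ p ∧ p ≠ q then (Sum.inr ⟨p, h⟩ : X) else
      if p = p then Sum.inl s else Sum.inl t) = _
    rw [dif_neg h, if_pos rfl]
  have jq : j q = Sum.inl t := by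
    have h : ¬ (q ≠ p ∧ q ≠ q) := fun h => h.2 rfl
    simp only [j]
    rw [dif_neg h, if_neg hpq.symm]
  have jo : ∀ z (h : z ≠ p ∧ z ≠ q), j z = Sum.inr ⟨z, h⟩ := by
    intro z h
    simp only [j]
    rw [dif_pos h]
  have jcase : ∀ z, (z = p ∧ j z = Sum.inl s) ∨ (z = q ∧ j z = Sum.inl t) ∨
      ∃ h : z ≠ p ∧ z ≠ q, j z = Sum.inr ⟨z, h⟩ := by
    intro z
    by_cases h1 : z = p
    · subst h1; exact Or.inl ⟨rfl, jp⟩
    · by_cases h2 : z = q
      · subst h2; exact Or.inr (Or.inl ⟨rfl, jq⟩)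
      · exact Or.inr (Or.inr ⟨⟨h1, h2⟩, jo z ⟨h1, h2⟩⟩)
  have jinj : Function.Injective j := by
    intro y z hyz
    rcases jcase y with ⟨h1, h2⟩ | ⟨h1, h2⟩ | ⟨h1, h2⟩ <;>
      rcases jcase z with ⟨h3, h4⟩ | ⟨h3, h4⟩ | ⟨h3, h4⟩ <;> rw [h2, h4] at hyz
    · rw [h1, h3]
    · exact absurd (Sum.inl_injective hyz) hst
    · exact absurd hyz Sum.inl_ne_inr
    · exact absurd (Sum.inl_injective hyz) hst.symm
    · rw [h1, h3]
    · exact absurd hyz Sum.inl_ne_inr
    · exact absurd hyz Sum.inr_ne_inl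
    · exact absurd hyz Sum.inr_ne_inl
    · exact congrArg Subtype.val (Sum.inr_injective hyz)
  refine ⟨Fintype.card X, ⟨fun z => e (Sum.inl z), fun a b hab =>
    Sum.inl_injective (e.injective hab)⟩, ⟨fun z => e (j z), fun a b hab =>
    jinj (e.injective hab)⟩, ?_, ?_, ?_, ?_⟩
  · change e (Sum.inl s) = e (j p)
    rw [jp]
  · change e (Sum.inl t) = e (j q)
    rw [jq]
  · intro a b hab
    have hab' : Sum.inl a = j b := e.injective hab
    rcases jcase b with ⟨h1, h2⟩ | ⟨h1, h2⟩ | ⟨h1, h2⟩ <;> rw [h2] at hab'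
    · exact Or.inl ⟨Sum.inl_injective hab', h1⟩
    · exact Or.inr ⟨Sum.inl_injective hab', h1⟩
    · exact absurd hab' Sum.inl_ne_inr
  · intro x
    rcases hx : e.symm x with a | ⟨z, hz⟩
    · left
      refine ⟨a, ?_⟩
      change e (Sum.inl a) = x
      rw [← hx, e.apply_symm_apply]
    · right
      refine ⟨z, ?_⟩
      change e (j z) = x
      rw [jo z hz, ← hx, e.apply_symm_apply]

end ISOM

open ISOM in
theorem specISO : SpecISO := by
  intro N n G w H v s t p q hw htw hv htv hst hpq heq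
  obtain ⟨N', φ₁, φ₂, hs, ht, inter, cover⟩ := exists_emb hst.ne hpq.ne
  obtain ⟨w', hG⟩ := exists_weights (G := G) (H := H) hs ht inter heq
  have hmem : ∀ x, x ∈ Set.range φ₁ ∩ Set.range φ₂ → x = φ₁ s ∨ x = φ₁ t := by
    rintro x ⟨⟨a, rfl⟩, b, hb⟩
    rcases inter a b hb.symm with ⟨rfl, -⟩ | ⟨rfl, -⟩
    · exact Or.inl rfl
    · exact Or.inr rfl
  have a1 : (G.map φ₁).Adj (φ₁ s) (φ₁ t) :=
    (SimpleGraph.map_adj _ _ _ _).2 ⟨s, t, hst, rfl, rfl⟩
  have a2 : (H.map φ₂).Adj (φ₁ s) (φ₁ t) :=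
    (SimpleGraph.map_adj _ _ _ _).2 ⟨p, q, hpq, hs.symm, ht.symm⟩
  refine ⟨N', φ₁, φ₂, w', ⟨cover, ?_, ?_⟩, hs, ht, hG.pos hw hv,
    hG.tight hw hv htw htv hst hpq heq, hG.w1, hG.w2,
    fun x y hxy => hG.core hw hv htv hst hpq heq hxy, fun x y hxy => ?_⟩
  · have hsub : Set.range φ₁ ∩ Set.range φ₂ ⊆ {φ₁ s, φ₁ t} := by
      intro x hx
      rw [Set.mem_insert_iff, Set.mem_singleton_iff]
      exact hmem x hx
    refine (Set.ncard_le_ncard hsub (Set.toFinite _)).trans ?_
    refine (Set.ncard_insert_le _ _).trans ?_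
    rw [Set.ncard_singleton]
  · intro x hx y hy hxy
    rcases hmem x hx with rfl | rfl <;> rcases hmem y hy with rfl | rfl
    · exact absurd rfl hxy
    · exact ⟨a1, a2⟩
    · exact ⟨a1.symm, a2.symm⟩
    · exact absurd rfl hxy
  · rw [sup_comm]
    exact hG.symm.core hv hw htw hpq hst heq.symm hxy

end TwoSum
end
end

section
set_option linter.all false

/-! # Module LRE -/

noncomputable section

namespace TwoSum

open KSum52

namespace LREM'

variable {V : Type}

lemma gd_unreach {H : SimpleGraph V} {w : Sym2 V → ℝ} {x y : V} (h : ¬ H.Reachable x y) :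
    gd H w x y = 0 := by
  unfold gd
  have : IsEmpty (H.Walk x y) := ⟨fun p => h ⟨p⟩⟩
  rw [Set.range_eq_empty, Real.sInf_empty]

lemma gd_pos [Fintype V] {H : SimpleGraph V} {w : Sym2 V → ℝ} (hw : Pos H w) {x y : V}
    (hr : H.Reachable x y) (hne : x ≠ y) : 0 < gd H w x y := by
  obtain ⟨p, hp⟩ := exists_gd hw hr
  rw [← hp]
  cases p with
  | nil => exact absurd rfl hne
  | cons h p =>
    rw [wl_cons]
    have h1 := hw.adj h
    have h2 := wl_nonneg hw p
    linarith

lemma max_eq (u v : ℝ) : max |u| |v| = |u + v| / 2 + |u - v| / 2 := by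
  rcases le_total |u| |v| with h | h
  · rw [max_eq_right h]
    rcases abs_cases u with ⟨h1, h2⟩ | ⟨h1, h2⟩ <;> rcases abs_cases v with ⟨h3, h4⟩ | ⟨h3, h4⟩ <;>
      rcases abs_cases (u + v) with ⟨h5, h6⟩ | ⟨h5, h6⟩ <;>
      rcases abs_cases (u - v) with ⟨h7, h8⟩ | ⟨h7, h8⟩ <;> linarith
  · rw [max_eq_left h]
    rcases abs_cases u with ⟨h1, h2⟩ | ⟨h1, h2⟩ <;> rcases abs_cases v with ⟨h3, h4⟩ | ⟨h3, h4⟩ <;>
      rcases abs_cases (u + v) with ⟨h5, h6⟩ | ⟨h5, h6⟩ <;>
      rcases abs_cases (u - v) with ⟨h7, h8⟩ | ⟨h7, h8⟩ <;> linarith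

lemma isL1_max (g h : V → ℝ) : IsL1 (fun x y => max |g x - g y| |h x - h y|) := by
  have h1 : IsL1 (fun x y => (1 / 2 : ℝ) * |(g x + h x) - (g y + h y)|) :=
    (IsL1.abs (fun x => g x + h x)).smul (by norm_num)
  have h2 : IsL1 (fun x y => (1 / 2 : ℝ) * |(g x - h x) - (g y - h y)|) :=
    (IsL1.abs (fun x => g x - h x)).smul (by norm_num)
  refine (h1.add h2).of_eq ?_
  intro x y
  rw [max_eq]
  have e1 : g x - g y + (h x - h y) = (g x + h x) - (g y + h y) := by ring
  have e2 : g x - g y - (h x - h y) = (g x - h x) - (g y - h y) := by ring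
  rw [e1, e2]
  ring

end LREM'

open LREM' in
theorem specLRE : SpecLRE := by
  intro V _ H C hall w hw p q hpq
  obtain ⟨m, l, k, hl0, hl1, hk1, hk2⟩ := hall w hw
  have hh : ∀ x y, H.Adj x y → |gd H w p x - gd H w p y| ≤ w s(x, y) := by
    intro x y hxy
    by_cases hr : H.Reachable p x
    · exact gd_lip hw hr hxy
    · have hr' : ¬ H.Reachable p y := fun h => hr (h.trans hxy.symm.reachable)
      rw [gd_unreach hr, gd_unreach hr', sub_self, abs_zero]
      exact (hw.adj hxy).le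
  have hkpq : ∀ i, |k i p - k i q| ≤ gd H w p q := by
    intro i
    have := (IsL1.abs (k i)).le_gd (L := 1) hw (fun u v huv => by rw [one_mul]; exact hk1 i u v huv)
      hpq.reachable
    linarith
  have hgpos := LREM'.gd_pos hw hpq.reachable hpq.ne
  have hS : ∀ x y, 0 ≤ ∑ i, l i * |k i x - k i y| := fun x y =>
    Finset.sum_nonneg fun i _ => mul_nonneg (hl0 i) (abs_nonneg _)
  have hC : 0 ≤ C := by
    by_contra hneg
    push Not at hneg
    have h1 := hk2 p q hpq.reachable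
    have h2 : C * ∑ i, l i * |k i p - k i q| ≤ 0 :=
      mul_nonpos_of_nonpos_of_nonneg hneg.le (hS p q)
    linarith
  refine ⟨fun x y => ∑ i, l i * max |gd H w p x - gd H w p y| |k i x - k i y|, ?_, ?_, ?_, ?_⟩
  · exact IsL1.sum Finset.univ (fun i _ => (isL1_max (fun x => gd H w p x) (k i)).smul (hl0 i))
  · intro x y hxy
    calc ∑ i, l i * max |gd H w p x - gd H w p y| |k i x - k i y| ≤ ∑ i, l i * w s(x, y) := by
          apply Finset.sum_le_sum
          intro i _
          exact mul_le_mul_of_nonneg_left (max_le (hh x y hxy) (hk1 i x y hxy)) (hl0 i)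
      _ = w s(x, y) := by rw [← Finset.sum_mul, hl1, one_mul]
  · have h1 : ∀ i, max |gd H w p p - gd H w p q| |k i p - k i q| = gd H w p q := by
      intro i
      rw [gd_self hw, zero_sub, abs_neg, abs_of_pos hgpos]
      exact max_eq_left (hkpq i)
    simp only [h1]
    rw [← Finset.sum_mul, hl1, one_mul]
  · intro x y hxy
    refine (hk2 x y hxy).trans (mul_le_mul_of_nonneg_left ?_ hC)
    apply Finset.sum_le_sum
    intro i _
    exact mul_le_mul_of_nonneg_left (le_max_right _ _) (hl0 i)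

end TwoSum
end
end

section
set_option linter.all false

/-! # Module LPW -/

noncomputable section

namespace TwoSum

open KSum52

namespace LPWM

variable {V : Type}

/-- a walk meets every separator -/
lemma crossing' {G : SimpleGraph V} {lo hi : V → ℕ} {S : Set V}
    (hadj : ∀ x y, G.Adj x y → x ∈ S ∧ y ∈ S ∧ lo x ≤ hi y ∧ lo y ≤ hi x) {i : ℕ} {a b : V}
    (p : G.Walk a b) (haS : a ∈ S) (ha : lo a ≤ i) (hb : i ≤ hi b) :
    ∃ z ∈ p.support, z ∈ S ∧ lo z ≤ i ∧ i ≤ hi z := by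
  induction p with
  | nil => exact ⟨_, by simp, haS, ha, hb⟩
  | @cons u v x h p ih =>
    by_cases h1 : i ≤ hi u
    · exact ⟨u, by simp, haS, ha, h1⟩
    · obtain ⟨-, h3, -, h2⟩ := hadj _ _ h
      obtain ⟨z, hz, h4⟩ := ih h3 (by omega) hb
      exact ⟨z, by simp [hz], h4⟩

lemma main (hL : SpecLREM) [Fintype V] (k : ℕ) : ∀ (G : SimpleGraph V) (lo hi : V → ℕ) (S : Set V),
    (∀ x, lo x ≤ hi x) →
    (∀ x y, G.Adj x y → x ∈ S ∧ y ∈ S ∧ lo x ≤ hi y ∧ lo y ≤ hi x) →
    (∀ i, {x | x ∈ S ∧ lo x ≤ i ∧ i ≤ hi x}.ncard ≤ k) → LipAll (100000 ^ k) G := by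
  classical
  induction k with
  | zero =>
    intro G lo hi S hle hadj hcard w hw
    have hno : ∀ x y, ¬ G.Adj x y := by
      intro x y hxy
      have h1 : x ∈ {x | x ∈ S ∧ lo x ≤ lo x ∧ lo x ≤ hi x} := ⟨(hadj x y hxy).1, le_rfl, hle x⟩
      have h1' : x ∈ {z | z ∈ S ∧ lo z ≤ lo x ∧ lo x ≤ hi z} := ⟨(hadj x y hxy).1, le_rfl, hle x⟩
      have h2 := (Set.ncard_eq_zero (Set.toFinite _)).1 (Nat.le_zero.1 (hcard (lo x)))
      rw [h2] at h1'
      exact h1'
    refine ⟨1, fun _ => 1, fun _ _ => 0, fun _ => zero_le_one, by simp, ?_, ?_⟩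
    · intro i x y hxy
      exact absurd hxy (hno x y)
    · intro x y hxy
      have e : x = y := by
        obtain ⟨p⟩ := hxy
        cases p with
        | nil => rfl
        | cons h p => exact absurd h (hno _ _)
      subst e
      rw [gd_self hw]
      simp
  | succ k ih =>
    intro G lo hi S hle hadj hcard w hw
    have hex : ∀ c : G.ConnectedComponent, ∃ (a b : V) (P : G.Walk a b),
        G.connectedComponentMk a = c ∧
        (∀ z, G.connectedComponentMk z = c → z ∈ S → a ∈ S ∧ lo a ≤ lo z) ∧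
        (∀ z, G.connectedComponentMk z = c → z ∈ S → hi z ≤ hi b) ∧
        ∀ q : G.Walk a b, wl w P ≤ wl w q := by
      intro c
      by_cases hne : (Finset.univ.filter (fun z => G.connectedComponentMk z = c ∧ z ∈ S)).Nonempty
      · obtain ⟨a, ha, ha2⟩ := Finset.exists_min_image _ lo hne
        obtain ⟨b, hb, hb2⟩ := Finset.exists_max_image _ hi hne
        rw [Finset.mem_filter] at ha hb
        have hr : G.Reachable a b := SimpleGraph.ConnectedComponent.exact (ha.2.1.trans hb.2.1.symm)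
        obtain ⟨P, hP⟩ := exists_min_walk hw hr
        exact ⟨a, b, P, ha.2.1,
          fun z hz hzS => ⟨ha.2.2, ha2 z (Finset.mem_filter.2 ⟨Finset.mem_univ _, hz, hzS⟩)⟩,
          fun z hz hzS => hb2 z (Finset.mem_filter.2 ⟨Finset.mem_univ _, hz, hzS⟩), hP⟩
      · obtain ⟨z, hz⟩ := c.exists_rep
        obtain ⟨P, hP⟩ := exists_min_walk hw (SimpleGraph.Reachable.refl z)
        have hno : ∀ y, G.connectedComponentMk y = c → y ∈ S → False := by
          intro y hy hyS
          exact hne ⟨y, Finset.mem_filter.2 ⟨Finset.mem_univ _, hy, hyS⟩⟩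
        exact ⟨z, z, P, hz, fun y hy hyS => (hno y hy hyS).elim,
          fun y hy hyS => (hno y hy hyS).elim, hP⟩
    choose a b P ha hlo hhi hP using hex
    let cc : V → G.ConnectedComponent := fun x => G.connectedComponentMk x
    let A : Set V := {x | x ∈ (P (cc x)).support}
    have hra : ∀ x, G.Reachable (a (cc x)) x := fun x =>
      SimpleGraph.ConnectedComponent.exact (ha (cc x))
    have hccadj : ∀ {u v}, G.Reachable u v → cc u = cc v := fun h =>
      SimpleGraph.ConnectedComponent.sound h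
    have hG' : LipAll (100000 ^ k) (rm G A) := by
      refine ih (rm G A) lo hi (S \ A) hle ?_ ?_
      · rintro x y ⟨h1, h2, h3⟩
        obtain ⟨h4, h5, h6⟩ := hadj x y h1
        exact ⟨⟨h4, h2⟩, ⟨h5, h3⟩, h6⟩
      · intro i
        have hsub : {x | x ∈ S \ A ∧ lo x ≤ i ∧ i ≤ hi x} ⊆
            {x | x ∈ S ∧ lo x ≤ i ∧ i ≤ hi x} \ A := by
          rintro x ⟨⟨h1, h2⟩, h3⟩
          exact ⟨⟨h1, h3⟩, h2⟩
        refine (Set.ncard_le_ncard hsub (Set.toFinite _)).trans ?_
        by_cases hS : {x | x ∈ S ∧ lo x ≤ i ∧ i ≤ hi x}.Nonempty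
        · obtain ⟨z, hz0, hz1, hz2⟩ := hS
          obtain ⟨haS, hla⟩ := hlo (cc z) z rfl hz0
          obtain ⟨z', hz', h3⟩ := crossing' hadj (P (cc z)) haS (hla.trans hz1)
            (hz2.trans (hhi (cc z) z rfl hz0))
          have hcz : cc z' = cc z := by
            have : G.Reachable (a (cc z)) z' := ⟨(P (cc z)).takeUntil z' hz'⟩
            exact (hccadj this).symm.trans (ha (cc z))
          have hzA : z' ∈ A := by
            change z' ∈ (P (cc z')).support
            rw [hcz]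
            exact hz'
          have h5 : ({x | x ∈ S ∧ lo x ≤ i ∧ i ≤ hi x} \ A).ncard <
              {x | x ∈ S ∧ lo x ≤ i ∧ i ≤ hi x}.ncard := by
            refine Set.ncard_lt_ncard ?_ (Set.toFinite _)
            rw [Set.ssubset_iff_of_subset Set.diff_subset]
            exact ⟨z', h3, fun h => h.2 hzA⟩
          have := hcard i
          omega
        · rw [Set.not_nonempty_iff_eq_empty] at hS
          rw [hS]
          simp
    have hres := hL V G w A (fun x => gd G w (a (cc x)) x) (100000 ^ k) hw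
      (one_le_pow₀ (by norm_num)) ?_ ?_ (hG' w (hw.mono (rm_le _ _)))
    · rw [pow_succ']
      exact hres
    · intro u v huv
      have e : cc u = cc v := hccadj huv.reachable
      show |gd G w (a (cc u)) u - gd G w (a (cc v)) v| ≤ _
      rw [← e]
      exact gd_lip hw (hra u) huv
    · intro x hx y hy hxy
      have e : cc x = cc y := hccadj hxy
      show _ ≤ |gd G w (a (cc x)) x - gd G w (a (cc y)) y|
      rw [← e]
      have hy' : y ∈ (P (cc x)).support := by rw [e]; exact hy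
      exact geodesic hw (P (cc x)) (hP (cc x)) hx hy'

end LPWM

theorem specLPW (hL : SpecLREM) : SpecLPW := by
  intro V _ G k lo hi hle hadj hcard
  refine LPWM.main hL k G lo hi Set.univ hle ?_ ?_
  · intro x y hxy
    exact ⟨Set.mem_univ _, Set.mem_univ _, hadj x y hxy⟩
  · intro i
    have e : {x | x ∈ (Set.univ : Set V) ∧ lo x ≤ i ∧ i ≤ hi x} = {v | lo v ≤ i ∧ i ≤ hi v} := by
      ext x
      simp
    rw [e]
    exact hcard i

end TwoSum
end
end

section
set_option linter.all false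

/-!
# The 2-sum theorem: the removal lemma for 1-Lipschitz functions
-/

noncomputable section

namespace TwoSum

open KSum52

namespace LREMM

variable {V : Type}

lemma lipW_of_fintype {C : ℝ} {G : SimpleGraph V} {w : Sym2 V → ℝ} {I : Type}
    [Fintype I] (l : I → ℝ) (k : I → V → ℝ) (h0 : ∀ i, 0 ≤ l i) (h1 : ∑ i, l i = 1)
    (h2 : ∀ i x y, G.Adj x y → |k i x - k i y| ≤ w s(x, y))
    (h3 : ∀ x y, G.Reachable x y → gd G w x y ≤ C * ∑ i, l i * |k i x - k i y|) : LipW C G w := by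
  classical
  let e := Fintype.equivFin I
  refine ⟨Fintype.card I, fun i => l (e.symm i), fun i => k (e.symm i), fun i => h0 _, ?_,
    fun i => h2 _, ?_⟩
  · rw [Equiv.sum_comp e.symm l]; exact h1
  · intro x y h
    have h4 := Equiv.sum_comp e.symm (fun i => l i * |k i x - k i y|)
    simp only at h4 ⊢
    rw [h4]
    exact h3 x y h

lemma lip_gd [Fintype V] {G : SimpleGraph V} {w : Sym2 V → ℝ} (hw : Pos G w) {f : V → ℝ}
    (h : ∀ x y, G.Adj x y → |f x - f y| ≤ w s(x, y)) {x y : V} (hr : G.Reachable x y) :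
    |f x - f y| ≤ gd G w x y := by
  have := (IsL1.abs f).le_gd (L := 1) hw (fun u v huv => by rw [one_mul]; exact h u v huv) hr
  rwa [one_mul] at this

/-- sums over the scales are Lipschitz -/
lemma psi_lip [Fintype V] {G : SimpleGraph V} {w : Sym2 V → ℝ} {A : Set V} {M : ℝ} (hw : Pos G w)
    (hM : 0 < M) {h : ℤ → V → ℝ} (hb : ∀ j x, |h j x| ≤ (2 : ℝ) ^ j)
    (hl : ∀ j x y, G.Adj x y → x ∉ A → y ∉ A → |h j x - h j y| ≤ w s(x, y)) (J : Finset ℤ)
    {x y : V} (hxy : G.Adj x y) :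
    |∑ j ∈ J, tj j (rho G w A M x) * h j x - ∑ j ∈ J, tj j (rho G w A M y) * h j y| ≤
      18 * w s(x, y) := by
  have hwxy := hw.adj hxy
  have hr : |rho G w A M x - rho G w A M y| ≤ w s(x, y) := rho_lip hw hxy
  rw [← Finset.sum_sub_distrib]
  refine (Finset.abs_sum_le_sum_abs _ _).trans ?_
  have h18 : 18 * w s(x, y) = 6 * (3 * w s(x, y)) := by ring
  rw [h18]
  refine sum_scales (s := rho G w A M x) (t := rho G w A M y) (by linarith)
    (rho_nonneg hw hM x) (rho_nonneg hw hM y) ?_ ?_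
  · intro j _
    have hp := two_zpow_pos j
    have e1 := tj_lip j (rho G w A M x) (rho G w A M y)
    have tx0 : 0 ≤ tj j (rho G w A M x) := tent_nonneg _
    have ty0 : 0 ≤ tj j (rho G w A M y) := tent_nonneg _
    have ty1 : tj j (rho G w A M y) ≤ 1 := tent_le_one _
    by_cases hx : x ∈ A
    · have hx0 : tj j (rho G w A M x) = 0 := by rw [rho_mem hw hM hx]; exact tj_zero j
      rw [hx0, zero_sub, abs_neg, abs_of_nonneg ty0] at e1
      rw [hx0, zero_mul, zero_sub, abs_neg, abs_mul, abs_of_nonneg ty0]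
      have e2 := mul_le_mul_of_nonneg_left (hb j y) ty0
      linarith
    · by_cases hy : y ∈ A
      · have hy0 : tj j (rho G w A M y) = 0 := by rw [rho_mem hw hM hy]; exact tj_zero j
        rw [hy0, sub_zero, abs_of_nonneg tx0] at e1
        rw [hy0, zero_mul, sub_zero, abs_mul, abs_of_nonneg tx0]
        have e2 := mul_le_mul_of_nonneg_left (hb j x) tx0
        linarith
      · have e3 : tj j (rho G w A M x) * h j x - tj j (rho G w A M y) * h j y =
            (tj j (rho G w A M x) - tj j (rho G w A M y)) * h j x +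
              tj j (rho G w A M y) * (h j x - h j y) := by ring
        rw [e3]
        refine (abs_add_le _ _).trans ?_
        rw [abs_mul, abs_mul, abs_of_nonneg ty0]
        have e4 := mul_le_mul_of_nonneg_left (hb j x)
          (abs_nonneg (tj j (rho G w A M x) - tj j (rho G w A M y)))
        have e5 := mul_le_mul ty1 (hl j x y hxy hx hy) (abs_nonneg _) zero_le_one
        linarith
  · intro j _ h2 h3
    rw [h2, h3, zero_mul, zero_mul, sub_zero, abs_zero]

/-- only one scale of a class is active -/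
lemma tj_class {s t : ℝ} (hs : 0 < s) (ht : t ≤ s) (h2 : (2 : ℝ) ^ (Int.log 2 s) / 2 ≤ t) {j : ℤ}
    (hj : j % 3 = Int.log 2 s % 3) (hne : j ≠ Int.log 2 s) : tj j t = 0 := by
  have hp := two_zpow_pos (Int.log 2 s)
  have ht0 : 0 < t := by linarith
  by_contra hc
  have h3 := tj_ne_zero ht0 hc
  have h4 : Int.log 2 t ≤ Int.log 2 s := Int.log_mono_right ht0 ht
  have h5 : Int.log 2 s - 1 ≤ Int.log 2 t := by
    rw [← Int.zpow_le_iff_le_log (by norm_num) ht0]
    push_cast
    rw [zpow_sub_one₀ (by norm_num : (2 : ℝ) ≠ 0)]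
    linarith
  simp only [Finset.mem_insert, Finset.mem_singleton] at h3
  omega

lemma sum_class {s t : ℝ} (hs : 0 < s) (ht : t ≤ s) (h2 : (2 : ℝ) ^ (Int.log 2 s) / 2 ≤ t)
    {J : Finset ℤ} (hJ : Int.log 2 s ∈ J) (a : ℤ → ℝ) {r : ℤ} (hr : Int.log 2 s % 3 = r) :
    ∑ j ∈ J.filter (fun j => j % 3 = r), tj j t * a j =
      tj (Int.log 2 s) t * a (Int.log 2 s) := by
  apply Finset.sum_eq_single
  · intro j hj hne
    rw [Finset.mem_filter] at hj
    rw [tj_class hs ht h2 (hj.2.trans hr.symm) hne, zero_mul]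
  · intro h
    exact absurd (Finset.mem_filter.2 ⟨hJ, hr⟩) h

lemma one_scale {a b t : ℝ} : |a - b| - |1 - t| * |b| ≤ |a - t * b| := by
  have h1 : a - b = (a - t * b) - (1 - t) * b := by ring
  have h2 := abs_sub (a - t * b) ((1 - t) * b)
  rw [← h1, abs_mul] at h2
  linarith

/-- the last step -/
lemma final [Fintype V] {G : SimpleGraph V} {w : Sym2 V → ℝ} {A : Set V} {M : ℝ} (hw : Pos G w)
    (hgd : ∀ u v : V, gd G w u v < M) {g : V → ℝ}
    (hg : ∀ x y, G.Adj x y → |g x - g y| ≤ w s(x, y))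
    (hA : ∀ a ∈ A, ∀ b ∈ A, G.Reachable a b → gd G w a b ≤ |g a - g b|) {x y : V}
    (hxy : G.Reachable x y) (hρ : rho G w A M y ≤ rho G w A M x) :
    gd G w x y ≤ 4 * rho G w A M x + |g x - g y| := by
  by_cases hreach : ∃ a ∈ A, G.Reachable x a
  · obtain ⟨a, ha, hra⟩ := hreach
    have hx1 : rho G w A M x < M := (rho_le_gd (w := w) (M := M) ha hra).trans_lt (hgd _ _)
    have hy1 : rho G w A M y < M :=
      (rho_le_gd (w := w) (M := M) ha (hxy.symm.trans hra)).trans_lt (hgd _ _)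
    rcases rho_cases (G := G) (w := w) (A := A) (M := M) x with h2 | ⟨b, hb, hrb, h2⟩
    · exact absurd h2 hx1.ne
    rcases rho_cases (G := G) (w := w) (A := A) (M := M) y with h3 | ⟨c, hc, hrc, h3⟩
    · exact absurd h3 hy1.ne
    have hbc : G.Reachable b c := hrb.symm.trans (hxy.trans hrc)
    have e1 := gd_tri hw hrb (hbc.trans hrc.symm)
    have e2 := gd_tri hw hbc hrc.symm
    have e3 := hA b hb c hc hbc
    have e5 := lip_gd hw hg hrb
    have e6 := lip_gd hw hg hrc
    have e4 : |g b - g c| ≤ |g x - g b| + |g x - g y| + |g y - g c| := by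
      have i1 : g b - g c = -(g x - g b) + (g x - g y) + (g y - g c) := by ring
      rw [i1]
      refine (abs_add_le _ _).trans ?_
      have := abs_add_le (-(g x - g b)) (g x - g y)
      rw [abs_neg] at this
      linarith
    rw [gd_comm hw c y] at e2
    linarith
  · have hxM : rho G w A M x = M := by
      rcases rho_cases (G := G) (w := w) (A := A) (M := M) x with h2 | ⟨b, hb, hrb, h2⟩
      · exact h2
      · exact absurd ⟨b, hb, hrb⟩ hreach
    have := hgd x y
    have := abs_nonneg (g x - g y)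
    have := gd_nonneg hw x y
    linarith

/-- the lower bound for the average of the fold functions -/
lemma avg_lower {m : ℕ} {U : Type} [Fintype U] {K : ℝ} (hK : 0 < K) {l : Fin m → ℝ}
    (l0 : ∀ i, 0 ≤ l i) {F : Fin m → U → ℝ} {X : Fin m → ℝ}
    (h : ∀ i, K * X i ≤ 64 * ∑ u, F i u) :
    ∑ i, l i * X i ≤ 64 * ∑ i, ∑ u, l i / K * F i u := by
  rw [Finset.mul_sum]
  refine Finset.sum_le_sum fun i _ => ?_
  rw [← Finset.mul_sum]
  have h1 := mul_le_mul_of_nonneg_left (h i) (div_nonneg (l0 i) hK.le)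
  have h2 : l i / K * (K * X i) = l i * X i := by field_simp
  rw [h2] at h1
  linarith

end LREMM

open LREMM in
theorem specLREM (hFold : SpecFOLD) : SpecLREM := by
  classical
  intro V _ G w A g C hw hC hg hA hLip
  obtain ⟨m, l, k, l0, l1, k1, k2⟩ := hLip
  have hw' : Pos (rm G A) w := hw.mono (rm_le G A)
  obtain ⟨M, hM, hgd⟩ := gd_bound hw
  obtain ⟨ρ, hρdef⟩ : ∃ ρ : V → ℝ, ρ = rho G w A M := ⟨_, rfl⟩
  have hρ0 : ∀ x, 0 ≤ ρ x := by rw [hρdef]; exact rho_nonneg hw hM
  choose h h0 h1 h2 h3 using fun (i : Fin m) (j : ℤ) => hFold V (rm G A).ConnectedComponent (k i)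
    (fun x => (rm G A).connectedComponentMk x) ((2 : ℝ) ^ j) (two_zpow_pos j)
  obtain ⟨J, hJ⟩ : ∃ J : Finset ℤ, ∀ x, Int.log 2 (ρ x) ∈ J :=
    ⟨Finset.univ.image (fun x => Int.log 2 (ρ x)), fun x =>
      Finset.mem_image_of_mem _ (Finset.mem_univ x)⟩
  obtain ⟨K, hK⟩ : ∃ K : ℝ, K = (Fintype.card (Fin 4 × (V → Bool)) : ℝ) := ⟨_, rfl⟩
  have hKpos : 0 < K := by
    have : 0 < Fintype.card (Fin 4 × (V → Bool)) := Fintype.card_pos
    rw [hK]
    exact_mod_cast this
  simp only [← hK] at h2 h3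
  -- the functions of one class
  obtain ⟨Ψ, hΨ⟩ : ∃ Ψ : Fin 3 → Fin m → (Fin 4 × (V → Bool)) → V → ℝ, ∀ r i u x, Ψ r i u x =
      (∑ j ∈ J.filter (fun j => j % 3 = ((r : ℕ) : ℤ)), tj j (ρ x) * h i j u x) / 18 :=
    ⟨_, fun _ _ _ _ => rfl⟩
  have hΨlip : ∀ r i u x y, G.Adj x y → |Ψ r i u x - Ψ r i u y| ≤ w s(x, y) := by
    intro r i u x y hxy
    have e := psi_lip (A := A) (M := M) hw hM (h := fun j => h i j u) (fun j x => h0 i j u x)
      (fun j x y hxy hx hy => by
        have hadj : (rm G A).Adj x y := ⟨hxy, hx, hy⟩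
        refine (h1 i j u x y ?_).trans (k1 i x y hadj)
        exact SimpleGraph.ConnectedComponent.sound hadj.reachable)
      (J.filter (fun j => j % 3 = ((r : ℕ) : ℤ))) hxy
    rw [← hρdef] at e
    rw [hΨ, hΨ, ← sub_div, abs_div, abs_of_pos (by norm_num : (0 : ℝ) < 18),
      div_le_iff₀ (by norm_num)]
    linarith
  have hρlip : ∀ x y, G.Adj x y → |ρ x - ρ y| ≤ w s(x, y) := by
    intro x y hxy
    rw [hρdef]
    exact rho_lip hw hxy
  -- the total
  obtain ⟨δ, hδ⟩ : ∃ δ : V → V → ℝ, ∀ x y, δ x y = 1 / 3 * |g x - g y| + 1 / 3 * |ρ x - ρ y| +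
      ∑ r : Fin 3, ∑ i : Fin m, ∑ u : (Fin 4 × (V → Bool)), 1 / 9 * (l i / K) * |Ψ r i u x - Ψ r i u y| :=
    ⟨_, fun _ _ => rfl⟩
  have hterm : ∀ r i u x y, 0 ≤ 1 / 9 * (l i / K) * |Ψ r i u x - Ψ r i u y| := by
    intro r i u x y
    exact mul_nonneg (mul_nonneg (by norm_num) (div_nonneg (l0 i) hKpos.le)) (abs_nonneg _)
  have hlow : ∀ x y, G.Reachable x y → ρ y ≤ ρ x → gd G w x y ≤ 100000 * C * δ x y := by
    intro x y hxy hρ
    have t0 : ∀ r : Fin 3, 0 ≤ ∑ i : Fin m, ∑ u : (Fin 4 × (V → Bool)),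
        1 / 9 * (l i / K) * |Ψ r i u x - Ψ r i u y| := fun r =>
      Finset.sum_nonneg fun i _ => Finset.sum_nonneg fun u _ => hterm r i u x y
    have t1 : ∀ r : Fin 3, ∑ i : Fin m, ∑ u : (Fin 4 × (V → Bool)), 1 / 9 * (l i / K) * |Ψ r i u x - Ψ r i u y| ≤
        ∑ r : Fin 3, ∑ i : Fin m, ∑ u : (Fin 4 × (V → Bool)), 1 / 9 * (l i / K) * |Ψ r i u x - Ψ r i u y| :=
      fun r => Finset.single_le_sum (f := fun r : Fin 3 => ∑ i : Fin m, ∑ u : (Fin 4 × (V → Bool)),
        1 / 9 * (l i / K) * |Ψ r i u x - Ψ r i u y|) (fun r _ => t0 r) (Finset.mem_univ r)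
    have t2 : 0 ≤ ∑ r : Fin 3, ∑ i : Fin m, ∑ u : (Fin 4 × (V → Bool)),
        1 / 9 * (l i / K) * |Ψ r i u x - Ψ r i u y| := Finset.sum_nonneg fun r _ => t0 r
    have e1 := abs_nonneg (g x - g y)
    have e2 := abs_nonneg (ρ x - ρ y)
    have hδ0 : 0 ≤ δ x y := by rw [hδ]; linarith
    have p1 : |g x - g y| ≤ 3 * δ x y := by rw [hδ]; linarith
    have p2 : |ρ x - ρ y| ≤ 3 * δ x y := by rw [hδ]; linarith
    have hCδ : δ x y ≤ C * δ x y := le_mul_of_one_le_left hδ0 hC
    have hfin : ρ x ≤ 21504 * (C * δ x y) → gd G w x y ≤ 100000 * C * δ x y := by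
      intro hρx
      have := final (A := A) hw hgd hg hA hxy (by rw [← hρdef]; exact hρ)
      rw [← hρdef] at this
      linarith
    rcases (hρ0 x).eq_or_lt with hx0 | hx0
    · apply hfin
      rw [← hx0]
      linarith
    obtain ⟨j, hj⟩ : ∃ j, j = Int.log 2 (ρ x) := ⟨_, rfl⟩
    have hp := two_zpow_pos j
    have hlt : ρ x < (2 : ℝ) ^ j * 2 := by
      have h3 : ρ x < ((2 : ℕ) : ℝ) ^ (Int.log 2 (ρ x) + 1) :=
        Int.lt_zpow_succ_log_self (by norm_num) (ρ x)
      push_cast at h3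
      rwa [← hj, zpow_add_one₀ (by norm_num : (2 : ℝ) ≠ 0)] at h3
    have hge : (2 : ℝ) ^ j ≤ ρ x := by
      have h3 : ((2 : ℕ) : ℝ) ^ (Int.log 2 (ρ x)) ≤ ρ x :=
        Int.zpow_log_le_self (by norm_num) hx0
      push_cast at h3
      rwa [← hj] at h3
    by_cases hbig : |ρ x - ρ y| ≤ (2 : ℝ) ^ j / 2
    swap
    · apply hfin
      rw [not_le] at hbig
      linarith
    have hy2 : (2 : ℝ) ^ (Int.log 2 (ρ x)) / 2 ≤ ρ y := by
      have := le_abs_self (ρ x - ρ y)
      rw [← hj]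
      linarith
    have hx2 : (2 : ℝ) ^ (Int.log 2 (ρ x)) / 2 ≤ ρ x := by
      rw [← hj]
      linarith
    -- the class of `j`
    obtain ⟨r, hr⟩ : ∃ r : Fin 3, Int.log 2 (ρ x) % 3 = ((r : ℕ) : ℤ) := by
      have a1 := Int.emod_nonneg (Int.log 2 (ρ x)) (by norm_num : (3 : ℤ) ≠ 0)
      have a2 := Int.emod_lt_of_pos (Int.log 2 (ρ x)) (by norm_num : (0 : ℤ) < 3)
      refine ⟨⟨(Int.log 2 (ρ x) % 3).toNat, by omega⟩, ?_⟩
      simp only
      omega
    have hH : ∑ i : Fin m, ∑ u : (Fin 4 × (V → Bool)), l i / K * |h i j u x - h i j u y| ≤ 168 * δ x y := by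
      have b1 : ∀ i u, |h i j u x - h i j u y| ≤
          18 * |Ψ r i u x - Ψ r i u y| + 2 * |ρ x - ρ y| := by
        intro i u
        have c1 := sum_class hx0 le_rfl hx2 (hJ x) (fun j => h i j u x) hr
        have c2 := sum_class hx0 hρ hy2 (hJ x) (fun j => h i j u y) hr
        rw [hΨ, hΨ, c1, c2, ← hj, ← sub_div, abs_div, abs_of_pos (by norm_num : (0 : ℝ) < 18)]
        have c3 : tj j (ρ x) = 1 := by rw [hj]; exact tj_one hx0
        rw [c3, one_mul]
        have c4 := tj_lip j (ρ x) (ρ y)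
        rw [c3] at c4
        have c5 := one_scale (a := h i j u x) (b := h i j u y) (t := tj j (ρ y))
        have c6 := mul_le_mul_of_nonneg_left (h0 i j u y) (abs_nonneg (1 - tj j (ρ y)))
        have c7 : 18 * (|h i j u x - tj j (ρ y) * h i j u y| / 18) =
            |h i j u x - tj j (ρ y) * h i j u y| := by ring
        rw [c7]
        linarith
      have b2 : ∑ i : Fin m, ∑ u : (Fin 4 × (V → Bool)), l i / K * |h i j u x - h i j u y| ≤
          162 * (∑ i : Fin m, ∑ u : (Fin 4 × (V → Bool)), 1 / 9 * (l i / K) * |Ψ r i u x - Ψ r i u y|) +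
            2 * |ρ x - ρ y| * ∑ i : Fin m, ∑ u : (Fin 4 × (V → Bool)), l i / K := by
        rw [Finset.mul_sum, Finset.mul_sum, ← Finset.sum_add_distrib]
        refine Finset.sum_le_sum fun i _ => ?_
        rw [Finset.mul_sum, Finset.mul_sum, ← Finset.sum_add_distrib]
        refine Finset.sum_le_sum fun u _ => ?_
        have := mul_le_mul_of_nonneg_left (b1 i u) (div_nonneg (l0 i) hKpos.le)
        linarith
      have b3 : ∑ i : Fin m, ∑ u : (Fin 4 × (V → Bool)), l i / K = 1 := by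
        have : ∀ i : Fin m, ∑ u : (Fin 4 × (V → Bool)), l i / K = l i := by
          intro i
          rw [Finset.sum_const, Finset.card_univ, nsmul_eq_mul, ← hK]
          field_simp
        rw [Finset.sum_congr rfl fun i _ => this i, l1]
      rw [b3, mul_one] at b2
      have b4 := t1 r
      have b5 : 162 * (∑ i : Fin m, ∑ u : (Fin 4 × (V → Bool)), 1 / 9 * (l i / K) * |Ψ r i u x - Ψ r i u y|) ≤
          162 * δ x y := by
        rw [hδ]
        linarith
      linarith
    by_cases hc : (rm G A).Reachable x y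
    · have hcc : (rm G A).connectedComponentMk x = (rm G A).connectedComponentMk y :=
        SimpleGraph.ConnectedComponent.sound hc
      have d1 := avg_lower hKpos l0 (F := fun i u => |h i j u x - h i j u y|)
        (X := fun i => min |k i x - k i y| ((2 : ℝ) ^ j)) (fun i => h3 i j x y hcc)
      have d2 : ∀ i, |k i x - k i y| ≤ gd (rm G A) w x y := fun i => lip_gd hw' (k1 i) hc
      have d3 := k2 x y hc
      have d4 := gd_mono hw (rm_le G A) hc
      have d5 := gd_nonneg hw x y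
      obtain ⟨D', hD'⟩ : ∃ D', D' = gd (rm G A) w x y := ⟨_, rfl⟩
      rw [← hD'] at d2 d3 d4
      rcases le_or_gt D' ((2 : ℝ) ^ j) with hle | hlt2
      · have d6 : ∑ i, l i * min |k i x - k i y| ((2 : ℝ) ^ j) = ∑ i, l i * |k i x - k i y| :=
          Finset.sum_congr rfl fun i _ => by rw [min_eq_left ((d2 i).trans hle)]
        rw [d6] at d1
        have d7 : ∑ i, l i * |k i x - k i y| ≤ 64 * (168 * δ x y) := by linarith
        have d8 := mul_le_mul_of_nonneg_left d7 (by linarith : (0 : ℝ) ≤ C)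
        have d9 : C * (64 * (168 * δ x y)) = 10752 * (C * δ x y) := by ring
        rw [d9] at d8
        have d10 : 0 ≤ C * δ x y := hδ0.trans hCδ
        have d11 : 100000 * C * δ x y = 100000 * (C * δ x y) := by ring
        rw [d11]
        linarith
      · apply hfin
        have hD0 : 0 < D' := hp.trans hlt2
        have d6 : ∀ i, |k i x - k i y| * ((2 : ℝ) ^ j / D') ≤
            min |k i x - k i y| ((2 : ℝ) ^ j) := by
          intro i
          have hk := abs_nonneg (k i x - k i y)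
          apply le_min
          · have : (2 : ℝ) ^ j / D' ≤ 1 := (div_le_one hD0).2 hlt2.le
            exact (mul_le_mul_of_nonneg_left this hk).trans (mul_one _).le
          · have : |k i x - k i y| * ((2 : ℝ) ^ j / D') = |k i x - k i y| / D' * (2 : ℝ) ^ j := by
              ring
            rw [this]
            have h' : |k i x - k i y| / D' ≤ 1 := (div_le_one hD0).2 (d2 i)
            exact (mul_le_mul_of_nonneg_right h' hp.le).trans (one_mul _).le
        have d7 : (∑ i, l i * |k i x - k i y|) * ((2 : ℝ) ^ j / D') ≤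
            ∑ i, l i * min |k i x - k i y| ((2 : ℝ) ^ j) := by
          rw [Finset.sum_mul]
          refine Finset.sum_le_sum fun i _ => ?_
          rw [mul_assoc]
          exact mul_le_mul_of_nonneg_left (d6 i) (l0 i)
        have d8 := mul_le_mul_of_nonneg_right d3 (div_pos hp hD0).le
        have d9 : D' * ((2 : ℝ) ^ j / D') = (2 : ℝ) ^ j := by field_simp
        rw [d9, mul_assoc] at d8
        have d10 : (∑ i, l i * |k i x - k i y|) * ((2 : ℝ) ^ j / D') ≤ 64 * (168 * δ x y) := by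
          linarith
        have d11 := mul_le_mul_of_nonneg_left d10 (by linarith : (0 : ℝ) ≤ C)
        have d12 : C * (64 * (168 * δ x y)) = 10752 * (C * δ x y) := by ring
        rw [d12] at d11
        linarith
    · apply hfin
      have hcc : (rm G A).connectedComponentMk x ≠ (rm G A).connectedComponentMk y := by
        intro he
        exact hc (SimpleGraph.ConnectedComponent.exact he)
      have d1 := avg_lower hKpos l0 (F := fun i u => |h i j u x - h i j u y|)
        (X := fun i => (2 : ℝ) ^ j) (fun i => h2 i j x y hcc)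
      rw [← Finset.sum_mul, l1, one_mul] at d1
      linarith
  -- the new family
  refine lipW_of_fintype (I := Bool ⊕ (Fin 3 × (Fin m × (Fin 4 × (V → Bool)))))
    (fun s => s.elim (fun _ => 1 / 3) (fun v => 1 / 9 * (l v.2.1 / K)))
    (fun s => s.elim (fun b => if b then g else ρ) (fun v => Ψ v.1 v.2.1 v.2.2)) ?_ ?_ ?_ ?_
  · rintro (b | v)
    · norm_num
    · exact mul_nonneg (by norm_num) (div_nonneg (l0 _) hKpos.le)
  · rw [Fintype.sum_sum_type]
    simp only [Sum.elim_inl, Sum.elim_inr, Fintype.sum_prod_type]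
    rw [Fintype.sum_bool]
    have b3 : ∀ i : Fin m, ∑ u : (Fin 4 × (V → Bool)), 1 / 9 * (l i / K) = 1 / 9 * l i := by
      intro i
      rw [Finset.sum_const, Finset.card_univ, nsmul_eq_mul, ← hK]
      field_simp
    have b4 : ∀ i : Fin m, ∑ a : Fin 4, ∑ b : V → Bool, 1 / 9 * (l i / K) = 1 / 9 * l i := by
      intro i
      rw [← b3 i, Fintype.sum_prod_type]
    simp only [b4]
    rw [← Finset.mul_sum, l1, Finset.sum_const, Finset.card_univ, Fintype.card_fin]
    norm_num
  · rintro (b | v) x y hxy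
    · cases b
      · exact hρlip x y hxy
      · exact hg x y hxy
    · exact hΨlip _ _ _ x y hxy
  · have htot : ∀ x y, ∑ s : Bool ⊕ (Fin 3 × (Fin m × (Fin 4 × (V → Bool)))),
        (s.elim (fun _ => (1 / 3 : ℝ)) (fun v => 1 / 9 * (l v.2.1 / K))) *
        |(s.elim (fun b => if b then g else ρ) (fun v => Ψ v.1 v.2.1 v.2.2) : V → ℝ) x -
          (s.elim (fun b => if b then g else ρ) (fun v => Ψ v.1 v.2.1 v.2.2) : V → ℝ) y| =
        δ x y := by
      intro x y
      rw [Fintype.sum_sum_type, hδ]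
      simp only [Sum.elim_inl, Sum.elim_inr, Fintype.sum_prod_type]
      rw [Fintype.sum_bool]
      simp
    intro x y hxy
    rw [htot]
    rcases le_total (ρ y) (ρ x) with h' | h'
    · exact hlow x y hxy h'
    · have h4 := hlow y x hxy.symm h'
      have h5 : δ y x = δ x y := by
        rw [hδ, hδ]
        simp only [abs_sub_comm (g y), abs_sub_comm (ρ y), abs_sub_comm (Ψ _ _ _ y)]
      rw [gd_comm hw, h5] at h4
      exact h4

end TwoSum
end
end

section
set_option linter.all false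

/-!
# Module NEC: necessity of root-exactness
-/

noncomputable section

namespace TwoSum

open KSum52

namespace NECM

variable {V : Type} [Fintype V]

lemma gd_pos {G : SimpleGraph V} {w : Sym2 V → ℝ} (hw : Pos G w) {x y : V} (hne : x ≠ y)
    (h : G.Reachable x y) : 0 < gd G w x y := by
  obtain ⟨W, hW⟩ := exists_gd hw h
  rw [← hW]
  cases W with
  | nil => exact absurd rfl hne
  | cons hadj p =>
    rw [wl_cons]
    exact add_pos_of_pos_of_nonneg (hw.adj hadj) (wl_nonneg hw p)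

/-- the weights given by the distances -/
def dw (G : SimpleGraph V) (w : Sym2 V → ℝ) (hw : Pos G w) : Sym2 V → ℝ :=
  Sym2.lift ⟨gd G w, fun x y => gd_comm hw x y⟩

lemma dw_mk {G : SimpleGraph V} {w : Sym2 V → ℝ} (hw : Pos G w) (x y : V) :
    dw G w hw s(x, y) = gd G w x y := rfl

lemma dw_pos {G : SimpleGraph V} {w : Sym2 V → ℝ} (hw : Pos G w) : Pos G (dw G w hw) := by
  intro e
  induction e using Sym2.ind with
  | h x y =>
    intro he
    rw [SimpleGraph.mem_edgeSet] at he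
    rw [dw_mk]
    exact gd_pos hw he.ne he.reachable

lemma gd_dw {G : SimpleGraph V} {w : Sym2 V → ℝ} (hw : Pos G w) {x y : V} (h : G.Reachable x y) :
    gd G (dw G w hw) x y = gd G w x y := by
  have h1 : ∀ {x y : V} (W : G.Walk x y), wl (dw G w hw) W ≤ wl w W := by
    intro x y W
    induction W with
    | nil => simp
    | cons hadj p ih =>
      rw [wl_cons, wl_cons, dw_mk]
      exact add_le_add (gd_adj hw hadj) ih
  have h2 : ∀ {x y : V} (W : G.Walk x y), gd G w x y ≤ wl (dw G w hw) W := by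
    intro x y W
    induction W with
    | nil => rw [gd_self hw]; simp
    | cons hadj p ih =>
      rw [wl_cons, dw_mk]
      exact (gd_tri hw hadj.reachable ⟨p⟩).trans (add_le_add le_rfl ih)
  apply le_antisymm
  · obtain ⟨W, hW⟩ := exists_gd hw h
    rw [← hW]
    exact (gd_le (dw_pos hw) W).trans (h1 W)
  · obtain ⟨W, hW⟩ := exists_gd (dw_pos hw) h
    rw [← hW]
    exact h2 W

/-- an `ℓ₁` semimetric which is bounded on reachable pairs may be assumed to be bounded -/
lemma bounded {G : SimpleGraph V} {M : ℝ} :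
    ∃ B : ℝ, ∀ δ : V → V → ℝ, IsL1 δ → (∀ x y, G.Reachable x y → δ x y ≤ M) →
      ∃ δ' : V → V → ℝ, IsL1 δ' ∧ (∀ x y, δ' x y ≤ B) ∧
        ∀ x y, G.Reachable x y → δ' x y = δ x y := by
  classical
  let π : G.ConnectedComponent → V → V := fun c x => if G.connectedComponentMk x = c then x else c.out
  have hπ : ∀ c x, G.connectedComponentMk (π c x) = c := by
    intro c x
    by_cases h : G.connectedComponentMk x = c
    · simp only [π, if_pos h]; exact h
    · simp only [π, if_neg h]; exact Quot.out_eq c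
  refine ⟨∑ c : G.ConnectedComponent, M, fun δ hδ hM => ?_⟩
  refine ⟨fun x y => ∑ c : G.ConnectedComponent, δ (π c x) (π c y),
    IsL1.sum Finset.univ (fun c _ => hδ.comp (π c)), fun x y => ?_, fun x y hxy => ?_⟩
  · refine Finset.sum_le_sum fun c _ => hM _ _ ?_
    rw [← SimpleGraph.ConnectedComponent.eq, hπ, hπ]
  · have hc : G.connectedComponentMk x = G.connectedComponentMk y :=
      SimpleGraph.ConnectedComponent.eq.2 hxy
    show ∑ c : G.ConnectedComponent, δ (π c x) (π c y) = δ x y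
    rw [Finset.sum_eq_single (G.connectedComponentMk x)]
    · simp only [π, if_pos, hc]
    · intro c _ hne
      have h1 : π c x = c.out := by simp only [π]; rw [if_neg fun h => hne h.symm]
      have h2 : π c y = c.out := by simp only [π]; rw [if_neg fun h => hne (h.symm.trans hc.symm)]
      rw [h1, h2, hδ.self]
    · intro h; exact absurd (Finset.mem_univ _) h

end NECM

open NECM in
theorem specNEC (hTOW : SpecTOW) (hCLO : SpecCLO) : SpecNEC := by
  intro F D hE
  rw [rootExact_iff]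
  intro n G hG w hw p q hpq
  set v := dw G w hw with hv
  have hvp : Pos G v := dw_pos hw
  have hT : Tight G v := by
    intro x y hxy
    rw [gd_dw hw hxy.reachable]
    rfl
  have hvpq : 0 < v s(p, q) := hvp.adj hpq
  obtain ⟨M, hM0, hM⟩ := gd_bound hvp
  obtain ⟨B, hB⟩ := bounded (G := G) (M := 2 * M)
  have h1 : ∀ k : ℕ, ∃ δ : Fin n → Fin n → ℝ, IsL1 δ ∧ (∀ x y, δ x y ≤ B) ∧
      (∀ x y, G.Adj x y → δ x y ≤ (1 + 1 / ((k : ℝ) + 1)) * v s(x, y)) ∧
      δ p q = v s(p, q) ∧ (∀ x y, G.Reachable x y → gd G w x y ≤ D * δ x y) := by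
    intro k
    have hε : (0 : ℝ) < 1 / ((k : ℝ) + 1) := by positivity
    obtain ⟨δ, hδ, h2, h3, h4⟩ := hTOW F D hE n G v p q hG hvp hT hpq _ hε
    have hδpq : v s(p, q) ≤ δ p q := by
      rw [hT p q hpq]
      exact h3 p q hpq.reachable
    have hδ0 : 0 < δ p q := lt_of_lt_of_le hvpq hδpq
    set c : ℝ := v s(p, q) / δ p q with hc
    have hc0 : 0 < c := div_pos hvpq hδ0
    have hcd : c * δ p q = v s(p, q) := by rw [hc]; field_simp
    have hL : IsL1 (fun x y => c * δ x y) := hδ.smul hc0.le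
    have hup : ∀ x y, G.Adj x y → c * δ x y ≤ (1 + 1 / ((k : ℝ) + 1)) * v s(x, y) := by
      intro x y hxy
      have h5 := mul_le_mul_of_nonneg_left (h2 x y hxy) hc0.le
      refine h5.trans (le_of_eq ?_)
      have h6 : c * (δ p q / v s(p, q)) = 1 := by rw [hc]; field_simp
      calc c * ((1 + 1 / ((k : ℝ) + 1)) * (δ p q / v s(p, q)) * v s(x, y)) =
          (c * (δ p q / v s(p, q))) * ((1 + 1 / ((k : ℝ) + 1)) * v s(x, y)) := by ring
        _ = _ := by rw [h6, one_mul]
    have hlow : ∀ x y, G.Reachable x y → gd G w x y ≤ D * (c * δ x y) := by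
      intro x y hxy
      rw [← gd_dw hw hxy]
      refine (h3 x y hxy).trans ?_
      have h5 := h4 p q hpq
      have h6 : 1 ≤ D * c := by
        have : δ p q * 1 ≤ δ p q * (D * c) := by
          rw [mul_one]
          calc δ p q ≤ D * v s(p, q) := h5
            _ = δ p q * (D * c) := by rw [← hcd]; ring
        exact le_of_mul_le_mul_left this hδ0
      have h7 := mul_le_mul_of_nonneg_right h6 (hδ.nonneg x y)
      linarith
    obtain ⟨δ', hδ', hB', heq⟩ := hB _ hL (fun x y hxy => by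
      have h5 := hL.le_gd (L := 2) hvp (fun a b hab => (hup a b hab).trans ?_) hxy
      · have := hM x y
        linarith
      · refine mul_le_mul_of_nonneg_right ?_ (hvp.adj hab).le
        have : 1 / ((k : ℝ) + 1) ≤ 1 := by
          rw [div_le_one (by positivity)]
          have : (0 : ℝ) ≤ k := Nat.cast_nonneg k
          linarith
        linarith)
    refine ⟨δ', hδ', hB', fun x y hxy => ?_, ?_, fun x y hxy => ?_⟩
    · rw [heq x y hxy.reachable]
      exact hup x y hxy
    · rw [heq p q hpq.reachable]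
      exact hcd
    · rw [heq x y hxy]
      exact hlow x y hxy
  choose δ hδ hδB hδ1 hδ2 hδ3 using h1
  obtain ⟨ρ, φ, hρ, hφ, ht⟩ := hCLO (Fin n) δ B hδ hδB
  have hφt : Filter.Tendsto φ Filter.atTop Filter.atTop := hφ.tendsto_atTop
  refine ⟨ρ, hρ, fun x y hxy => ?_, ?_, fun x y hxy => ?_⟩
  · have h2 : Filter.Tendsto (fun k : ℕ => (1 + 1 / ((φ k : ℝ) + 1)) * v s(x, y)) Filter.atTop
        (nhds ((1 + 0) * v s(x, y))) := by
      refine Filter.Tendsto.mul_const _ (Filter.Tendsto.const_add _ ?_)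
      exact tendsto_one_div_add_atTop_nhds_zero_nat.comp hφt
    have h3 := le_of_tendsto_of_tendsto' (ht x y) h2 (fun k => hδ1 (φ k) x y hxy)
    rw [add_zero, one_mul] at h3
    exact h3.trans (gd_adj hw hxy)
  · have h2 : Filter.Tendsto (fun k : ℕ => δ (φ k) p q) Filter.atTop (nhds (v s(p, q))) := by
      simp only [hδ2]
      exact tendsto_const_nhds
    exact tendsto_nhds_unique (ht p q) h2
  · exact ge_of_tendsto' ((ht x y).const_mul D) (fun k => hδ3 (φ k) x y hxy)

end TwoSum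
end
end

section
set_option linter.all false

/-!
# The induction claim for a piece
-/

noncomputable section

namespace TwoSum

open KSum52

namespace PCM

variable {V : Type}

lemma fre_left {d : V → V → ℝ} (hd : Met d) (p q x : V) : fre d p q p x = d p x := by
  unfold fre
  rw [hd.self p, zero_sub, abs_neg, abs_of_nonneg (hd.nonneg p x)]
  exact max_eq_left (hd.abs_sub_le q p x)

lemma fre_right {d : V → V → ℝ} (hd : Met d) (p q x : V) : fre d p q q x = d q x := by
  unfold fre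
  rw [hd.self q, zero_sub, abs_neg, abs_of_nonneg (hd.nonneg q x)]
  exact max_eq_right (hd.abs_sub_le p q x)

lemma fre_le {d : V → V → ℝ} (hd : Met d) (p q x y : V) : fre d p q x y ≤ d x y :=
  max_le (hd.abs_sub_le p x y) (hd.abs_sub_le q x y)

end PCM

theorem specPC (hSTEP : SpecSTEP) (hPM : SpecPM) (hPV : SpecPV) : SpecPC := by
  intro V _ D d w H S hD hd hP hg p q hpq c hc hc1
  obtain ⟨hpS, hqS⟩ := hP.supp p q hpq
  obtain ⟨ρ₁, ρ₂, ρ, hL1, hL2, hL, hρ, h1pq, h1d, h2pq, h2d, hlow⟩ :=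
    hPM V D d w H S hD hd hP hg p q hpq c hc hc1
  have hD0 : 0 < D := lt_of_lt_of_le one_pos hD
  have ht0 : 0 < th D := by unfold th; positivity
  have ht1 : th D ≤ 1 := by
    unfold th
    rw [div_le_one (by positivity)]
    linarith
  have hc0 : 0 < c := lt_of_lt_of_le ht0 hc
  have hle : ∀ x ∈ S, ∀ y ∈ S, ρ x y ≤ d x y := by
    intro x hx y hy
    have k1 := h1d x hx y hy
    have k2 := PCM.fre_le hd p q x y
    have k3 := h2d x hx y hy
    have k4 : ρ₁ x y / 2 + fre d p q x y / 2 ≤ d x y := by linarith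
    have k5 := mul_le_mul_of_nonneg_left k4 hc0.le
    have k6 := mul_le_mul_of_nonneg_left k3 (sub_nonneg.2 hc1)
    rw [hρ]
    linarith
  have hrpq : ρ p q = c * d p q := by
    rw [hρ, h1pq, h2pq, PCM.fre_left hd]
    ring
  refine ⟨ρ, hL, hrpq, hle, ?_, ?_, ?_⟩
  · intro x y hxy
    obtain ⟨hx, hy⟩ := hP.supp x y hxy
    exact hlow x hx y hy
  · intro r r' A B hA x y hxy
    obtain ⟨hx, hy⟩ := hP.supp x y hxy
    rw [hrpq] at hA ⊢
    have hpq0 : 0 < d p q := hd.pos p q hpq.ne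
    have z1 : ρ₂ q x = ρ₂ p x := by
      have a1 := hL2.tri q p x
      have a2 := hL2.tri p q x
      rw [hL2.comm q p] at a1
      linarith
    have z2 : ρ₂ q y = ρ₂ p y := by
      have a1 := hL2.tri q p y
      have a2 := hL2.tri p q y
      rw [hL2.comm q p] at a1
      linarith
    have e1 : ρ p x = c * (ρ₁ p x / 2 + d p x / 2) + (1 - c) * ρ₂ p x := by
      rw [hρ, PCM.fre_left hd]
    have e2 : ρ q x = c * (ρ₁ q x / 2 + d q x / 2) + (1 - c) * ρ₂ p x := by
      rw [hρ, PCM.fre_right hd, z1]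
    have e3 : ρ p y = c * (ρ₁ p y / 2 + d p y / 2) + (1 - c) * ρ₂ p y := by
      rw [hρ, PCM.fre_left hd]
    have e4 : ρ q y = c * (ρ₁ q y / 2 + d q y / 2) + (1 - c) * ρ₂ p y := by
      rw [hρ, PCM.fre_right hd, z2]
    have e5 : ρ x y = c * (ρ₁ x y / 2 + max |d p x - d p y| |d q x - d q y| / 2) +
        (1 - c) * ρ₂ x y := by
      rw [hρ]; rfl
    rw [e1, e2, e3, e4, e5]
    have tr : ∀ {δ : V → V → ℝ}, (∀ x y z, δ x z ≤ δ x y + δ y z) → (∀ x y, δ x y = δ y x) →
        ∀ u, |δ p u - δ q u| ≤ δ p q ∧ δ p q ≤ δ p u + δ q u := by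
      intro δ ht hs u
      have a1 := ht p q u
      have a2 := ht q p u
      have a3 := ht p u q
      rw [hs q p] at a2
      rw [hs u q] at a3
      refine ⟨?_, a3⟩
      rw [abs_le]
      constructor <;> linarith
    have tm : ∀ u, x ∈ S → ρ₁ x y ≤ ρ₁ u x + ρ₁ u y := by
      intro u _
      have := hL1.tri x u y
      rw [hL1.comm x u] at this
      exact this
    have tz : ρ₂ x y ≤ ρ₂ p x + ρ₂ p y := by
      have := hL2.tri x p y
      rw [hL2.comm x p] at this
      exact this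
    have d1 := tr hd.tri hd.comm x
    have d2 := tr hd.tri hd.comm y
    have r1 := tr hL1.tri hL1.comm x
    have r2 := tr hL1.tri hL1.comm y
    rw [h1pq] at r1 r2
    have hka : 0 < ka D := by unfold ka; positivity
    have hkc : ka D ≤ c / 32 := by unfold ka; linarith
    exact hSTEP c (ka D) (d p q) (d p x) (d q x) (d p y) (d q y) (ρ₁ p x) (ρ₁ q x) (ρ₁ p y)
      (ρ₁ q y) (ρ₁ x y) (ρ₂ p x) (ρ₂ p y) (ρ₂ x y) r r' A B hpq0 hc0 hc1 hka hkc d1.1 d1.2 d2.1
      d2.2 r1.1 r1.2 r2.1 r2.2 (h1d p hpS x hx) (h1d q hqS x hx) (tm p hx) (tm q hx)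
      (hL2.nonneg p x) tz hA
  · exact hPV V (th D) (ka D) (k2 D) d ρ H S ht0 ht1 rfl rfl hd hL hP.supp hle hlow

end TwoSum
end
end

section
set_option linter.all false

/-!
# The semimetric of a piece
-/

noncomputable section

namespace TwoSum

open KSum52

namespace PMM

variable {V : Type}

/-- the Fréchet semimetric of a pair is `ℓ₁` -/
lemma isL1_max (u v : V → ℝ) : IsL1 (fun x y => max |u x - u y| |v x - v y|) := by
  have h1 := (IsL1.abs (fun x => u x + v x)).smul (c := 1 / 2) (by norm_num)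
  have h2 := (IsL1.abs (fun x => u x - v x)).smul (c := 1 / 2) (by norm_num)
  refine (h1.add h2).of_eq (fun x y => ?_)
  have key : ∀ a b : ℝ, max |a| |b| = 1 / 2 * |a + b| + 1 / 2 * |a - b| := by
    intro a b
    rcases abs_cases a with ⟨h3, h4⟩ | ⟨h3, h4⟩ <;> rcases abs_cases b with ⟨h5, h6⟩ | ⟨h5, h6⟩ <;>
    rcases abs_cases (a + b) with ⟨h7, h8⟩ | ⟨h7, h8⟩ <;>
    rcases abs_cases (a - b) with ⟨h9, h10⟩ | ⟨h9, h10⟩ <;>
    rcases max_cases |a| |b| with ⟨h11, h12⟩ | ⟨h11, h12⟩ <;>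
    rw [h11] <;> linarith
  rw [key]
  congr 3 <;> ring

lemma isL1_fre (d : V → V → ℝ) (p q : V) : IsL1 (fre d p q) := isL1_max (d p) (d q)

lemma fre_le {d : V → V → ℝ} (hd : Met d) (p q x y : V) : fre d p q x y ≤ d x y :=
  max_le (hd.abs_sub_le p x y) (hd.abs_sub_le q x y)

/-- the arithmetic of the lower bound -/
lemma low {c t l s r g z : ℝ} (ht0 : 0 < t) (ht : t ≤ 1 / 8) (hc : t ≤ c) (hc1 : c ≤ 1)
    (hl : 0 ≤ l) (hs : 0 ≤ s) (hr : 8 * t * l ≤ r) (hz : 4 * t * min l s ≤ z) (hg : 0 ≤ g)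
    (hfar : s < l / 4 → l - 2 * s ≤ r ∧ l - 2 * s ≤ g) :
    t * l ≤ c * (r / 2 + g / 2) + (1 - c) * z := by
  have htl : 0 ≤ t * l := mul_nonneg ht0.le hl
  have hc0 : 0 ≤ c := ht0.le.trans hc
  rcases le_or_gt (l / 4) s with h | h
  · have hm : l / 4 ≤ min l s := le_min (by linarith) h
    have k1 : t * l ≤ z := by
      have := mul_le_mul_of_nonneg_left hm (by positivity : (0 : ℝ) ≤ 4 * t)
      linarith
    have k2 : t * l ≤ r / 2 + g / 2 := by linarith
    have k3 := mul_le_mul_of_nonneg_left k2 hc0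
    have k4 := mul_le_mul_of_nonneg_left k1 (sub_nonneg.2 hc1)
    linarith
  · obtain ⟨h1, h2⟩ := hfar h
    have hm : min l s = s := min_eq_right (by linarith)
    rw [hm] at hz
    have k2 : l - 2 * s ≤ r / 2 + g / 2 := by linarith
    have k3 := mul_le_mul_of_nonneg_left k2 hc0
    have k4 := mul_le_mul_of_nonneg_left hz (sub_nonneg.2 hc1)
    have hts : 0 ≤ t * s := mul_nonneg ht0.le hs
    have hts' : t * s ≤ 1 / 8 * s := mul_le_mul_of_nonneg_right ht hs
    have k5 : 0 ≤ l - 2 * s - 4 * (t * s) := by linarith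
    have k6 : t * (l - 2 * s - 4 * (t * s)) ≤ c * (l - 2 * s - 4 * (t * s)) :=
      mul_le_mul_of_nonneg_right hc k5
    have k7 : t * (t * s) ≤ 1 / 8 * (t * s) := mul_le_mul_of_nonneg_right ht hts
    have k8 : c * (l - 2 * s) + (1 - c) * (4 * t * s) =
        4 * (t * s) + c * (l - 2 * s - 4 * (t * s)) := by ring
    have k9 : t * (l - 2 * s - 4 * (t * s)) = t * l - 2 * (t * s) - 4 * (t * (t * s)) := by ring
    linarith

end PMM

theorem specPM (hQUO : SpecQUO) : SpecPM := by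
  intro V _ D d w H S hD hd hP hg p q hpq c hc hc1
  have hD0 : 0 < D := lt_of_lt_of_le one_pos hD
  have hw : Pos H w := hd.posw hg.edge
  obtain ⟨hpS, hqS⟩ := hP.supp p q hpq
  obtain ⟨ρ₁, hL1, h1w, h1pq, h1D⟩ := hP.re w hw p q hpq
  obtain ⟨ρ₂, hL2, h2pq, h2d, h2low⟩ := hQUO V D d w H S hD0 hd hP.re hP.supp hg p q hpq
  have h1d : ∀ x ∈ S, ∀ y ∈ S, ρ₁ x y ≤ d x y := fun x hx y hy => hg.le_d hL1 h1w hx hy
  have h1pq' : ρ₁ p q = d p q := by rw [h1pq]; exact hg.gd_eq hd hpS hqS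
  have ht0 : 0 < th D := by unfold th; positivity
  have ht8 : th D ≤ 1 / 8 := by
    unfold th
    apply one_div_le_one_div_of_le (by norm_num)
    linarith
  have htD : 8 * D * th D = 1 := by unfold th; field_simp
  have hc0 : 0 ≤ c := ht0.le.trans hc
  refine ⟨ρ₁, ρ₂, fun x y => c * (ρ₁ x y / 2 + fre d p q x y / 2) + (1 - c) * ρ₂ x y, hL1, hL2, ?_,
    fun _ _ => rfl, h1pq', h1d, h2pq, h2d, ?_⟩
  · have k1 := ((hL1.smul (c := 1 / 2) (by norm_num)).add
      ((PMM.isL1_fre d p q).smul (c := 1 / 2) (by norm_num))).smul hc0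
    have k2 := hL2.smul (sub_nonneg.2 hc1)
    refine (k1.add k2).of_eq (fun x y => ?_)
    ring
  · intro x hx y hy
    have hl : 0 ≤ d x y := hd.nonneg x y
    have hs : 0 ≤ dpq d p q x + dpq d p q y := by
      unfold dpq
      exact add_nonneg (le_min (hd.nonneg _ _) (hd.nonneg _ _))
        (le_min (hd.nonneg _ _) (hd.nonneg _ _))
    apply PMM.low ht0 ht8 hc hc1 hl hs
    · -- 8 t d ≤ ρ₁
      have k1 : d x y ≤ D * ρ₁ x y := by
        have := h1D x y (hP.conn x hx y hy)
        rw [hg.gd_eq hd hx hy] at this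
        exact this
      have k2 := mul_le_mul_of_nonneg_left k1 (by positivity : (0 : ℝ) ≤ 8 * th D)
      have k3 : 8 * th D * (D * ρ₁ x y) = (8 * D * th D) * ρ₁ x y := by ring
      rw [k3, htD, one_mul] at k2
      exact k2
    · have k1 := h2low x hx y hy
      have k2 := mul_le_mul_of_nonneg_left k1 (by positivity : (0 : ℝ) ≤ 4 * th D)
      have k3 : 4 * th D * (2 * D * ρ₂ x y) = (8 * D * th D) * ρ₂ x y := by ring
      rw [k3, htD, one_mul] at k2
      exact k2
    · exact (PMM.isL1_fre d p q).nonneg x y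
    · intro hfar
      have q1 : d x y ≤ d p x + d p y := by
        have := hd.tri x p y; rw [hd.comm x p] at this; exact this
      have q2 : d x y ≤ d q x + d q y := by
        have := hd.tri x q y; rw [hd.comm x q] at this; exact this
      -- the semimetric ρ₁
      have r1 : d p q ≤ ρ₁ p x + ρ₁ x y + ρ₁ q y := by
        have a1 := hL1.tri p x q
        have a2 := hL1.tri x y q
        rw [hL1.comm y q] at a2
        linarith
      have r2 : d p q ≤ ρ₁ q x + ρ₁ x y + ρ₁ p y := by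
        have a1 := hL1.tri q x p
        have a2 := hL1.tri x y p
        rw [hL1.comm y p] at a2
        rw [hL1.comm q p] at a1
        linarith
      have s1 := h1d p hpS x hx
      have s2 := h1d q hqS x hx
      have s3 := h1d p hpS y hy
      have s4 := h1d q hqS y hy
      have t1 : d x y ≤ d p x + d p q + d q y := by
        have a1 := hd.tri x p y
        have a2 := hd.tri p q y
        rw [hd.comm x p] at a1
        linarith
      have t2 : d x y ≤ d q x + d p q + d p y := by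
        have a1 := hd.tri x q y
        have a2 := hd.tri q p y
        rw [hd.comm x q] at a1
        rw [hd.comm q p] at a2
        linarith
      have f1 : |d p x - d p y| ≤ fre d p q x y := le_max_left _ _
      have f2 : |d q x - d q y| ≤ fre d p q x y := le_max_right _ _
      have g1 := abs_le.1 f1
      have g2 := abs_le.1 f2
      have n1 := hd.nonneg p x
      have n2 := hd.nonneg q x
      have n3 := hd.nonneg p y
      have n4 := hd.nonneg q y
      unfold dpq at hfar ⊢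
      rcases min_cases (d p x) (d q x) with ⟨e1, e2⟩ | ⟨e1, e2⟩ <;>
      rcases min_cases (d p y) (d q y) with ⟨e3, e4⟩ | ⟨e3, e4⟩ <;>
      rw [e1, e3] at hfar ⊢ <;> constructor <;> linarith [g1.1, g1.2, g2.1, g2.2]

end TwoSum
end
end
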