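import Pool.Agent.Lib.MP_2eab14_co.TwoSum.Base

set_option linter.all false

/-!
# The 2-sum theorem: specifications of the modules

Every module `X.lean` (in this folder, namespace `TwoSum`) imports only `Spec.lean` (which gives
`Defs`, `Base` and the whole library of helper52) and proves `theorem specX : SpecX`; if it uses
other modules it takes their specifications as hypotheses.  You may state and use any
private lemma.  Proofs are in the docstrings.  Use `classical`.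

Useful facts from the library (namespace `KSum52`): `IsL1.{of_eq, of_fintype, zero, abs, add, smul,
sum, comp, nonneg, self, comm, tri, restrict, exists_cuts, le_wl, le_gd}`, `cd, tot, Nn, cd_append`,
`gd_le, exists_gd, gd_nonneg, gd_self, gd_adj, gd_comm, gd_tri, gd_lip, gd_mono, gd_bound, emb_iff`,
`EmbAll.mono, emb_label, rs, rm, rs_le, rm_le, Pos.mono, Pos.adj`.
-/

noncomputable section

namespace TwoSum

open KSum52

/-! ## Constants -/

def th (D : ℝ) : ℝ := 1 / (8 * D)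
def ka (D : ℝ) : ℝ := th D / 32
def k2 (D : ℝ) : ℝ := ka D * th D / 8

/-! ## Part 1: gluing and the pieces -/

/-- [GLUE] Gluing two `ℓ₁` semimetrics which agree on the pair `s, t`.

Proof. `IsL1.exists_cuts` gives cut lists `L₁`, `L₂` (weights `≥ 0`); replacing a cut by its
complement we may assume every cut has `c s = false`.  A cut is separating if `c t = true`.
The separating cuts of `L₁` and of `L₂` have total weight `S := ρ₁ s t = ρ₂ s t`.
Take as new cuts on `V` : for separating `(a, c)` of `L₁` and `(b, c')` of `L₂` the cut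
`x ↦ if x ∈ S₁ then c x else c' x` with weight `a b / S` (the two definitions agree on
`S₁ ∩ S₂ = {s, t}`); for a nonseparating `(a, c)` of `L₁` the cut `x ↦ if x ∈ S₁ then c x
else false` with weight `a`; for a nonseparating `(b, c')` of `L₂` the cut `x ↦ if x ∈ S₂ then
c' x else false` with weight `b`.  Let `ρ` be the sum (`IsL1`, e.g. as a double sum of
`IsL1.smul` of `IsL1.abs` of indicator functions).  On `S₁` the product part gives
`∑_{a,c} a [c x ≠ c y] (∑ b) / S`, and the nonseparating cuts of `L₂` are constant (`false`) on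
`S₁` (`= false` also at `s, t`).  For `u ∈ S₁`, `x ∈ S₂`: let `α` be the weight of
the separating cuts of `L₁` with `c u = true`, `β` the same for `L₂` and `x`, `n_u`, `n_x` the
weights of the nonseparating cuts which are `true` at `u`, `x`.  Then `ρ₁ u s = α + n_u`,
`ρ₁ u t = S - α + n_u`, `ρ₂ s x = β + n_x`, `ρ₂ t x = S - β + n_x` and
`ρ u x = (α (S - β) + (S - α) β) / S + n_u + n_x`, which is the stated value (`field_simp; ring`).
A convenient way: work with `α, β, n` as sums over lists or over `Finset`s of cuts. -/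
def SpecGLUE : Prop := ∀ (V : Type) [Fintype V] (S₁ S₂ : Set V) (s t : V) (ρ₁ ρ₂ : V → V → ℝ),
  IsL1 ρ₁ → IsL1 ρ₂ → S₁ ∩ S₂ = {s, t} → 0 < ρ₁ s t → ρ₂ s t = ρ₁ s t →
  ∃ ρ : V → V → ℝ, IsL1 ρ ∧ (∀ x ∈ S₁, ∀ y ∈ S₁, ρ x y = ρ₁ x y) ∧
    (∀ x ∈ S₂, ∀ y ∈ S₂, ρ x y = ρ₂ x y) ∧
    (∀ u ∈ S₁, ∀ x ∈ S₂, ρ u x = ext (ρ₁ s t) (ρ₂ s x) (ρ₂ t x) (ρ₁ u s) (ρ₁ u t))

/-- [STEP] The one-step lemma, a statement about real numbers.  `L = d(p,q)`; `a, b` are the
`d`-distances of `x` to `p, q`, and `a', b'` those of `y`; `e, f, e', f', m` are the values of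
the root-exact semimetric `ρ₁` at `px, qx, py, qy, xy`; `z, z', zz` those of the
quotient semimetric `ρ₂` (`ρ₂ p q = 0`) at `px`, `py`, `xy`.  The semimetric of the piece is
`c (ρ₁ / 2 + g / 2) + (1 - c) ρ₂` with `g x y = max |a - a'| |b - b'|`, so `g p x = a`, `g q x = b`.

Proof.  Put `δ = (r' - r)/(c L) ∈ [-1, 1]`, and for `m ∈ {ρ₁, g}` (values `(e, f, e', f', m)`, resp.
`(a, b, a', b', g)`): `T_x = (L + e - f)/(2L)`, `n_x = (e + f - L)/2`, so `e = L T_x + n_x`,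
`f = L (1 - T_x) + n_x`, `0 ≤ T_x ≤ 1`, `n_x ≥ 0`, and the same for `y`.  Let
`Y = L + 3 n_x + n_y - m`, `E₀ = δ L (3 T_x + T_y - 1) + Y`, `E₁ = δ L (3 T_x + T_y - 3) + Y`.
The `T` of `ext (c L) P Q` is the mean of the two `T`s (the `z`-parts cancel) and its `n` is
`c (n¹ + n^g)/2 + (1 - c) z`.  Hence with `Z := 3 ext.. + ext.. - M` (the right-hand side)
`Z = [3 r + r' - c L] + (c/2) (E₀¹ + E₀^g) + (1 - c)(3 z + z' - zz)` and
`Z = [r + 3 r' - c L] + (c/2) (E₁¹ + E₁^g) + (1 - c)(3 z + z' - zz)`,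
where the last summand is `≥ 0`.  So it suffices that `(c/2)(E₀¹ + E₀^g) ≥ 4 κ a` or
`(c/2)(E₁¹ + E₁^g) ≥ 4 κ b`.
For `ρ₁`: `Y ≥ L |1 - T_x - T_y| + 2 n_x` (from `m ≤ e + e'` and `m ≤ f + f'`), so
`E₀¹ ≥ 0` if `δ ≥ 0` and `E₀¹ ≥ -2 |δ| L T_x ≥ -2 |δ| e ≥ -2 |δ| a` if `δ < 0`; symmetrically
`E₁¹ ≥ 0` if `δ ≤ 0` and `E₁¹ ≥ -2 δ b` if `δ > 0`.
For `g`: `g = L |T_x - T_y| + |n_x - n_y|`.  If `T_x ≤ T_y` then `Y ≥ L (1 - T_y + T_x) + 2 n_x`, so
`E₀^g ≥ L [(1 - T_y)(1 - δ) + T_x (1 + 3 δ)] + 2 n_x ≥ L T_x (1 + 3 δ) + 2 n_x` and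
`E₁^g ≥ L [T_x - δ (2 - 3 T_x)] + 2 n_x`.
Case `T_x ≤ T_y` (for `g`) and `δ ≥ -1/8`: `E₀¹ + E₀^g ≥ (5/8) a - (2/8) a = (3/8) a`, enough since
`κ ≤ c/32`.  Case `T_x ≤ T_y`, `δ < -1/8`: `E₁¹ ≥ 0` and, because
`T_x + |δ|(2 - 3 T_x) ≥ (1/4)(1 - T_x)` (affine in `T_x`; at `0`: `2|δ| ≥ 1/4`; at `1`: `1 - |δ| ≥ 0`),
`E₁^g ≥ (1/4) b`, enough.  The case `T_x > T_y` is symmetric (exchange `p` and `q`: `T ↦ 1 - T`,
`δ ↦ -δ`, `A ↔ B`); prove the lemma for `T_x ≤ T_y`, i.e. `a - b ≤ a' - b'`, and apply it twice. -/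
def SpecSTEP : Prop := ∀ c κ L a b a' b' e f e' f' m z z' zz r r' A B : ℝ,
  0 < L → 0 < c → c ≤ 1 → 0 < κ → κ ≤ c / 32 →
  |a - b| ≤ L → L ≤ a + b → |a' - b'| ≤ L → L ≤ a' + b' →
  |e - f| ≤ L → L ≤ e + f → |e' - f'| ≤ L → L ≤ e' + f' → e ≤ a → f ≤ b →
  m ≤ e + e' → m ≤ f + f' → 0 ≤ z → zz ≤ z + z' →
  Adm κ (c * L) r r' A B →
  4 * κ * min (A + a) (B + b) ≤
    3 * ext (c * L) (c * (e / 2 + a / 2) + (1 - c) * z) (c * (f / 2 + b / 2) + (1 - c) * z) r r' +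
    ext (c * L) (c * (e' / 2 + a' / 2) + (1 - c) * z') (c * (f' / 2 + b' / 2) + (1 - c) * z') r r' -
    (c * (m / 2 + max |a - a'| |b - b'| / 2) + (1 - c) * zz)

/-- [QUO] The quotient semimetric: an embedding in which `p` and `q` have the same image.

Proof.  `w` is positive on the edges (`Met.posw`).  Let `ε > 0` be at most `w e` for all edges `e` of
`H` (finitely many), and let `w'` be `w` except `w' s(p,q) = ε`.  `RE` (root `p q`, weights `w'`)
gives `ρ'` with `ρ' ≤ w'` on edges and `gd H w' ≤ D ρ'` on reachable pairs.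
Put `π x = if x = q then p else x` and `ρ x y = ρ' (π x) (π y) / 2` (`IsL1.comp`, `IsL1.smul`).
Then `ρ p q = 0`.  On an edge `q y`, `y ≠ p`: `2 ρ ≤ ρ' p q + ρ' q y ≤ ε + w ≤ 2 w`; on other edges
`2 ρ ≤ w`.  So `ρ ≤ w` on edges, hence `ρ ≤ d` on `S` (`Geo.le_d`).
Lower bound: for every walk `W : H.Walk x y`,
`min (d x y) (dpq d p q x + dpq d p q y) ≤ wl w' W`: induction on `W`; if the first edge `x z` is
`p q` then `dpq` vanishes at `x` and `z`, and `dpq y ≤ d z y`; otherwise `w' s(x,z) = d x z` and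
both `d x y ≤ d x z + d z y` and `dpq x ≤ d x z + dpq z`.  So the same bound holds for
`gd H w' x y`, for all `x, y ∈ S` (they are joined by a walk, `Geo.walk`).  Apply it to
`π x, π y` (`p, q ∈ S` by `Supp`): `dpq (π x) = dpq x`, and if `x = q`, `y ≠ q` the minimum for
`(p, y)` is `≥ dpq y ≥ min (d q y) (dpq q + dpq y)`, as `dpq q = 0`. -/
def SpecQUO : Prop := ∀ (V : Type) [Fintype V] (D : ℝ) (d : V → V → ℝ) (w : Sym2 V → ℝ)
  (H : SimpleGraph V) (S : Set V), 0 < D → Met d → RE D H → Supp H S → Geo d w H S →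
  ∀ p q, H.Adj p q → ∃ ρ : V → V → ℝ, IsL1 ρ ∧ ρ p q = 0 ∧ (∀ x ∈ S, ∀ y ∈ S, ρ x y ≤ d x y) ∧
    ∀ x ∈ S, ∀ y ∈ S, min (d x y) (dpq d p q x + dpq d p q y) ≤ 2 * D * ρ x y

/-- [PM] The semimetric of a piece.

Proof.  `ρ₁` from `RE` (weights `w`, root `p q`; `Geo.gd_eq`, `Geo.le_d`), so `d ≤ D ρ₁` on `S`;
`ρ₂` from `SpecQUO`.  `fre d p q` is `IsL1`: it equals
`|Δ(d p + d q)|/2 + |Δ(d p - d q)|/2` (`max |u| |v| = (|u + v| + |u - v|)/2`).
Lower bound `θ d ≤ ρ`, `θ = 1/(8 D)`: let `l = d x y`, `s = dpq x + dpq y`.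
If `s ≥ l/4`: `ρ ≥ c l/(2D) + (1 - c) min(l, s)/(2D) ≥ (l/4)/(2D) = l/(8D)`.
If `s < l/4`: `x` and `y` are not near the same root (`l ≤ d x p + d p y`), so e.g.
`dpq x = d p x`, `dpq y = d q y`; then `fre x y ≥ d p y - d p x ≥ l - 2 s` and
`ρ₁ x y ≥ ρ₁ p q - ρ₁ p x - ρ₁ q y ≥ d p q - s ≥ l - 2 s`, so
`ρ ≥ c (l - 2 s) + (1 - c) s/(2D)`, which is increasing in `c` (as `l > 4 s`) and for
`c = θ` equals `θ l + (s/D)(-1/4 + (1 - θ)/2) ≥ θ l`. -/
def SpecPM : Prop := ∀ (V : Type) [Fintype V] (D : ℝ) (d : V → V → ℝ) (w : Sym2 V → ℝ)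
  (H : SimpleGraph V) (S : Set V), 1 ≤ D → Met d → Piece D H S → Geo d w H S →
  ∀ p q, H.Adj p q → ∀ c : ℝ, th D ≤ c → c ≤ 1 → ∃ ρ₁ ρ₂ ρ : V → V → ℝ,
    IsL1 ρ₁ ∧ IsL1 ρ₂ ∧ IsL1 ρ ∧
    (∀ x y, ρ x y = c * (ρ₁ x y / 2 + fre d p q x y / 2) + (1 - c) * ρ₂ x y) ∧
    ρ₁ p q = d p q ∧ (∀ x ∈ S, ∀ y ∈ S, ρ₁ x y ≤ d x y) ∧
    ρ₂ p q = 0 ∧ (∀ x ∈ S, ∀ y ∈ S, ρ₂ x y ≤ d x y) ∧
    (∀ x ∈ S, ∀ y ∈ S, th D * d x y ≤ ρ x y)

/-- [PV] Property (V) of a piece.

Proof.  Let `a b` be an edge with data `T, n, α, β`, and `x y` an edge (all in `S`).  Put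
`E = (1 - T) d a x + T d b x`.  By the triangle inequalities the right-hand side is at least
`2 ((1 - T) ρ a x + T ρ b x) + 4 n ≥ 2 θ E + 4 n`.
Test `good` with `r = 0, r' = ρ a b, A = 0, B = d a b` (admissible: `4 κ d a b = (θ/8) d a b ≤
2 ρ a b`): since `α ≤ d a b + β`, `κ α ≤ T ρ a b + n ≤ T d a b + n`.  Symmetrically (test
`r = ρ a b, r' = 0, A = d a b, B = 0`) `κ β ≤ (1 - T) d a b + n`.  As `d a b ≤ d a x + d b x` and
`T (1 - T) (d a x + d b x) ≤ E`: `κ ((1 - T) α + T β) ≤ 2 T (1 - T) d a b + n ≤ 2 E + n`.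
Hence `4 κ₂ min(..) ≤ 4 κ₂ ((1 - T)(α + d a x) + T (β + d b x)) = (θ/2) κ (((1-T) α + T β) + E)
≤ (θ/2) (2 E + n + κ E) ≤ 2 θ E + 4 n`. -/
def SpecPV : Prop := ∀ (V : Type) (θ κ κ₂ : ℝ) (d ρ : V → V → ℝ) (H : SimpleGraph V) (S : Set V),
  0 < θ → θ ≤ 1 → κ = θ / 32 → κ₂ = κ * θ / 8 → Met d → IsL1 ρ → Supp H S →
  (∀ x ∈ S, ∀ y ∈ S, ρ x y ≤ d x y) → (∀ x ∈ S, ∀ y ∈ S, θ * d x y ≤ ρ x y) →
  VProp κ κ₂ d H ρ

/-- [PC] The induction claim for a piece.  From `SpecSTEP`, `SpecPM`, `SpecPV`.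

Proof.  Take `ρ` from `SpecPM`.  `ρ p q = c (d p q / 2 + d p q / 2)` as `fre d p q p q = d p q`;
`ρ ≤ d` on `S` since `fre ≤ d`.  (W) is `SpecSTEP` with `L = d p q`, `a = d p x`, `b = d q x`,
`e = ρ₁ p x`, `f = ρ₁ q x`, `m = ρ₁ x y`, `z = ρ₂ p x = ρ₂ q x` (as `ρ₂ p q = 0`) etc.;
`fre p x = d p x` (`|d p p - d p x| = d p x`, `|d q p - d q x| ≤ d p x`), `fre q x = d q x`;
`κ = th D/32 ≤ c/32`. -/
def SpecPC : Prop := ∀ (V : Type) [Fintype V] (D : ℝ) (d : V → V → ℝ) (w : Sym2 V → ℝ)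
  (H : SimpleGraph V) (S : Set V), 1 ≤ D → Met d → Piece D H S → Geo d w H S →
  Claim (th D) (ka D) (k2 D) d H S

/-! ## Part 2: the composition -/

/-- [DIST] A path metric of a 2-sum.

Proof.  For a walk `W : (H₁ ⊔ H₂).Walk u x` with `x ∈ S₁` prove by induction on `W`:
(a) if `u ∈ S₁` there is `W' : H₁.Walk u x` with `wl w W' ≤ wl w W`;
(b) if `u ∈ S₂` there are `v ∈ {s, t}` and `W' : H₁.Walk v x` with `d u v + wl w W' ≤ wl w W`.
`nil`: (b) `v = u`.  `cons (u ~ z) W₁`: if the edge is in `H₁`: (a) extend (a) for `z`;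
(b) `u ∈ S₁ ∩ S₂ = {s, t}`, take `v = u` and (a).  If it is in `H₂`, then `z ∈ S₂`, take `v, W'` from
(b) for `z`: (b) `d u v ≤ d u z + d z v`; (a) now `u ∈ S₁ ∩ S₂`; if `v = u` take `W'`,
otherwise `{u, v} = {s, t}`, and `u ~ v` in `H₁` with `w = d u v ≤ d u z + d z v`; prepend this edge.
By symmetry the same holds with `1` and `2` exchanged.  Walk lengths bound distances from above
(`Met.le_wl`), which gives the last clause. -/
def SpecDIST : Prop := ∀ (V : Type) (d : V → V → ℝ) (w : Sym2 V → ℝ) (H₁ H₂ : SimpleGraph V)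
  (S₁ S₂ : Set V) (s t : V), Met d → Supp H₁ S₁ → Supp H₂ S₂ → s ≠ t → S₁ ∩ S₂ = {s, t} →
  H₁.Adj s t → H₂.Adj s t → Geo d w (H₁ ⊔ H₂) (S₁ ∪ S₂) →
  Geo d w H₁ S₁ ∧ Geo d w H₂ S₂ ∧
    ∀ u ∈ S₁, ∀ x ∈ S₂, min (d u s + d s x) (d u t + d t x) ≤ d u x

/-- [CW] Composition of (W).

Proof.  Let `R z = ext (ρ p q) (ρ p z) (ρ q z) r r'`.  An edge `x y` in `H₁`: `WProp` of `H₁`.
An edge `x y` of `H₂`: first use `WProp` of `H₁` at the edges `s t` and `t s`:
with `A' = min (A + d p s) (B + d q s)`, `B' = min (A + d p t) (B + d q t)` this gives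
`Adm κ (ρ s t) (R s) (R t) A' B'` (the clauses `lip`, `tri` are `ext_lip`, `ext_tri`; `ρ` is
symmetric).  Apply `WProp` of `H₂` (root `s t`) to the edge `x y`; for `z ∈ S₂`
`ext (ρ s t) (ρ s z) (ρ t z) (R s) (R t) = R z` by `ext_comp` and the cross equation for
`p, q ∈ S₁`; and `min (A' + d s x) (B' + d t x) ≥ min (A + d p x) (B + d q x)` by the triangle
inequality. -/
def SpecCW : Prop := ∀ (V : Type) (κ : ℝ) (d ρ : V → V → ℝ) (H₁ H₂ : SimpleGraph V)
  (S₁ S₂ : Set V) (s t p q : V), 0 < κ → Met d → IsL1 ρ → Supp H₁ S₁ → Supp H₂ S₂ →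
  H₁.Adj s t → H₂.Adj s t → H₁.Adj p q → 0 < ρ s t → 0 < ρ p q →
  (∀ u ∈ S₁, ∀ x ∈ S₂, ρ u x = ext (ρ s t) (ρ s x) (ρ t x) (ρ u s) (ρ u t)) →
  WProp κ d H₁ ρ p q → WProp κ d H₂ ρ s t → WProp κ d (H₁ ⊔ H₂) ρ p q

/-- [CV] Composition of (V).  `a b` is the edge of the virtual vertex with data `T, n, α, β`,
`x y` is the target edge, `Q z = (1 - T) ρ a z + T ρ b z + n`.

Proof.  (1), (2) Both edges in `H₁`, or both in `H₂`: `VProp` of `H₁`, `H₂`.
(3) `a b` in `H₂`, `x y` in `H₁`.  With `T_v = (S + ρ s v - ρ t v)/(2 S)`,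
`n_v = (ρ s v + ρ t v - S)/2`, `S = ρ s t`, put `T' = (1 - T) T_a + T T_b`,
`n' = n + (1 - T) n_a + T n_b`, `α' = min (α + d a s) (β + d b s)`,
`β' = min (α + d a t) (β + d b t)`.  The cross equation (for `u ∈ S₁`, and `a, b ∈ S₂`) gives
`Q u = (1 - T') ρ s u + T' ρ t u + n'` for all `u ∈ S₁`.  The data `T', n', α', β'` at the edge
`s t` are `VGood`: `0 ≤ T' ≤ 1`, `n' ≥ 0`, `|α' - β'| ≤ d s t` are clear; `good`: let
`Adm κ S r r' A B`; by `WProp` of `H₂` (root `s t`) at the edges `a b` and `b a`,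
`r_a = ext S (ρ s a) (ρ t a) r r'`, `r_b` similarly, `A_a = min (A + d s a) (B + d t a)`,
`B_b = min (A + d s b) (B + d t b)` satisfy `Adm κ (ρ a b) r_a r_b A_a B_b` (`ext_lip`, `ext_tri`), so
`κ min (A_a + α) (B_b + β) ≤ (1 - T) r_a + T r_b + n = (1 - T') r + T' r' + n'`, and
`min (A + α') (B + β') ≤ min (A_a + α) (B_b + β)`.
Now `VProp` of `H₁` at `s t` for the target `x y`, and
`min (α + d a x) (β + d b x) ≤ min (α' + d s x) (β' + d t x)`.
(4) `a b` in `H₁`, `x y` in `H₂`.  `VProp` of `H₁` with the targets `s t` and `t s`: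
`4 κ₂ A₀ ≤ 3 Q s + Q t - S`, `4 κ₂ B₀ ≤ Q s + 3 Q t - S` with
`A₀ = min (α + d a s) (β + d b s)`, `B₀ = min (α + d a t) (β + d b t)`.  Also
`|Q s - Q t| ≤ S ≤ Q s + Q t`.  So `Adm κ S (Q s) (Q t) ((κ₂/κ) A₀) ((κ₂/κ) B₀)`, and `WProp` of
`H₂` (root `s t`) gives the claim, because for `z ∈ S₂` the cross equation gives
`Q z = ext S (ρ s z) (ρ t z) (Q s) (Q t)`, and
`κ min ((κ₂/κ) A₀ + d s x) ((κ₂/κ) B₀ + d t x) ≥ κ₂ min (A₀ + d s x) (B₀ + d t x) ≥
κ₂ min (α + d a x) (β + d b x)` (`κ₂ ≤ κ`). -/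
def SpecCV : Prop := ∀ (V : Type) (κ κ₂ : ℝ) (d ρ : V → V → ℝ) (H₁ H₂ : SimpleGraph V)
  (S₁ S₂ : Set V) (s t : V), 0 < κ₂ → κ₂ ≤ κ → Met d → IsL1 ρ → Supp H₁ S₁ → Supp H₂ S₂ →
  H₁.Adj s t → H₂.Adj s t → 0 < ρ s t →
  (∀ u ∈ S₁, ∀ x ∈ S₂, ρ u x = ext (ρ s t) (ρ s x) (ρ t x) (ρ u s) (ρ u t)) →
  VProp κ κ₂ d H₁ ρ → VProp κ κ₂ d H₂ ρ → WProp κ d H₂ ρ s t → VProp κ κ₂ d (H₁ ⊔ H₂) ρ

/-- [COMP] Composition of the claim.  From `SpecGLUE`, `SpecCW`, `SpecCV`.

Proof.  By symmetry (exchange the two graphs; `sup_comm`, `Set.union_comm`) let the root `p q` be an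
edge of `H₁`.  Take `ρ₁` from the claim for `H₁` (root `p q`, the given `c`), put
`c' = ρ₁ s t / d s t ∈ [θ, 1]`, take `ρ₂` from the claim for `H₂` (root `s t`, `c'`), so
`ρ₂ s t = ρ₁ s t`, and glue (`SpecGLUE`).  All clauses of the claim for `H₁`, `H₂` only involve points
of `S₁`, resp. `S₂` (`Supp`), so they hold for the glued `ρ`.  `ρ ≤ d` for `u ∈ S₁`, `x ∈ S₂`:
`ρ u x ≤ ρ u s + ρ s x ≤ d u s + d s x` and the same for `t`.  Then `SpecCW`, `SpecCV`. -/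
def SpecCOMP : Prop := ∀ (V : Type) [Fintype V] (θ κ κ₂ : ℝ) (d : V → V → ℝ)
  (H₁ H₂ : SimpleGraph V) (S₁ S₂ : Set V) (s t : V), 0 < θ → 0 < κ₂ → κ₂ ≤ κ → Met d →
  Supp H₁ S₁ → Supp H₂ S₂ → s ≠ t → S₁ ∩ S₂ = {s, t} → H₁.Adj s t → H₂.Adj s t →
  (∀ u ∈ S₁, ∀ x ∈ S₂, min (d u s + d s x) (d u t + d t x) ≤ d u x) →
  Claim θ κ κ₂ d H₁ S₁ → Claim θ κ κ₂ d H₂ S₂ → Claim θ κ κ₂ d (H₁ ⊔ H₂) (S₁ ∪ S₂)

/-- [BE] Every graph built from pieces embeds.  From `SpecPC`, `SpecDIST`, `SpecCOMP`.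

Proof.  `Built (Piece D) H S` implies (induction) `Supp H S`, `∀ x ∈ S, ∀ y ∈ S, H.Reachable x y`,
`∀ x ∈ S, ∃ y, H.Adj x y`, and, for every metric `d` and weights `w` with `Geo d w H S`,
`Claim (th D) (ka D) (k2 D) d H S` (`SpecDIST` passes `Geo` to the two parts; `0 < k2 D ≤ ka D`).
`EmbAll`: given positive weights `w₀` on `H` let `M` bound `gd H w₀` (`gd_bound`) and put
`d x y = if x = y then 0 else if x ∈ S ∧ y ∈ S then gd H w₀ x y else M`, a metric (`gd` is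
positive for `x ≠ y` in `S`), and weights `w` with `w s(x,y) = d x y`
(e.g. `Sym2.lift`).  `Geo d w H S` : a shortest `w₀`-walk has `w`-length `≤` its `w₀`-length,
since `w ≤ w₀` on edges.  If `H` has no edge, `S` is empty and `H = ⊥` (`embAll_bot`).
Otherwise choose a root edge and `c = 1` (`th D ≤ 1`), get `ρ`.  For `x, y ∈ S` choose an edge
`x b` and an edge `y z`; the data `T = 0, n = 0, α = 0, β = d x b` at `x b` are `VGood`:
`4 κ A ≤ 3 r + r' - ρ x b ≤ 4 r`.  (V) gives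
`4 κ₂ d x y ≤ 3 ρ x y + ρ x z - ρ y z ≤ 4 ρ x y`.  So `κ₂ d ≤ ρ ≤ d` on `S`; the semimetric
`ρ/κ₂` proves `Emb H w₀ (1/κ₂)` (`emb_iff`; reachable pairs are equal or in `S`). -/
def SpecBE : Prop := ∀ (V : Type) [Fintype V] (D : ℝ) (H : SimpleGraph V) (S : Set V), 1 ≤ D →
  Built (Piece D) H S → EmbAll H (1 / k2 D)

/-! ## Part 3: from the closure to `Built` -/

/-- [RMAP] Root-exactness under relabelling, under restriction to a union of components, and for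
triangles.

Proof.  (1) As `KSum52.embAll_map` (Main.lean): pull back `w` to `fun e => w (e.map φ)`, take the
semimetric on `W` and extend it to `V` by a left inverse of `φ`; the distances of `G.map φ` between
`φ a` and `φ b` equal those of `G` (map walks; conversely the walks of `G.map φ` between points
of the range come from `G`), and reachable pairs are equal or in the range.
(2) Extend the weights of `rs H C` by `1` to the other edges of `H`; `C` is closed under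
adjacency, so walks of `H` from a point of `C` stay in `C` and are walks of `rs H C`.
(3) Let `H` be the triangle; root `p q`, third vertex `z` (`{p, q, z} = {a, b, c}`).  With
`g = gd H w` take `ρ x y = max |g p x - g p y| |g q x - g q y|`
(`IsL1`, see [PM]; it is `≤ w` on edges by `gd_lip`) and `ρ x y = g x y` for
`x, y ∈ {p, q, z}`; any two different reachable vertices are in `{a, b, c}`. -/
def SpecRMAP : Prop :=
  (∀ (W V : Type) [Fintype W] [Fintype V] (D : ℝ) (G : SimpleGraph W) (φ : W ↪ V), RE D G →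
    RE D (G.map φ)) ∧
  (∀ (V : Type) [Fintype V] (D : ℝ) (H : SimpleGraph V) (C : Set V),
    (∀ x y, H.Adj x y → x ∈ C → y ∈ C) → RE D H → RE D (rs H C)) ∧
  (∀ (V : Type) [Fintype V] (D : ℝ) (a b c : V) (H : SimpleGraph V), 1 ≤ D → a ≠ b → b ≠ c → a ≠ c →
    (∀ x y, H.Adj x y ↔ x ≠ y ∧ x ∈ ({a, b, c} : Set V) ∧ y ∈ ({a, b, c} : Set V)) → RE D H)

/-- [BLT] Every component of a graph of `⊕₂ F` is a subgraph of a graph built from pieces.
From `SpecRMAP`.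

Proof.  Induction on `Clos 2 F n G`; for the induction prove for every embedding `φ : Fin n ↪ V`
(`V : Type` finite, `D` fixed) and `v ∈ Set.range φ`, with `H = G.map φ` and
`C = {x | H.Reachable v x}` : either `C ⊆ {v}`, or there are `H', S'` with
`Built (Piece D) H' S'`, `C ⊆ S' ⊆ Set.range φ` and `rs H C ≤ H'`.
Piece: if `C ≠ {v}` take `H' = rs H C`, `S' = C` (`SpecRMAP` 1, 2).
Glue: `G ≤ G₁.map φ₁ ⊔ G₂.map φ₂`, put `ψᵢ = φᵢ.trans φ`, `Hᵢ = Gᵢ.map ψᵢ`,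
`H⁺ = H₁ ⊔ H₂ ≥ H`; it suffices to treat `C⁺`, the component of `v` in `H⁺` (`C ⊆ C⁺`, `rs H C ≤
rs H⁺ C⁺`).  By symmetry let `v ∈ range ψ₁`, `C₁` its component in `H₁`.  If `C₁` does not meet
`range ψ₂`, then `C⁺ = C₁`.  Otherwise choose `s ∈ C₁ ∩ range ψ₂` and let `C₂` be the component of
`s` in `H₂`.  Any other common vertex of the ranges is adjacent to `s` in both graphs, so it lies
in `C₁` and `C₂`, and `C⁺ = C₁ ∪ C₂`, and `rs H⁺ C⁺ ≤ rs H₁ C₁ ⊔ rs H₂ C₂`.  Induction gives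
`H₁', S₁'` and `H₂', S₂'` (if one is trivial, the other is the answer).
`S₁' ∩ S₂'` is contained in the intersection of the ranges (at most 2 points) and contains `s`.
If it is `{s, t}`, `t ≠ s`, then `s t` is an edge of both (it is an edge of `G₁.map`, `G₂.map` by
`IsSum.clique`, inside `Cᵢ`), and `Built.glue` applies.  If it is `{s}`: choose neighbours `s₁ ∈ S₁'` of
`s` in `H₁'` and `s₂ ∈ S₂'` of `s` in `H₂'` (`Built (Piece D)` graphs have a neighbour for every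
vertex), let `T` be the triangle graph on `{s, s₁, s₂}` (`SpecRMAP` 3; a `Piece`), and glue `H₁'` and
`T` along `s s₁`, the result and `H₂'` along `s s₂`.  (Use `1 ≤ D`.) -/
def SpecBLT : Prop := ∀ (F : Family) (D : ℝ), 1 ≤ D →
  (∀ (n : ℕ) (G : SimpleGraph (Fin n)), F n G → RE D G) →
  ∀ (n : ℕ) (G : SimpleGraph (Fin n)), Clos 2 F n G → ∀ v : Fin n,
    (∀ x, G.Reachable v x → x = v) ∨ ∃ (H' : SimpleGraph (Fin n)) (S' : Set (Fin n)),
      Built (Piece D) H' S' ∧ rs G {x | G.Reachable v x} ≤ H'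

/-- [IF] Root-exact families have `c₁(⊕₂ F) < ∞`.  From `SpecBE`, `SpecBLT`.

Proof.  `rootExact_iff`, `RE.mono` (make `1 ≤ D`); `emb_label` with the label
`G.connectedComponentMk`; for each component `rs G {x | mk x = i}` is a subgraph of `H'`
(`EmbAll.mono`, `SpecBE`) or has no edge (`embAll_bot`). -/
def SpecIF : Prop := ∀ (F : Family) (D : ℝ), RootExact F D → ∃ D', Embeds (Clos 2 F) D'

/-! ## Part 4: necessity of root-exactness -/

/-- [ISO] Isometric gluing of two weighted graphs along edges of equal length.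

Proof.  Let `X = Fin N ⊕ {z : Fin n // z ≠ p ∧ z ≠ q}`, `N' = card X`, `e : X ≃ Fin N'`,
`φ₁ = e ∘ inl`, `φ₂ z = e (inl s)` if `z = p`, `e (inl t)` if `z = q`, `e (inr z)` otherwise.
`range φ₁ ∩ range φ₂ = {φ₁ s, φ₁ t}`.  Define `w'` on the edges of `G' = G.map φ₁ ⊔ H.map φ₂`
by `w` and `v` (they agree on the common edge; e.g. `w' (e) = w (e')` if `e = e'.map φ₁` for an
edge `e'` of `G`, else `v (e')` if `e = e'.map φ₂`, `e'` an edge of `H`, else `1`).
Distances: fix `x : Fin N`.  The function `f` with `f (φ₁ z) = gd G w x z` and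
`f (φ₂ z) = min (gd G w x s + gd H v p z) (gd G w x t + gd H v q z)` is well defined (at the
two common vertices both are `gd G w x s`, resp. `gd G w x t`, because `|gd x s - gd x t| ≤
w s(s,t) = gd H v p q`, even if `x` does not reach `s`, when both are `0`) and satisfies
`|f a - f b| ≤ w' s(a,b)` on the edges of `G'` (also the function `gd G w x ·` is 1-Lipschitz on
all edges of `G`, being `0` outside the component of `x`).  Hence `wl w' W ≥ f b - f a` for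
every walk `W : G'.Walk a b`, and `gd G' w' (φ₁ x) (φ₁ y) ≥ gd G w x y` for reachable `x, y`.
The same with `G` and `H` exchanged.  Tightness of `w'` : `gd ≤ w'` always, and `≥` on the edges
of both parts by the distance bounds and the tightness of `w`, `v`. -/
def SpecISO : Prop := ∀ (N n : ℕ) (G : SimpleGraph (Fin N)) (w : Sym2 (Fin N) → ℝ)
  (H : SimpleGraph (Fin n)) (v : Sym2 (Fin n) → ℝ) (s t : Fin N) (p q : Fin n),
  Pos G w → Tight G w → Pos H v → Tight H v → G.Adj s t → H.Adj p q → w s(s, t) = v s(p, q) →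
  ∃ (N' : ℕ) (φ₁ : Fin N ↪ Fin N') (φ₂ : Fin n ↪ Fin N') (w' : Sym2 (Fin N') → ℝ),
    IsSum 2 G H φ₁ φ₂ ∧ φ₁ s = φ₂ p ∧ φ₁ t = φ₂ q ∧
    Pos (G.map φ₁ ⊔ H.map φ₂) w' ∧ Tight (G.map φ₁ ⊔ H.map φ₂) w' ∧
    (∀ x y, G.Adj x y → w' s(φ₁ x, φ₁ y) = w s(x, y)) ∧
    (∀ x y, H.Adj x y → w' s(φ₂ x, φ₂ y) = v s(x, y)) ∧
    (∀ x y, G.Reachable x y → gd G w x y ≤ gd (G.map φ₁ ⊔ H.map φ₂) w' (φ₁ x) (φ₁ y)) ∧
    (∀ x y, H.Reachable x y → gd H v x y ≤ gd (G.map φ₁ ⊔ H.map φ₂) w' (φ₂ x) (φ₂ y))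

/-- [COPY] Gluing a scaled copy of `H` on every edge of `G`.  From `SpecISO`.

Proof.  Prove for every finite set `L` of pairs `(s, t)` of vertices (induction on `L`) the statement with
`∀ s t, G.Adj s t` replaced by `∀ (s, t) ∈ L, G.Adj s t →`.  Empty `L`: `G' = G`, `ψ = id`.
Step: for a new pair `(s, t)`, `G.Adj s t`, glue `H` with the weights `λ v`,
`λ = w s(s,t) / v s(p,q)`, to the edge `ψ s, ψ t` of `G'` (`SpecISO`; `λ v` is positive and tight,
`gd H (λ v) = λ gd H v`); compose the embeddings.  The new graph is in `Clos 2 F` (`Clos.glue`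
without deletion). -/
def SpecCOPY : Prop := ∀ (F : Family) (N n : ℕ) (G : SimpleGraph (Fin N))
  (w : Sym2 (Fin N) → ℝ) (H : SimpleGraph (Fin n)) (v : Sym2 (Fin n) → ℝ) (p q : Fin n),
  Clos 2 F N G → F n H → Pos G w → Tight G w → Pos H v → Tight H v → H.Adj p q →
  ∃ (N' : ℕ) (G' : SimpleGraph (Fin N')) (w' : Sym2 (Fin N') → ℝ) (ψ : Fin N ↪ Fin N'),
    Clos 2 F N' G' ∧ Pos G' w' ∧ Tight G' w' ∧
    (∀ x y, G.Adj x y → G'.Adj (ψ x) (ψ y) ∧ w' s(ψ x, ψ y) = w s(x, y)) ∧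
    (∀ x y, G.Reachable x y → G'.Reachable (ψ x) (ψ y) ∧ gd G w x y ≤ gd G' w' (ψ x) (ψ y)) ∧
    ∀ s t, G.Adj s t → ∃ (φ : Fin n ↪ Fin N') (lam : ℝ), 0 < lam ∧ φ p = ψ s ∧ φ q = ψ t ∧
      (∀ x y, H.Adj x y → G'.Adj (φ x) (φ y) ∧ w' s(φ x, φ y) = lam * v s(x, y)) ∧
      (∀ x y, H.Reachable x y → G'.Reachable (φ x) (φ y) ∧
        lam * gd H v x y ≤ gd G' w' (φ x) (φ y))

/-- [TOW] Almost root-exact embeddings.  From `SpecCOPY`.

Proof.  Suppose not (for some `ε`): (A) every `IsL1` `δ` on `H` with `gd ≤ δ` on reachable pairs and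
`δ ≤ D v` on edges has an edge `x y` with `δ x y / v s(x,y) > (1 + ε) δ p q / v s(p,q)`.
Claim `Q k`: there are `N`, `G ∈ Clos 2 F`, `w` positive and tight such that every `IsL1` `δ` on
`G` with `gd ≤ δ` on reachable pairs and `δ ≤ D w` on edges has an edge `x y` with
`δ x y ≥ (1 + ε)^k w s(x,y)`.  `Q 0`: `G = H` and the edge `p q`.  `Q k → Q (k+1)`: apply `SpecCOPY`
to `G`; `δ ∘ ψ` gives an edge `s t` of `G` with `δ (ψ s) (ψ t) ≥ (1 + ε)^k w s(s,t)`; the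
copy `φ` at `s t`: `δ ∘ φ / lam` is as in (A), and its `p q` ratio is that of `ψ s, ψ t`, so some
edge of the copy has ratio `≥ (1 + ε)^(k+1)`.
For `(1 + ε)^k > D` this contradicts `Embeds (Clos 2 F) D` (an embedding of `G`, `emb_iff`). -/
def SpecTOW : Prop := ∀ (F : Family) (D : ℝ), Embeds (Clos 2 F) D →
  ∀ (n : ℕ) (H : SimpleGraph (Fin n)) (v : Sym2 (Fin n) → ℝ) (p q : Fin n), F n H → Pos H v →
  Tight H v → H.Adj p q → ∀ ε : ℝ, 0 < ε → ∃ δ : Fin n → Fin n → ℝ, IsL1 δ ∧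
    (∀ x y, H.Adj x y → δ x y ≤ (1 + ε) * (δ p q / v s(p, q)) * v s(x, y)) ∧
    (∀ x y, H.Reachable x y → gd H v x y ≤ δ x y) ∧
    (∀ x y, H.Adj x y → δ x y ≤ D * v s(x, y))

/-- [CLO] Compactness.

Proof.  `IsL1.exists_cuts` and grouping equal cuts: `δ n x y = ∑ c : V → Bool, a n c [c x ≠ c y]`
with `a n c ≥ 0`, and we may take `a n c = 0` for the two constant cuts; every other cut
separates some pair, so `a n c ≤ B`.  The box `Set.pi univ (fun _ => Set.Icc 0 B)` in `(V → Bool) → ℝ` is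
compact, so a subsequence of `a` converges; the limit defines `δ'`. -/
def SpecCLO : Prop := ∀ (V : Type) [Fintype V] (δ : ℕ → V → V → ℝ) (B : ℝ),
  (∀ n, IsL1 (δ n)) → (∀ n x y, δ n x y ≤ B) → ∃ (δ' : V → V → ℝ) (φ : ℕ → ℕ), IsL1 δ' ∧
    StrictMono φ ∧ ∀ x y, Filter.Tendsto (fun n => δ (φ n) x y) Filter.atTop (nhds (δ' x y))

/-- [NEC] Necessity.  From `SpecTOW`, `SpecCLO`.

Proof.  Use `rootExact_iff`.  Given `G ∈ F`, `w` positive, an edge `p q`.  Put `g = gd G w` and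
`v s(x,y) = g x y` (`Sym2.lift`); `v ≤ w` on edges, `v` is positive on edges, and `gd G v = g` on
reachable pairs (`≤` as `v ≤ w`, `≥` by the triangle inequality along a walk), so `v` is tight.
For every `n` take `δ` from `SpecTOW` with `ε = 1/(n+1)`, and `δ_n = (v s(p,q)/δ p q) δ`
(`δ p q ≥ v s(p,q) > 0`): on edges `δ_n ≤ (1 + ε) v`, `δ_n p q = v s(p,q)`, and
`g ≤ δ = (δ p q/v s(p,q)) δ_n ≤ D δ_n` on reachable pairs.  Make `δ_n` bounded: replace it by
`∑_c δ_n (π_c x) (π_c y)`, `c` a connected component, `π_c x = x` if `x ∈ c` and a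
representative of `c` otherwise; this does not change reachable pairs, and
reachable pairs are bounded by `2 g` (`IsL1.le_gd`).  `SpecCLO` gives the limit `ρ`. -/
def SpecNEC : Prop := ∀ (F : Family) (D : ℝ), Embeds (Clos 2 F) D → RootExact F D

/-! ## Part 5: bounded pathwidth -/

/-- [FOLD] Folding a real function at scale `P`, with random signs.

Proof.  `tri Q u = Q * |u/Q - round (u/Q)|` is the distance to the nearest multiple of `Q`:
1-Lipschitz, `0 ≤ tri ≤ Q/2`; the cell of `u` is `⌊u/Q⌋`; for `u ≤ u'` in different cells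
`tri u + tri u' ≤ u' - u` (a multiple of `Q` lies in `(u, u']`).
Index `(j, σ)`, `j : Fin 4` stands for a period `Q ∈ {P, P/4}` and a shift `s ∈ {0, Q/4}`; the
cell of `x : V` is `(c x, ⌊(k x + s)/Q⌋)`; choose for each `j` a map `rep : V → V` with: `rep x`
has the same cell as `x`, and `rep x = rep y` iff the cells are equal (a choice function on cells);
put `h (j, σ) x = ± tri Q (k x + s)` with the sign given by `σ (rep x)`.
1. `|h| ≤ P/2`.  2. `c x = c y`: same cell: same sign; different cells: `tri + tri ≤ |k x - k y|`.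
3. Different cells (for `j`): the sum over `σ` of `|h x - h y|` is at least `card * max (tri x)
(tri y)` (pair `σ` with `σ` flipped at `rep x`: `|u - u'| + |-u - u'| ≥ 2 max |u| |u'|`).
Since `tri Q u + tri Q (u + Q/4) ≥ Q/4`, for `c x ≠ c y` (different cells for all `j`) already the
two shifts with `Q = P` give a total `≥ card * P/4`; dividing by 4: average `≥ P/16`.
4. `c x = c y`, `|k x - k y| ≥ P/4`: for `Q = P/4` the cells differ for both shifts: total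
`≥ card * P/16`, average `≥ P/64`.
5. `c x = c y`, `|k x - k y| < P/4`: for `Q = P` and one of the two shifts no multiple of
`P/2` separates `k x + s` and `k y + s` (look at `⌊·/(P/4)⌋`), so the cells agree and `tri` is
affine there: `|h x - h y| = |k x - k y|` for all `σ`; average `≥ |k x - k y|/4`. -/
def SpecFOLD : Prop := ∀ (V : Type) [Fintype V] [DecidableEq V] (ι : Type) (k : V → ℝ) (c : V → ι) (P : ℝ),
  0 < P → ∃ h : Fin 4 × (V → Bool) → V → ℝ, (∀ i x, |h i x| ≤ P) ∧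
    (∀ i x y, c x = c y → |h i x - h i y| ≤ |k x - k y|) ∧
    (∀ x y, c x ≠ c y → (Fintype.card (Fin 4 × (V → Bool)) : ℝ) * P ≤ 64 * ∑ i, |h i x - h i y|) ∧
    (∀ x y, c x = c y → (Fintype.card (Fin 4 × (V → Bool)) : ℝ) * min |k x - k y| P ≤
      64 * ∑ i, |h i x - h i y|)

/-- [LREM] The removal lemma for 1-Lipschitz functions.  From `SpecFOLD`.  Compare
`KSum52.removal` (Remove.lean), whose tools (`rho`, `tj`, `sum_scales`, `gd_bound`) are used.

Proof.  Let `M` bound `gd G w`, `ρ = rho G w A M` and let `l, k` be the functions of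
`LipW C (rm G A) w`.  For a scale `j : ℤ` let `h_j` be the functions of `SpecFOLD` for `k i`, the
labels `c = (rm G A).connectedComponentMk`, and `P = 2^j`.  For a class `r ∈ {0, 1, 2}` mod 3,
`i`, and a fold index `u` put `Ψ x = (∑_{j ∈ J, j ≡ r} tj j (ρ x) * h_j(u) x) / 18`,
`J = image of Int.log 2 ∘ ρ`.  The new family: `g` with weight `1/3`, `ρ` with weight `1/3`,
and the functions `Ψ` with weights `(1/3) (1/3) l i / card`.
Lipschitz: on an edge `x y` of `G` each summand changes by at most `3 w` (if `x, y ∉ A`: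
`|tj x - tj y| 2^j + |h x - h y| ≤ 2 w + w`; if one of them is in `A`, its `tj` is `0` and the
change is `≤ 2 w`), and `sum_scales` gives `≤ 18 w`.
Lower bound.  Let `x, y` be reachable in `G`, `ρ y ≤ ρ x`, and `e₁ = |g x - g y|`,
`e₂ = |ρ x - ρ y|`, `e₃ =` the average of `|18 Ψ x - 18 Ψ y|`, so `δ = (e₁ + e₂)/3 + e₃/54`.
If `ρ x > 0` put `j = Int.log 2 (ρ x)`, so `2^j ≤ ρ x < 2^(j+1)`.  If `e₂ ≤ 2^j/2`, then
`ρ y > 2^(j-1)`, so among the scales `j' ≡ j` mod 3 only `j` is active at `x` or `y`, and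
`18 |Ψ x - Ψ y| = |h x - tj j (ρ y) h y| ≥ |h x - h y| - 2 e₂` for the class of `j`
(`tj j (ρ x) = 1`, `tj_lip`).  So the average `H` of `|h x - h y|` (over `i` with weights `l`, and
over `u`) is `≤ 3 e₃ + 2 e₂ ≤ 168 δ`.  If `x, y` are in different components of `rm G A`, then
`H ≥ 2^j/64`; otherwise, with `D' = gd (rm G A) w x y`, `|k i x - k i y| ≤ D'` and
`H ≥ (1/64) ∑ l i min(|k i x - k i y|, 2^j) ≥ min(D', 2^j)/(64 C)`.  So either
`gd G w x y ≤ D' ≤ 64 C * 168 δ`, or `ρ x ≤ 2 * 64 C * 168 δ`.  If `e₂ > 2^j/2`, or `ρ x = 0`, then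
`ρ x ≤ 4 e₂ ≤ 12 δ`.  Finally, if `ρ x ≤ 21504 C δ`: if no point of `A` is reachable from `x` then
`gd G w x y ≤ M = ρ x`; otherwise `ρ x = gd x a`, `ρ y = gd y b`, `gd a b ≤ |g a - g b| ≤
e₁ + ρ x + ρ y` and `gd x y ≤ 4 ρ x + e₁ ≤ 100000 C δ`. -/
def SpecLREM : Prop := ∀ (V : Type) [Fintype V] (G : SimpleGraph V) (w : Sym2 V → ℝ) (A : Set V)
  (g : V → ℝ) (C : ℝ), Pos G w → 1 ≤ C → (∀ x y, G.Adj x y → |g x - g y| ≤ w s(x, y)) →
  (∀ a ∈ A, ∀ b ∈ A, G.Reachable a b → gd G w a b ≤ |g a - g b|) → LipW C (rm G A) w →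
  LipW (100000 * C) G w

/-- [LPW] Bounded pathwidth.  From `SpecLREM`.  Compare `KSum52.path_lemma` (PathSum.lean).

Proof.  Induction on `k`; statement for a set `S` of remaining vertices: if all edges of `G` are
inside `S`, intervals as in the hypothesis for `x ∈ S`, and
`{x ∈ S | lo x ≤ i ≤ hi x}.ncard ≤ k` for all `i`, then `LipW (100000 ^ k) G w` for every positive `w`.
`k = 0`: `S` is empty (`x` is in its own interval), `G` has no edge; one function `0` with weight `1`.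
`k + 1`: in every component `c` of `G` choose `a` with least `lo` and `b` with largest `hi`
among the vertices of `c` in `S` (components outside `S` are single points), and a
shortest walk `P c : a → b`; `A` = the union of the supports, `g x = gd G w (a (cc x)) x`
(`gd_lip`, `geodesic`).  Every nonempty set `{x ∈ S | lo x ≤ i ≤ hi x}` contains a vertex of
`A` (crossing: walk from `lo a ≤ i` to `i ≤ hi b`; each step's intervals meet), so it
shrinks when `A` is removed: apply the induction hypothesis to `rm G A`, `S \ A`.  `SpecLREM`. -/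
def SpecLPW : Prop := ∀ (V : Type) [Fintype V] (G : SimpleGraph V) (k : ℕ) (lo hi : V → ℕ),
  (∀ v, lo v ≤ hi v) → (∀ u v, G.Adj u v → lo u ≤ hi v ∧ lo v ≤ hi u) →
  (∀ i, {v | lo v ≤ i ∧ i ≤ hi v}.ncard ≤ k) → LipAll (100000 ^ k) G

/-- [LRE] 1-Lipschitz functions give root-exactness.

Proof.  `h x = gd H w p x`, `ρ x y = ∑ l i max |h x - h y| |k i x - k i y|` (`IsL1`:
`max |u| |v| = (|u + v| + |u - v|)/2`); on edges both are `≤ w`; `|k i p - k i q| ≤ gd p q = |h p - h q|`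
(walks).  (`h` is 1-Lipschitz on all edges, `0` outside the component of `p`.) -/
def SpecLRE : Prop := ∀ (V : Type) [Fintype V] (H : SimpleGraph V) (C : ℝ), LipAll C H → RE C H

/-! ## The final statement -/

/-- the statement of the hand-in -/
def SpecFINAL : Prop :=
  (∀ F : Family, (∃ D, Embeds (Clos 2 F) D) ↔ ∃ D, RootExact F D) ∧
  (∀ F F' : Family, (∃ D, Embeds (Clos 2 F) D) → (∃ D, Embeds (Clos 2 F') D) →
    ∃ D, Embeds (Clos 2 (FUnion F F')) D) ∧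
  (∀ (F : Family) (k : ℕ), (∃ D, Embeds (Clos 2 F) D) → ∃ D, Embeds (Clos 2 (FUnion F (PW k))) D)

end TwoSum
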