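import Pool.Agent.Lib.MP_2eab14_co.TwoSum.Spec
import Pool.Agent.Lib.MP_2eab14_co.TwoSum.PM
import Pool.Agent.Lib.MP_2eab14_co.TW3.SpecG
import Pool.Agent.Lib.MP_2eab14_co.TW3.WJ
import Pool.Agent.Lib.MP_2eab14_co.TW3.TWD
import Pool.Agent.Lib.MP_2eab14_co.TW3.UPD

section
set_option linter.all false

/-!
# Property (V) of a piece
-/

noncomputable section

namespace TwoSum

open KSum52

theorem specPV : SpecPV := by
  intro V θ κ κ₂ d ρ H S hθ hθ1 hκ hκ₂ hd hρ hS hle hge a b hab T n α β hg x y hxy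
  obtain ⟨haS, hbS⟩ := hS a b hab
  obtain ⟨hxS, hyS⟩ := hS x y hxy
  have hT0 := hg.T0
  have hT1 := hg.T1
  have hn := hg.n0
  have hlip := hg.lip
  have hab0 : 0 < d a b := hd.pos a b hab.ne
  have h1 : θ * d a b ≤ ρ a b := hge a haS b hbS
  have h2 : ρ a b ≤ d a b := hle a haS b hbS
  have hρ0 : 0 ≤ ρ a b := hρ.nonneg a b
  have hκ0 : 0 < κ := by rw [hκ]; positivity
  have hκ32 : κ ≤ 1 / 32 := by rw [hκ]; linarith
  have e1 : 4 * κ * d a b = θ * d a b / 8 := by rw [hκ]; ring
  have hθd : 0 < θ * d a b := mul_pos hθ hab0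
  rw [abs_le] at hlip
  have t1 : κ * α ≤ T * d a b + n := by
    have := hg.good 0 (ρ a b) 0 (d a b) ⟨by rw [zero_sub, abs_neg, abs_of_nonneg hρ0],
      by linarith, by linarith, by linarith⟩
    have hm : min (0 + α) (d a b + β) = α := by
      rw [zero_add]; exact min_eq_left (by linarith [hlip.2])
    rw [hm] at this
    have h3 : T * ρ a b ≤ T * d a b := mul_le_mul_of_nonneg_left h2 hT0
    linarith
  have t2 : κ * β ≤ (1 - T) * d a b + n := by
    have := hg.good (ρ a b) 0 (d a b) 0 ⟨by rw [sub_zero, abs_of_nonneg hρ0],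
      by linarith, by linarith, by linarith⟩
    have hm : min (d a b + α) (0 + β) = β := by
      rw [zero_add]; exact min_eq_right (by linarith [hlip.1])
    rw [hm] at this
    have h3 : (1 - T) * ρ a b ≤ (1 - T) * d a b := mul_le_mul_of_nonneg_left h2 (by linarith)
    linarith
  set E := (1 - T) * d a x + T * d b x with hE
  have hax0 := hd.nonneg a x
  have hbx0 := hd.nonneg b x
  have hE0 : 0 ≤ E := add_nonneg (mul_nonneg (by linarith) hax0) (mul_nonneg hT0 hbx0)
  have htri : d a b ≤ d a x + d b x := by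
    have := hd.tri a x b
    rw [hd.comm x b] at this
    exact this
  -- T (1 - T) d a b ≤ E
  have hTE : T * (1 - T) * d a b ≤ E := by
    have k0 : 0 ≤ T * (1 - T) := mul_nonneg hT0 (by linarith)
    have k1 : T * (1 - T) * d a b ≤ T * (1 - T) * (d a x + d b x) :=
      mul_le_mul_of_nonneg_left htri k0
    have k2 : T * ((1 - T) * d a x) ≤ 1 * ((1 - T) * d a x) :=
      mul_le_mul_of_nonneg_right hT1 (mul_nonneg (by linarith) hax0)
    have k3 : (1 - T) * (T * d b x) ≤ 1 * (T * d b x) :=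
      mul_le_mul_of_nonneg_right (by linarith) (mul_nonneg hT0 hbx0)
    rw [hE]
    linarith [k1, k2, k3]
  have hcomb : κ * ((1 - T) * α + T * β) ≤ 2 * E + n := by
    have k1 := mul_le_mul_of_nonneg_left t1 (sub_nonneg.2 hT1)
    have k2 := mul_le_mul_of_nonneg_left t2 hT0
    have : κ * ((1 - T) * α + T * β) = (1 - T) * (κ * α) + T * (κ * β) := by ring
    rw [this]
    calc (1 - T) * (κ * α) + T * (κ * β)
        ≤ (1 - T) * (T * d a b + n) + T * ((1 - T) * d a b + n) := add_le_add k1 k2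
      _ = 2 * (T * (1 - T) * d a b) + n := by ring
      _ ≤ 2 * E + n := by linarith
  -- the minimum is at most the convex combination
  have hmin : min (α + d a x) (β + d b x) ≤ (1 - T) * (α + d a x) + T * (β + d b x) := by
    have k1 := mul_le_mul_of_nonneg_left (min_le_left (α + d a x) (β + d b x)) (sub_nonneg.2 hT1)
    have k2 := mul_le_mul_of_nonneg_left (min_le_right (α + d a x) (β + d b x)) hT0
    linarith
  have hκ₂0 : 0 ≤ 4 * κ₂ := by rw [hκ₂]; positivity
  have hL : 4 * κ₂ * min (α + d a x) (β + d b x) ≤ 2 * (θ * E) + 4 * n := by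
    calc 4 * κ₂ * min (α + d a x) (β + d b x)
        ≤ 4 * κ₂ * ((1 - T) * (α + d a x) + T * (β + d b x)) :=
          mul_le_mul_of_nonneg_left hmin hκ₂0
      _ = θ / 2 * (κ * ((1 - T) * α + T * β) + κ * E) := by rw [hκ₂, hE]; ring
      _ ≤ θ / 2 * (2 * E + n + 1 / 32 * E) := by
          apply mul_le_mul_of_nonneg_left _ (by linarith)
          exact add_le_add hcomb (mul_le_mul_of_nonneg_right hκ32 hE0)
      _ = θ * E + 1 / 64 * (θ * E) + θ * n / 2 := by ring
      _ ≤ 2 * (θ * E) + 4 * n := by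
          have k1 : θ * n ≤ 1 * n := mul_le_mul_of_nonneg_right hθ1 hn
          have k2 : 0 ≤ θ * E := mul_nonneg hθ.le hE0
          linarith
  -- the right-hand side
  have hR : 2 * (θ * E) + 4 * n ≤ 3 * ((1 - T) * ρ a x + T * ρ b x + n) +
      ((1 - T) * ρ a y + T * ρ b y + n) - ρ x y := by
    have q1 : ρ x y ≤ ρ a x + ρ a y := by
      have := hρ.tri x a y
      rw [hρ.comm x a] at this
      exact this
    have q2 : ρ x y ≤ ρ b x + ρ b y := by
      have := hρ.tri x b y
      rw [hρ.comm x b] at this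
      exact this
    have k1 := mul_le_mul_of_nonneg_left q1 (sub_nonneg.2 hT1)
    have k2 := mul_le_mul_of_nonneg_left q2 hT0
    have k3 := mul_le_mul_of_nonneg_left (hge a haS x hxS) (sub_nonneg.2 hT1)
    have k4 := mul_le_mul_of_nonneg_left (hge b hbS x hxS) hT0
    have k5 : θ * E = (1 - T) * (θ * d a x) + T * (θ * d b x) := by rw [hE]; ring
    rw [k5]
    linarith
  exact hL.trans hR

end TwoSum
end
end

section
set_option linter.all false

/-!
# The quotient semimetric
-/

noncomputable section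

namespace TwoSum

open KSum52

namespace QUOM

variable {V : Type}

lemma exists_eps [Fintype V] {w : Sym2 V → ℝ} {H : SimpleGraph V} (hw : Pos H w) {p q : V}
    (hpq : H.Adj p q) : ∃ ε : ℝ, 0 < ε ∧ ∀ x y, H.Adj x y → ε ≤ w s(x, y) := by
  classical
  have hne : (Finset.univ.filter fun z : V × V => H.Adj z.1 z.2).Nonempty :=
    ⟨(p, q), by simp [hpq]⟩
  obtain ⟨z, hz, hmin⟩ := Finset.exists_min_image _ (fun z : V × V => w s(z.1, z.2)) hne
  refine ⟨w s(z.1, z.2), ?_, ?_⟩
  · apply hw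
    rw [SimpleGraph.mem_edgeSet]
    simpa using hz
  · intro x y hxy
    exact hmin (x, y) (by simp [hxy])

lemma dpq_left {d : V → V → ℝ} (hd : Met d) (p q : V) : dpq d p q p = 0 := by
  unfold dpq
  rw [hd.self, min_eq_left (hd.nonneg q p)]

lemma dpq_right {d : V → V → ℝ} (hd : Met d) (p q : V) : dpq d p q q = 0 := by
  unfold dpq
  rw [hd.self, min_eq_right (hd.nonneg p q)]

lemma dpq_nonneg {d : V → V → ℝ} (hd : Met d) (p q x : V) : 0 ≤ dpq d p q x :=
  le_min (hd.nonneg p x) (hd.nonneg q x)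

lemma dpq_lip {d : V → V → ℝ} (hd : Met d) (p q x z : V) :
    dpq d p q x ≤ d x z + dpq d p q z := by
  unfold dpq
  have h1 := hd.tri p z x
  have h2 := hd.tri q z x
  rw [hd.comm z x] at h1 h2
  rcases le_total (d p z) (d q z) with h | h
  · rw [min_eq_left h]
    exact (min_le_left _ _).trans (by linarith)
  · rw [min_eq_right h]
    exact (min_le_right _ _).trans (by linarith)

lemma walk_bound {d : V → V → ℝ} (hd : Met d) {w' : Sym2 V → ℝ} {H : SimpleGraph V} {p q : V}
    {ε : ℝ} (hε : 0 < ε) (h1 : w' s(p, q) = ε)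
    (h2 : ∀ x y, H.Adj x y → s(x, y) ≠ s(p, q) → w' s(x, y) = d x y) {x y : V}
    (W : H.Walk x y) : min (d x y) (dpq d p q x + dpq d p q y) ≤ wl w' W := by
  induction W with
  | nil =>
    rw [hd.self]
    simp only [wl_nil]
    exact min_le_left _ _
  | @cons x z y hadj W ih =>
    rw [wl_cons]
    by_cases e : s(x, z) = s(p, q)
    · rw [e, h1]
      have hx : dpq d p q x = 0 ∧ dpq d p q z = 0 ∧ dpq d p q y ≤ d z y := by
        rw [Sym2.eq_iff] at e
        rcases e with ⟨rfl, rfl⟩ | ⟨rfl, rfl⟩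
        · exact ⟨dpq_left hd _ _, dpq_right hd _ _, min_le_right _ _⟩
        · exact ⟨dpq_right hd _ _, dpq_left hd _ _, min_le_left _ _⟩
      obtain ⟨hx, hz, hy⟩ := hx
      rw [hz, zero_add, min_eq_right hy] at ih
      rw [hx, zero_add]
      exact (min_le_right _ _).trans (by linarith)
    · rw [h2 x z hadj e]
      have t1 := hd.tri x z y
      have t2 := dpq_lip hd p q x z
      calc min (d x y) (dpq d p q x + dpq d p q y)
          ≤ min (d x z + d z y) (d x z + (dpq d p q z + dpq d p q y)) :=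
            min_le_min t1 (by linarith)
        _ = d x z + min (d z y) (dpq d p q z + dpq d p q y) := by rw [min_add_add_left]
        _ ≤ _ := by linarith

end QUOM

open QUOM

theorem specQUO : SpecQUO := by
  classical
  intro V _ D d w H S hD hd hRE hsupp hg p q hpq
  have hw : Pos H w := hd.posw hg.edge
  obtain ⟨ε, hε, hmin⟩ := exists_eps hw hpq
  let w' : Sym2 V → ℝ := Function.update w s(p, q) ε
  have w1 : w' s(p, q) = ε := Function.update_self _ _ _
  have w2 : ∀ x y, s(x, y) ≠ s(p, q) → w' s(x, y) = w s(x, y) :=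
    fun x y h => Function.update_of_ne h _ _
  have hw' : Pos H w' := by
    intro e he
    by_cases h : e = s(p, q)
    · rw [h, w1]; exact hε
    · rw [show w' e = w e from Function.update_of_ne h _ _]
      exact hw e he
  obtain ⟨ρ', hL, hup, -, hlow⟩ := hRE w' hw' p q hpq
  let π : V → V := fun x => if x = q then p else x
  have πq : π q = p := if_pos rfl
  have πn : ∀ x, x ≠ q → π x = x := fun x hx => if_neg hx
  have hpq' : p ≠ q := hpq.ne
  let ρ : V → V → ℝ := fun x y => (1 / 2) * ρ' (π x) (π y)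
  have hρ : IsL1 ρ := (hL.comp π).smul (by norm_num)
  have hpS := (hsupp p q hpq).1
  have hqS := (hsupp p q hpq).2
  have half : ∀ x y, H.Adj x y → x ≠ q → y ≠ q → ρ x y ≤ w s(x, y) := by
    intro x y hxy hx hy
    show (1 / 2) * ρ' (π x) (π y) ≤ _
    rw [πn x hx, πn y hy]
    have h1 := hup x y hxy
    rw [w2 x y (by
      intro e
      rw [Sym2.eq_iff] at e
      rcases e with ⟨-, e⟩ | ⟨e, -⟩
      · exact hy e
      · exact hx e)] at h1
    have := hmin x y hxy
    linarith
  have qedge : ∀ y, H.Adj q y → ρ q y ≤ w s(q, y) := by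
    intro y hy
    show (1 / 2) * ρ' (π q) (π y) ≤ _
    rw [πq, πn y hy.ne']
    by_cases hyp : y = p
    · subst hyp
      rw [hL.self]
      have := hmin q y hy
      linarith
    · have h1 := hup q y hy
      rw [w2 q y (by
        intro e
        rw [Sym2.eq_iff] at e
        rcases e with ⟨e, -⟩ | ⟨-, e⟩
        · exact hpq' e.symm
        · exact hyp e)] at h1
      have h2 := hup p q hpq
      rw [w1] at h2
      have h3 := hL.tri p q y
      have := hmin q y hy
      linarith
  have edge : ∀ x y, H.Adj x y → ρ x y ≤ w s(x, y) := by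
    intro x y hxy
    by_cases hx : x = q
    · subst hx; exact qedge y hxy
    · by_cases hy : y = q
      · subst hy
        rw [hρ.comm, Sym2.eq_swap]
        exact qedge x hxy.symm
      · exact half x y hxy hx hy
  refine ⟨ρ, hρ, ?_, ?_, ?_⟩
  · show (1 / 2) * ρ' (π p) (π q) = 0
    rw [πq, πn p hpq', hL.self, mul_zero]
  · intro x hx y hy
    exact hg.le_d hρ edge hx hy
  · intro x hx y hy
    have πS : ∀ z ∈ S, π z ∈ S := by
      intro z hz
      by_cases h : z = q
      · rw [h, πq]; exact hpS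
      · rw [πn z h]; exact hz
    have key : min (d (π x) (π y)) (dpq d p q (π x) + dpq d p q (π y)) ≤ D * ρ' (π x) (π y) := by
      obtain ⟨W, -⟩ := hg.walk (π x) (πS x hx) (π y) (πS y hy)
      have hr : H.Reachable (π x) (π y) := ⟨W⟩
      refine le_trans ?_ (hlow _ _ hr)
      obtain ⟨W', hW'⟩ := exists_gd hw' hr
      rw [← hW']
      exact walk_bound hd hε w1 (fun a b hab h => by rw [w2 a b h, hg.edge a b hab]) W'
    have hdp : ∀ z, dpq d p q (π z) = dpq d p q z := by
      intro z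
      by_cases h : z = q
      · rw [h, πq, dpq_left hd, dpq_right hd]
      · rw [πn z h]
    have hmn : min (d x y) (dpq d p q x + dpq d p q y) ≤
        min (d (π x) (π y)) (dpq d p q (π x) + dpq d p q (π y)) := by
      apply le_min
      · by_cases h1 : x = q
        · by_cases h2 : y = q
          · rw [h1, h2, πq, hd.self, hd.self]
            exact min_le_left _ _
          · rw [h1, πq, πn y h2, dpq_right hd, zero_add]
            exact (min_le_right _ _).trans (min_le_left _ _)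
        · by_cases h2 : y = q
          · rw [h2, πq, πn x h1, dpq_right hd, add_zero]
            refine (min_le_right _ _).trans ?_
            rw [hd.comm x p]
            exact min_le_left _ _
          · rw [πn x h1, πn y h2]
            exact min_le_left _ _
      · rw [hdp, hdp]
        exact min_le_right _ _
    show _ ≤ 2 * D * ((1 / 2) * ρ' (π x) (π y))
    linarith

end TwoSum
end
end

section
set_option linter.all false

/-!
# Module RMAP: root-exactness under relabelling and restriction, and for triangles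
-/

noncomputable section

namespace TwoSum

open KSum52

namespace RMAPM

variable {V W : Type}

/-- equality of distances from a correspondence of walks -/
lemma gd_congr {G : SimpleGraph V} {w : Sym2 V → ℝ} {G' : SimpleGraph W} {w' : Sym2 W → ℝ}
    {x y : V} {x' y' : W} (h1 : ∀ p : G.Walk x y, ∃ p' : G'.Walk x' y', wl w' p' = wl w p)
    (h2 : ∀ p' : G'.Walk x' y', ∃ p : G.Walk x y, wl w p = wl w' p') :
    gd G w x y = gd G' w' x' y' := by
  unfold gd
  congr 1
  ext r
  constructor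
  · rintro ⟨p, rfl⟩
    obtain ⟨p', hp'⟩ := h1 p
    exact ⟨p', hp'⟩
  · rintro ⟨p', rfl⟩
    obtain ⟨p, hp⟩ := h2 p'
    exact ⟨p, hp⟩

/-! ### relabelling -/

lemma walk_map {G : SimpleGraph W} {φ : W ↪ V} {w : Sym2 V → ℝ} {a b : W} (p : G.Walk a b) :
    ∃ p' : (G.map φ).Walk (φ a) (φ b), wl w p' = wl (fun e => w (e.map φ)) p := by
  induction p with
  | nil => exact ⟨SimpleGraph.Walk.nil, by simp⟩
  | cons h p ih =>
    obtain ⟨p', hp'⟩ := ih
    refine ⟨SimpleGraph.Walk.cons ((SimpleGraph.map_adj _ _ _ _).2 ⟨_, _, h, rfl, rfl⟩) p', ?_⟩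
    rw [wl_cons, wl_cons, hp']
    rfl

lemma walk_unmap {G : SimpleGraph W} {φ : W ↪ V} {w : Sym2 V → ℝ} {x y : V}
    (p : (G.map φ).Walk x y) : ∀ a, φ a = x → ∃ b, φ b = y ∧
      ∃ p' : G.Walk a b, wl (fun e => w (e.map φ)) p' = wl w p := by
  induction p with
  | nil => exact fun a ha => ⟨a, ha, SimpleGraph.Walk.nil, by simp⟩
  | @cons u v z h p ih =>
    intro a ha
    obtain ⟨c, d, hcd, hc, hd⟩ := (SimpleGraph.map_adj _ _ _ _).1 h
    obtain rfl : c = a := φ.injective (hc.trans ha.symm)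
    obtain ⟨b, hb, p', hp'⟩ := ih d hd
    refine ⟨b, hb, SimpleGraph.Walk.cons hcd p', ?_⟩
    have e : w s(u, v) = w (Sym2.map φ s(c, d)) := by rw [← hc, ← hd]; rfl
    rw [wl_cons, wl_cons, hp', e]

lemma gd_map {G : SimpleGraph W} {φ : W ↪ V} {w : Sym2 V → ℝ} (a b : W) :
    gd (G.map φ) w (φ a) (φ b) = gd G (fun e => w (e.map φ)) a b := by
  refine gd_congr (fun p => ?_) (fun p' => walk_map p')
  obtain ⟨b', hb', p', hp'⟩ := walk_unmap p a rfl
  obtain rfl := φ.injective hb'
  exact ⟨p', hp'⟩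

lemma re_map [Fintype W] [Fintype V] {D : ℝ} {G : SimpleGraph W} (φ : W ↪ V) (h : RE D G) :
    RE D (G.map φ) := by
  classical
  intro w hw p q hpq
  obtain ⟨a₀, b₀, hab, rfl, rfl⟩ := (SimpleGraph.map_adj _ _ _ _).1 hpq
  have hw' : Pos G (fun e => w (e.map φ)) := by
    intro e
    induction e using Sym2.ind with
    | h a b =>
      intro he
      rw [SimpleGraph.mem_edgeSet] at he
      exact hw _ ((SimpleGraph.mem_edgeSet _).2
        ((SimpleGraph.map_adj _ _ _ _).2 ⟨a, b, he, rfl, rfl⟩))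
  obtain ⟨ρ, h0, h1, h2, h3⟩ := h _ hw' a₀ b₀ hab
  let π : V → W := fun x => if hx : ∃ y, φ y = x then hx.choose else a₀
  have hπ : ∀ y, π (φ y) = y := by
    intro y
    have hx : ∃ z, φ z = φ y := ⟨y, rfl⟩
    simp only [π, dif_pos hx]
    exact φ.injective hx.choose_spec
  refine ⟨fun x y => ρ (π x) (π y), h0.comp π, ?_, ?_, ?_⟩
  · intro x y hxy
    obtain ⟨a, b, hab', rfl, rfl⟩ := (SimpleGraph.map_adj _ _ _ _).1 hxy
    change ρ (π (φ a)) (π (φ b)) ≤ _
    rw [hπ, hπ]
    exact h1 a b hab'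
  · change ρ (π (φ a₀)) (π (φ b₀)) = _
    rw [hπ, hπ, h2, gd_map]
  · intro x y hxy
    by_cases hxy' : x = y
    · subst hxy'
      change _ ≤ D * ρ (π x) (π x)
      rw [gd_self hw, h0.self, mul_zero]
    · obtain ⟨p⟩ := hxy
      have hx : ∃ a, φ a = x := by
        cases p with
        | nil => exact absurd rfl hxy'
        | cons h _ =>
          obtain ⟨c, d, _, hc, _⟩ := (SimpleGraph.map_adj _ _ _ _).1 h
          exact ⟨c, hc⟩
      obtain ⟨a, rfl⟩ := hx
      obtain ⟨b, rfl, p', -⟩ := walk_unmap (w := w) p a rfl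
      change _ ≤ D * ρ (π (φ a)) (π (φ b))
      rw [hπ, hπ, gd_map]
      exact h3 a b ⟨p'⟩

/-! ### restriction -/

section Restrict

variable {H : SimpleGraph V} {C : Set V} {w w' : Sym2 V → ℝ}

lemma walk_rs (hC : ∀ x y, H.Adj x y → x ∈ C → y ∈ C)
    (hww : ∀ x y, (rs H C).Adj x y → w' s(x, y) = w s(x, y)) {x y : V} (p : H.Walk x y) :
    x ∈ C → ∃ p' : (rs H C).Walk x y, wl w p' = wl w' p := by
  induction p with
  | nil => exact fun _ => ⟨SimpleGraph.Walk.nil, by simp⟩
  | @cons u v z h p ih =>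
    intro hu
    have hv := hC _ _ h hu
    obtain ⟨p', hp'⟩ := ih hv
    have h' : (rs H C).Adj u v := ⟨h, hu, hv⟩
    refine ⟨SimpleGraph.Walk.cons h' p', ?_⟩
    rw [wl_cons, wl_cons, hp', hww _ _ h']

lemma walk_of_rs (hww : ∀ x y, (rs H C).Adj x y → w' s(x, y) = w s(x, y)) {x y : V}
    (p : (rs H C).Walk x y) : ∃ p' : H.Walk x y, wl w' p' = wl w p := by
  induction p with
  | nil => exact ⟨SimpleGraph.Walk.nil, by simp⟩
  | cons h p ih =>
    obtain ⟨p', hp'⟩ := ih
    refine ⟨SimpleGraph.Walk.cons h.1 p', ?_⟩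
    rw [wl_cons, wl_cons, hp', hww _ _ h]

end Restrict

lemma re_rs [Fintype V] {D : ℝ} {H : SimpleGraph V} {C : Set V}
    (hC : ∀ x y, H.Adj x y → x ∈ C → y ∈ C) (h : RE D H) : RE D (rs H C) := by
  classical
  intro w hw p q hpq
  let w' : Sym2 V → ℝ := fun e => if e ∈ (rs H C).edgeSet then w e else 1
  have hww : ∀ x y, (rs H C).Adj x y → w' s(x, y) = w s(x, y) := by
    intro x y hxy
    exact if_pos ((SimpleGraph.mem_edgeSet _).2 hxy)
  have hw' : Pos H w' := by
    intro e _
    simp only [w']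
    split_ifs with h1
    · exact hw e h1
    · exact one_pos
  obtain ⟨ρ, h0, h1, h2, h3⟩ := h w' hw' p q hpq.1
  have hgd : ∀ x y, x ∈ C → gd (rs H C) w x y = gd H w' x y := fun x y hx =>
    gd_congr (fun p => walk_of_rs hww p) (fun p => walk_rs hC hww p hx)
  refine ⟨ρ, h0, fun x y hxy => ?_, ?_, fun x y hxy => ?_⟩
  · rw [← hww x y hxy]
    exact h1 x y hxy.1
  · rw [h2, hgd p q hpq.2.1]
  · by_cases hxy' : x = y
    · subst hxy'
      rw [gd_self hw, h0.self, mul_zero]
    · have hx : x ∈ C := by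
        obtain ⟨p⟩ := hxy
        cases p with
        | nil => exact absurd rfl hxy'
        | cons h _ => exact h.2.1
      rw [hgd x y hx]
      exact h3 x y (hxy.mono (rs_le H C))

/-! ### the triangle -/

lemma max_abs (u v : ℝ) : max |u| |v| = 1 / 2 * (|u + v| + |u - v|) := by
  rcases abs_cases u with ⟨h1, h1'⟩ | ⟨h1, h1'⟩ <;> rcases abs_cases v with ⟨h2, h2'⟩ | ⟨h2, h2'⟩ <;>
    rcases abs_cases (u + v) with ⟨h3, h3'⟩ | ⟨h3, h3'⟩ <;>
    rcases abs_cases (u - v) with ⟨h4, h4'⟩ | ⟨h4, h4'⟩ <;>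
    rw [h1, h2, h3, h4, max_def] <;> split_ifs <;> linarith

lemma isL1_max (f g : V → ℝ) : IsL1 (fun x y => max |f x - f y| |g x - g y|) := by
  refine (((IsL1.abs (fun x => f x + g x)).add (IsL1.abs (fun x => f x - g x))).smul
    (c := 1 / 2) (by norm_num)).of_eq fun x y => ?_
  rw [max_abs]
  congr 3 <;> ring

lemma re_tri [Fintype V] {D : ℝ} {a b c : V} {H : SimpleGraph V} (hD : 1 ≤ D)
    (hH : ∀ x y, H.Adj x y ↔ x ≠ y ∧ x ∈ ({a, b, c} : Set V) ∧ y ∈ ({a, b, c} : Set V)) :
    RE D H := by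
  classical
  intro w hw p q hpq
  have hp := ((hH p q).1 hpq).2.1
  have hq := ((hH p q).1 hpq).2.2
  have hne := ((hH p q).1 hpq).1
  have hreach : ∀ x y, x ∈ ({a, b, c} : Set V) → y ∈ ({a, b, c} : Set V) → H.Reachable x y := by
    intro x y hx hy
    by_cases hxy : x = y
    · subst hxy; exact SimpleGraph.Reachable.refl _
    · exact ((hH x y).2 ⟨hxy, hx, hy⟩).reachable
  have hL := isL1_max (fun x => gd H w p x) (fun x => gd H w q x)
  refine ⟨_, hL, fun x y hxy => ?_, ?_, fun x y hxy => ?_⟩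
  · have hx := ((hH x y).1 hxy).2.1
    exact max_le (gd_lip hw (hreach p x hp hx) hxy) (gd_lip hw (hreach q x hq hx) hxy)
  · change max |gd H w p p - gd H w p q| |gd H w q p - gd H w q q| = _
    rw [gd_self hw, gd_self hw, zero_sub, sub_zero, abs_neg, gd_comm hw q p, max_self,
      abs_of_nonneg (gd_nonneg hw _ _)]
  · by_cases hxy' : x = y
    · subst hxy'
      rw [gd_self hw, hL.self, mul_zero]
    · have hmem : x ∈ ({a, b, c} : Set V) ∧ y ∈ ({a, b, c} : Set V) := by
        constructor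
        · obtain ⟨p'⟩ := hxy
          cases p' with
          | nil => exact absurd rfl hxy'
          | cons h _ => exact ((hH _ _).1 h).2.1
        · obtain ⟨p'⟩ := hxy.symm
          cases p' with
          | nil => exact absurd rfl hxy'
          | cons h _ => exact ((hH _ _).1 h).2.1
      obtain ⟨hx, hy⟩ := hmem
      have hcase : x = p ∨ x = q ∨ y = p ∨ y = q := by
        by_contra hcon
        push Not at hcon
        obtain ⟨n1, n2, n3, n4⟩ := hcon
        have hsub : ({x, y, p, q} : Finset V) ⊆ {a, b, c} := by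
          intro z hz
          simp only [Finset.mem_insert, Finset.mem_singleton] at hz ⊢
          simp only [Set.mem_insert_iff, Set.mem_singleton_iff] at hx hy hp hq
          rcases hz with rfl | rfl | rfl | rfl
          · exact hx
          · exact hy
          · exact hp
          · exact hq
        have h4 : ({x, y, p, q} : Finset V).card = 4 := by
          rw [Finset.card_insert_of_notMem (by simp [hxy', n1, n2]),
            Finset.card_insert_of_notMem (by simp [n3, n4]),
            Finset.card_insert_of_notMem (by simp [hne]), Finset.card_singleton]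
        have h3 := (Finset.card_le_card hsub).trans Finset.card_le_three
        omega
      have hle : gd H w x y ≤ max |gd H w p x - gd H w p y| |gd H w q x - gd H w q y| := by
        rcases hcase with rfl | rfl | rfl | rfl
        · refine le_max_of_le_left ?_
          rw [gd_self hw, zero_sub, abs_neg]
          exact le_abs_self _
        · refine le_max_of_le_right ?_
          rw [gd_self hw, zero_sub, abs_neg]
          exact le_abs_self _
        · refine le_max_of_le_left ?_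
          rw [gd_self hw, sub_zero, gd_comm hw x y]
          exact le_abs_self _
        · refine le_max_of_le_right ?_
          rw [gd_self hw, sub_zero, gd_comm hw x y]
          exact le_abs_self _
      have h0 := hL.nonneg x y
      exact hle.trans (le_mul_of_one_le_left h0 hD)

end RMAPM

open RMAPM in
theorem specRMAP : SpecRMAP :=
  ⟨fun _ _ _ _ _ _ φ h => re_map φ h, fun _ _ _ _ _ hC h => re_rs hC h,
    fun _ _ _ _ _ _ _ hD _ _ _ hH => re_tri hD hH⟩

end TwoSum
end
end

section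
set_option linter.all false

/-!
# The 2-sum theorem: the one-step lemma
-/

noncomputable section

namespace TwoSum

open KSum52

/-- the lemma in the coordinates `T`, `n`, `δ`, for `T_x ≤ T_y` -/
lemma step_core {c κ L T n T' n' U v U' v' m z z' zz δ A B p0 q0 : ℝ}
    (hL : 0 < L) (hc : 0 < c) (hc1 : c ≤ 1) (hκ : 0 < κ) (hκc : κ ≤ c / 32)
    (hT0 : 0 ≤ T) (hT1 : T ≤ 1) (hn : 0 ≤ n) (hT0' : 0 ≤ T') (hT1' : T' ≤ 1) (hn' : 0 ≤ n')
    (hU0 : 0 ≤ U) (hU1 : U ≤ 1) (hv : 0 ≤ v) (hU0' : 0 ≤ U') (hU1' : U' ≤ 1) (hv' : 0 ≤ v')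
    (hea : L * U + v ≤ L * T + n) (hfb : L * (1 - U) + v ≤ L * (1 - T) + n)
    (hm1 : m ≤ (L * U + v) + (L * U' + v')) (hm2 : m ≤ (L * (1 - U) + v) + (L * (1 - U') + v'))
    (hz : 0 ≤ z) (hzz : zz ≤ z + z') (hδ1 : -1 ≤ δ) (hδ2 : δ ≤ 1)
    (hTT : T ≤ T') (hA : 4 * κ * A ≤ p0) (hB : 4 * κ * B ≤ q0) (Z : ℝ)
    (hZ0 : Z = p0 + c / 2 * ((δ * L * (3 * U + U' - 1) + (L + 3 * v + v' - m)) +
      (δ * L * (3 * T + T' - 1) + (L + 3 * n + n' - (L * (T' - T) + |n - n'|)))) +
      (1 - c) * (3 * z + z' - zz))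
    (hZ1 : Z = q0 + c / 2 * ((δ * L * (3 * U + U' - 3) + (L + 3 * v + v' - m)) +
      (δ * L * (3 * T + T' - 3) + (L + 3 * n + n' - (L * (T' - T) + |n - n'|)))) +
      (1 - c) * (3 * z + z' - zz)) :
    4 * κ * min (A + (L * T + n)) (B + (L * (1 - T) + n)) ≤ Z := by
  have hzz' : 0 ≤ (1 - c) * (3 * z + z' - zz) := mul_nonneg (by linarith) (by linarith)
  have hYg : L * (1 - T' + T) + 2 * n ≤ L + 3 * n + n' - (L * (T' - T) + |n - n'|) := by
    have h1 : |n - n'| ≤ n + n' := by
      rw [abs_le]; constructor <;> linarith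
    nlinarith
  have hY1 : L * (1 - (U + U')) + 2 * v ≤ L + 3 * v + v' - m := by nlinarith
  have hY2 : L * ((U + U') - 1) + 2 * v ≤ L + 3 * v + v' - m := by nlinarith
  set Y := L + 3 * v + v' - m with hY
  set Yg := L + 3 * n + n' - (L * (T' - T) + |n - n'|) with hYgd
  by_cases hδ : -1 / 8 ≤ δ
  · -- use E₀
    have hg : L * T * (1 + 3 * δ) + 2 * n ≤ δ * L * (3 * T + T' - 1) + Yg := by
      have h1 : 0 ≤ L * ((1 - T') * (1 - δ)) :=
        mul_nonneg hL.le (mul_nonneg (by linarith) (by linarith))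
      nlinarith
    have hLT : 0 ≤ L * T := mul_nonneg hL.le hT0
    have hLU : 0 ≤ L * U := mul_nonneg hL.le hU0
    have hgg : 5 / 8 * (L * T + n) ≤ δ * L * (3 * T + T' - 1) + Yg := by
      have h1 : 5 / 8 * (L * T) ≤ L * T * (1 + 3 * δ) := by
        have := mul_nonneg hLT (by linarith : (0:ℝ) ≤ 1 + 3 * δ - 5 / 8)
        linarith
      linarith
    have h1 : -(1 / 4) * (L * T + n) ≤ δ * L * (3 * U + U' - 1) + Y := by
      by_cases h0 : 0 ≤ δ
      · have h2 : 0 ≤ δ * L * (3 * U + U' - 1) + Y := by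
          have h3 : 0 ≤ (δ * L) * (2 * U) := by positivity
          rcases le_total 1 (U + U') with h4 | h4
          · have h5 : 0 ≤ (δ * L) * (U + U' - 1) := mul_nonneg (by positivity) (by linarith)
            have h6 : 0 ≤ L * ((U + U') - 1) := mul_nonneg hL.le (by linarith)
            nlinarith
          · have h5 : 0 ≤ ((1 - δ) * L) * (1 - (U + U')) :=
              mul_nonneg (mul_nonneg (by linarith) hL.le) (by linarith)
            nlinarith
        linarith
      · rw [not_le] at h0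
        have h3 : -(1 / 4) * (L * U) ≤ (δ * L) * (2 * U) := by
          have := mul_nonneg hLU (by linarith : (0:ℝ) ≤ 2 * δ + 1 / 4)
          nlinarith
        have h4 : 0 ≤ δ * L * (U + U' - 1) + Y := by
          rcases le_total 1 (U + U') with h4 | h4
          · have h5 : 0 ≤ ((1 + δ) * L) * ((U + U') - 1) :=
              mul_nonneg (mul_nonneg (by linarith) hL.le) (by linarith)
            nlinarith
          · have h5 : 0 ≤ ((-δ) * L) * (1 - (U + U')) :=
              mul_nonneg (mul_nonneg (by linarith) hL.le) (by linarith)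
            have h6 : 0 ≤ L * (1 - (U + U')) := mul_nonneg hL.le (by linarith)
            nlinarith
        nlinarith
    have h2 : 4 * κ * (L * T + n) ≤ c / 2 * (3 / 8 * (L * T + n)) := by
      have h3 : 0 ≤ L * T + n := by linarith
      have h4 : 4 * κ ≤ c / 2 * (3 / 8) := by linarith
      calc 4 * κ * (L * T + n) ≤ c / 2 * (3 / 8) * (L * T + n) := mul_le_mul_of_nonneg_right h4 h3
        _ = _ := by ring
    have h3 : c / 2 * (3 / 8 * (L * T + n)) ≤ c / 2 * ((δ * L * (3 * U + U' - 1) + Y) +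
        (δ * L * (3 * T + T' - 1) + Yg)) :=
      mul_le_mul_of_nonneg_left (by linarith) (by linarith)
    calc 4 * κ * min (A + (L * T + n)) (B + (L * (1 - T) + n)) ≤ 4 * κ * (A + (L * T + n)) :=
          mul_le_mul_of_nonneg_left (min_le_left _ _) (by linarith)
      _ ≤ Z := by rw [hZ0]; linarith
  · -- use E₁
    rw [not_le] at hδ
    have hg : L * (T - δ * (2 - 3 * T)) + 2 * n ≤ δ * L * (3 * T + T' - 3) + Yg := by
      have h1 : 0 ≤ L * ((1 - T') * (1 - δ)) :=
        mul_nonneg hL.le (mul_nonneg (by linarith) (by linarith))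
      nlinarith
    have hgg : 1 / 4 * (L * (1 - T) + n) ≤ δ * L * (3 * T + T' - 3) + Yg := by
      have h1 : 1 / 4 * (1 - T) ≤ T - δ * (2 - 3 * T) := by
        -- affine in T
        have h2 : 0 ≤ (1 - T) * (-2 * δ - 1 / 4) := mul_nonneg (by linarith) (by linarith)
        have h3 : 0 ≤ T * (1 + δ) := mul_nonneg hT0 (by linarith)
        nlinarith
      have h2 := mul_le_mul_of_nonneg_left h1 hL.le
      linarith
    have h1 : 0 ≤ δ * L * (3 * U + U' - 3) + Y := by
      have h3 : 0 ≤ ((-δ) * L) * (2 * (1 - U)) :=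
        mul_nonneg (mul_nonneg (by linarith) hL.le) (by linarith)
      rcases le_total 1 (U + U') with h4 | h4
      · have h5 : 0 ≤ ((1 + δ) * L) * ((U + U') - 1) :=
          mul_nonneg (mul_nonneg (by linarith) hL.le) (by linarith)
        nlinarith
      · have h5 : 0 ≤ ((-δ) * L) * (1 - (U + U')) :=
          mul_nonneg (mul_nonneg (by linarith) hL.le) (by linarith)
        have h6 : 0 ≤ L * (1 - (U + U')) := mul_nonneg hL.le (by linarith)
        nlinarith
    have hLT : 0 ≤ L * (1 - T) := mul_nonneg hL.le (by linarith)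
    have h2 : 4 * κ * (L * (1 - T) + n) ≤ c / 2 * (1 / 4 * (L * (1 - T) + n)) := by
      have h3 : 0 ≤ L * (1 - T) + n := by linarith
      have h4 : 4 * κ ≤ c / 2 * (1 / 4) := by linarith
      calc 4 * κ * (L * (1 - T) + n) ≤ c / 2 * (1 / 4) * (L * (1 - T) + n) :=
            mul_le_mul_of_nonneg_right h4 h3
        _ = _ := by ring
    have h3 : c / 2 * (1 / 4 * (L * (1 - T) + n)) ≤ c / 2 * ((δ * L * (3 * U + U' - 3) + Y) +
        (δ * L * (3 * T + T' - 3) + Yg)) :=
      mul_le_mul_of_nonneg_left (by linarith) (by linarith)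
    calc 4 * κ * min (A + (L * T + n)) (B + (L * (1 - T) + n)) ≤ 4 * κ * (B + (L * (1 - T) + n)) :=
          mul_le_mul_of_nonneg_left (min_le_right _ _) (by linarith)
      _ ≤ Z := by rw [hZ1]; linarith

lemma max_abs_eq {x y : ℝ} : max |x + y| |-x + y| = |x| + |y| := by
  rcases le_total 0 x with hx | hx <;> rcases le_total 0 y with hy | hy
  · rw [abs_of_nonneg hx, abs_of_nonneg hy, abs_of_nonneg (add_nonneg hx hy)]
    apply max_eq_left
    rw [abs_le]; constructor <;> linarith
  · rw [abs_of_nonneg hx, abs_of_nonpos hy, abs_of_nonpos (by linarith : -x + y ≤ 0)]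
    rw [max_eq_right]
    · ring
    · rw [abs_le]; constructor <;> linarith
  · rw [abs_of_nonpos hx, abs_of_nonneg hy, abs_of_nonneg (by linarith : 0 ≤ -x + y)]
    rw [max_eq_right]
    rw [abs_le]; constructor <;> linarith
  · rw [abs_of_nonpos hx, abs_of_nonpos hy, abs_of_nonpos (by linarith : x + y ≤ 0)]
    rw [max_eq_left]
    · ring
    · rw [abs_le]; constructor <;> linarith

/-- the statement for `a - b ≤ a' - b'` -/
lemma step_half {c κ L a b a' b' e f e' f' m z z' zz r r' A B : ℝ}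
    (hL : 0 < L) (hc : 0 < c) (hc1 : c ≤ 1) (hκ : 0 < κ) (hκc : κ ≤ c / 32)
    (h1 : |a - b| ≤ L) (h2 : L ≤ a + b) (h3 : |a' - b'| ≤ L) (h4 : L ≤ a' + b')
    (h5 : |e - f| ≤ L) (h6 : L ≤ e + f) (h7 : |e' - f'| ≤ L) (h8 : L ≤ e' + f')
    (hea : e ≤ a) (hfb : f ≤ b) (hm1 : m ≤ e + e') (hm2 : m ≤ f + f') (hz : 0 ≤ z)
    (hzz : zz ≤ z + z') (hAdm : Adm κ (c * L) r r' A B) (hord : a - b ≤ a' - b') :
    4 * κ * min (A + a) (B + b) ≤
      3 * ext (c * L) (c * (e / 2 + a / 2) + (1 - c) * z) (c * (f / 2 + b / 2) + (1 - c) * z) r r' +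
      ext (c * L) (c * (e' / 2 + a' / 2) + (1 - c) * z') (c * (f' / 2 + b' / 2) + (1 - c) * z') r r' -
      (c * (m / 2 + max |a - a'| |b - b'| / 2) + (1 - c) * zz) := by
  rw [abs_le] at h1 h3 h5 h7
  have hcL : 0 < c * L := mul_pos hc hL
  obtain ⟨hlip, htri, hA, hB⟩ := hAdm
  rw [abs_le] at hlip
  -- coordinates
  obtain ⟨T, hT⟩ : ∃ T, T = (L + a - b) / (2 * L) := ⟨_, rfl⟩
  obtain ⟨T', hT'⟩ : ∃ T, T = (L + a' - b') / (2 * L) := ⟨_, rfl⟩
  obtain ⟨U, hU⟩ : ∃ T, T = (L + e - f) / (2 * L) := ⟨_, rfl⟩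
  obtain ⟨U', hU'⟩ : ∃ T, T = (L + e' - f') / (2 * L) := ⟨_, rfl⟩
  obtain ⟨δ, hδ⟩ : ∃ δ, δ = (r' - r) / (c * L) := ⟨_, rfl⟩
  have eT : 2 * L * T = L + a - b := by rw [hT]; field_simp
  have eT' : 2 * L * T' = L + a' - b' := by rw [hT']; field_simp
  have eU : 2 * L * U = L + e - f := by rw [hU]; field_simp
  have eU' : 2 * L * U' = L + e' - f' := by rw [hU']; field_simp
  have eδ : δ * (c * L) = r' - r := by rw [hδ]; field_simp
  have b0 : ∀ {t x y : ℝ}, 2 * L * t = L + x - y → -L ≤ x - y → 0 ≤ t := by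
    intro t x y h h'
    by_contra hcon
    rw [not_le] at hcon
    have := mul_neg_of_pos_of_neg (by linarith : 0 < 2 * L) hcon
    linarith
  have b1 : ∀ {t x y : ℝ}, 2 * L * t = L + x - y → x - y ≤ L → t ≤ 1 := by
    intro t x y h h'
    by_contra hcon
    rw [not_le] at hcon
    have := mul_pos (by linarith : 0 < 2 * L) (by linarith : 0 < t - 1)
    linarith
  have hδ1 : -1 ≤ δ := by
    by_contra hcon
    rw [not_le] at hcon
    have := mul_pos (by linarith : 0 < -1 - δ) hcL
    linarith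
  have hδ2 : δ ≤ 1 := by
    by_contra hcon
    rw [not_le] at hcon
    have := mul_pos (by linarith : 0 < δ - 1) hcL
    linarith
  obtain ⟨n, hn⟩ : ∃ n, n = (a + b - L) / 2 := ⟨_, rfl⟩
  obtain ⟨n', hn'⟩ : ∃ n, n = (a' + b' - L) / 2 := ⟨_, rfl⟩
  obtain ⟨v, hv⟩ : ∃ n, n = (e + f - L) / 2 := ⟨_, rfl⟩
  obtain ⟨v', hv'⟩ : ∃ n, n = (e' + f' - L) / 2 := ⟨_, rfl⟩
  have ea : a = L * T + n := by linarith
  have eb : b = L * (1 - T) + n := by linarith
  have ea' : a' = L * T' + n' := by linarith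
  have eb' : b' = L * (1 - T') + n' := by linarith
  have ee : e = L * U + v := by linarith
  have ef : f = L * (1 - U) + v := by linarith
  have ee' : e' = L * U' + v' := by linarith
  have ef' : f' = L * (1 - U') + v' := by linarith
  have hTT : T ≤ T' := by
    by_contra hcon
    rw [not_le] at hcon
    have := mul_pos (by linarith : 0 < 2 * L) (by linarith : 0 < T - T')
    linarith
  have hmax : max |a - a'| |b - b'| = L * (T' - T) + |n - n'| := by
    have e1 : a - a' = -(L * (T' - T)) + (n - n') := by rw [ea, ea']; ring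
    have e2 : b - b' = L * (T' - T) + (n - n') := by rw [eb, eb']; ring
    rw [e1, e2, max_comm, max_abs_eq, abs_of_nonneg (mul_nonneg hL.le (by linarith))]
  have hext : ∀ E F X Y W : ℝ,
      ext (c * L) (c * (E / 2 + X / 2) + (1 - c) * W) (c * (F / 2 + Y / 2) + (1 - c) * W) r r' =
      r + δ * ((L + (E - F) / 2 + (X - Y) / 2) * c / 2) +
        (c * ((E + F) / 2 + (X + Y) / 2) + 2 * (1 - c) * W - c * L) / 2 := by
    intro E F X Y W
    unfold ext
    have hr' : r' = r + δ * (c * L) := by linarith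
    rw [hr']
    field_simp
    ring
  set Z := 3 * ext (c * L) (c * (e / 2 + a / 2) + (1 - c) * z) (c * (f / 2 + b / 2) + (1 - c) * z)
      r r' + ext (c * L) (c * (e' / 2 + a' / 2) + (1 - c) * z') (c * (f' / 2 + b' / 2) +
      (1 - c) * z') r r' - (c * (m / 2 + max |a - a'| |b - b'| / 2) + (1 - c) * zz) with hZdef
  rw [hext, hext, hmax] at hZdef
  have key := step_core (c := c) (κ := κ) (L := L) (T := T) (n := n) (T' := T') (n' := n')
    (U := U) (v := v) (U' := U') (v' := v') (m := m) (z := z) (z' := z') (zz := zz) (δ := δ)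
    (A := A) (B := B) (p0 := 3 * r + r' - c * L) (q0 := r + 3 * r' - c * L)
    hL hc hc1 hκ hκc (b0 eT h1.1) (b1 eT h1.2) (by linarith) (b0 eT' h3.1) (b1 eT' h3.2)
    (by linarith) (b0 eU h5.1) (b1 eU h5.2) (by linarith) (b0 eU' h7.1) (b1 eU' h7.2)
    (by linarith) (by linarith) (by linarith) (by linarith) (by linarith) hz hzz hδ1 hδ2 hTT
    hA hB Z ?_ ?_
  · rw [← ea, ← eb] at key
    exact key
  · rw [hZdef, ee, ef, ee', ef', ea, eb, ea', eb']
    have hr' : r' = r + δ * (c * L) := by linarith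
    rw [hr']
    ring
  · rw [hZdef, ee, ef, ee', ef', ea, eb, ea', eb']
    have hr' : r = r' - δ * (c * L) := by linarith
    rw [hr']
    ring

lemma ext_swap {S a b r r' : ℝ} (hS : 0 < S) : ext S b a r' r = ext S a b r r' := by
  unfold ext
  field_simp
  ring

theorem specSTEP : SpecSTEP := by
  intro c κ L a b a' b' e f e' f' m z z' zz r r' A B hL hc hc1 hκ hκc h1 h2 h3 h4 h5 h6 h7 h8
    hea hfb hm1 hm2 hz hzz hAdm
  rcases le_total (a - b) (a' - b') with h | h
  · exact step_half hL hc hc1 hκ hκc h1 h2 h3 h4 h5 h6 h7 h8 hea hfb hm1 hm2 hz hzz hAdm h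
  · have hcL : 0 < c * L := mul_pos hc hL
    have key := step_half (c := c) (κ := κ) (L := L) (a := b) (b := a) (a' := b') (b' := a')
      (e := f) (f := e) (e' := f') (f' := e') (m := m) (z := z) (z' := z') (zz := zz) (r := r')
      (r' := r) (A := B) (B := A) hL hc hc1 hκ hκc (by rw [abs_sub_comm]; exact h1) (by linarith)
      (by rw [abs_sub_comm]; exact h3) (by linarith) (by rw [abs_sub_comm]; exact h5) (by linarith)
      (by rw [abs_sub_comm]; exact h7) (by linarith) hfb hea hm2 hm1 hz hzz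
      ⟨by rw [abs_sub_comm]; exact hAdm.lip, by linarith [hAdm.tri], by linarith [hAdm.right],
        by linarith [hAdm.left]⟩ (by linarith)
    have e1 : ∀ X Y : ℝ, ext (c * L) Y X r' r = ext (c * L) X Y r r' := fun X Y => ext_swap hcL
    rw [e1 (c * (e / 2 + a / 2) + (1 - c) * z), e1 (c * (e' / 2 + a' / 2) + (1 - c) * z'), min_comm,
      max_comm] at key
    exact key

end TwoSum
end
end

section
set_option linter.all false

/-!
# Module TOW: almost root-exact embeddings
-/

noncomputable section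

namespace TwoSum

open KSum52

namespace TOWM

/-- the tower statement -/
def Q (F : Family) (D ε : ℝ) (k : ℕ) : Prop :=
  ∃ (N : ℕ) (G : SimpleGraph (Fin N)) (w : Sym2 (Fin N) → ℝ), Clos 2 F N G ∧ Pos G w ∧
    Tight G w ∧ ∀ δ : Fin N → Fin N → ℝ, IsL1 δ →
      (∀ x y, G.Reachable x y → gd G w x y ≤ δ x y) → (∀ x y, G.Adj x y → δ x y ≤ D * w s(x, y)) →
      ∃ x y, G.Adj x y ∧ (1 + ε) ^ k * w s(x, y) ≤ δ x y

lemma step (hC : SpecCOPY) {F : Family} {D ε : ℝ} {n : ℕ} {H : SimpleGraph (Fin n)}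
    {v : Sym2 (Fin n) → ℝ} {p q : Fin n} (hε : 0 < ε) (hF : F n H) (hv : Pos H v) (hT : Tight H v)
    (hpq : H.Adj p q)
    (hA : ∀ δ : Fin n → Fin n → ℝ, IsL1 δ → (∀ x y, H.Reachable x y → gd H v x y ≤ δ x y) →
      (∀ x y, H.Adj x y → δ x y ≤ D * v s(x, y)) →
      ∃ x y, H.Adj x y ∧ (1 + ε) * (δ p q / v s(p, q)) * v s(x, y) < δ x y) (k : ℕ)
    (hQ : Q F D ε k) : Q F D ε (k + 1) := by
  obtain ⟨N, G, w, hG, hw, hTw, h⟩ := hQ
  obtain ⟨N', G', w', ψ, hG', hw', hTw', h1, h2, h3⟩ :=
    hC F N n G w H v p q hG hF hw hTw hv hT hpq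
  refine ⟨N', G', w', hG', hw', hTw', fun δ hδ hlow hup => ?_⟩
  obtain ⟨s, t, hst, hst'⟩ := h (fun x y => δ (ψ x) (ψ y)) (hδ.comp ψ)
    (fun x y hxy => (h2 x y hxy).2.trans (hlow _ _ (h2 x y hxy).1))
    (fun x y hxy => by
      have := hup _ _ (h1 x y hxy).1
      rwa [(h1 x y hxy).2] at this)
  obtain ⟨φ, lam, hlam, hp, hq, h4, h5⟩ := h3 s t hst
  have hvpq : 0 < v s(p, q) := hv.adj hpq
  obtain ⟨x, y, hxy, hlt⟩ := hA (fun x y => lam⁻¹ * δ (φ x) (φ y))
    ((hδ.comp φ).smul (inv_pos.2 hlam).le)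
    (fun x y hxy => by
      have := (h5 x y hxy).2.trans (hlow _ _ (h5 x y hxy).1)
      rw [le_inv_mul_iff₀ hlam]
      exact this)
    (fun x y hxy => by
      have := hup _ _ (h4 x y hxy).1
      rw [(h4 x y hxy).2] at this
      rw [inv_mul_le_iff₀ hlam]
      linarith)
  refine ⟨φ x, φ y, (h4 x y hxy).1, ?_⟩
  rw [(h4 x y hxy).2]
  simp only [hp, hq] at hlt
  -- the ratio of the root
  have e1 : w s(s, t) = lam * v s(p, q) := by
    rw [← (h1 s t hst).2, ← (h4 p q hpq).2, hp, hq]
  have e2 : (1 + ε) ^ k * v s(p, q) ≤ lam⁻¹ * δ (ψ s) (ψ t) := by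
    rw [le_inv_mul_iff₀ hlam]
    rw [e1] at hst'
    linarith
  have e3 : (1 + ε) ^ k ≤ lam⁻¹ * δ (ψ s) (ψ t) / v s(p, q) := by
    rw [le_div_iff₀ hvpq]
    exact e2
  have hvxy : 0 < v s(x, y) := hv.adj hxy
  have e4 : (1 + ε) * (1 + ε) ^ k * v s(x, y) ≤ lam⁻¹ * δ (φ x) (φ y) := by
    refine le_trans ?_ hlt.le
    refine mul_le_mul_of_nonneg_right ?_ hvxy.le
    exact mul_le_mul_of_nonneg_left e3 (by linarith)
  rw [le_inv_mul_iff₀ hlam] at e4
  rw [pow_succ]
  linarith

end TOWM

open TOWM in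
theorem specTOW (hC : SpecCOPY) : SpecTOW := by
  intro F D hE n H v p q hF hv hT hpq ε hε
  by_contra hno
  have hA : ∀ δ : Fin n → Fin n → ℝ, IsL1 δ → (∀ x y, H.Reachable x y → gd H v x y ≤ δ x y) →
      (∀ x y, H.Adj x y → δ x y ≤ D * v s(x, y)) →
      ∃ x y, H.Adj x y ∧ (1 + ε) * (δ p q / v s(p, q)) * v s(x, y) < δ x y := by
    intro δ h1 h2 h3
    by_contra h4
    push Not at h4
    exact hno ⟨δ, h1, h4, h2, h3⟩
  have hQ : ∀ k, Q F D ε k := by
    intro k
    induction k with
    | zero =>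
      refine ⟨n, H, v, Clos.piece hF, hv, hT, fun δ _ h2 _ => ⟨p, q, hpq, ?_⟩⟩
      rw [pow_zero, one_mul, hT p q hpq]
      exact h2 p q hpq.reachable
    | succ k ih => exact step hC hε hF hv hT hpq hA k ih
  obtain ⟨k, hk⟩ := pow_unbounded_of_one_lt D (by linarith : (1 : ℝ) < 1 + ε)
  obtain ⟨N, G, w, hG, hw, -, h⟩ := hQ k
  obtain ⟨δ, hδ, h1, h2⟩ := (emb_iff hw).1 (hE N G hG w hw)
  obtain ⟨x, y, hxy, h3⟩ := h δ hδ h2 h1
  have h4 := h3.trans (h1 x y hxy)
  have h5 := le_of_mul_le_mul_right h4 (hw.adj hxy)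
  linarith

end TwoSum
end
end

section
set_option linter.all false

/-!
# The 2-sum theorem: assembly
-/

noncomputable section

namespace TwoSum

open KSum52

lemma pc' : SpecPC := specPC specSTEP (specPM specQUO) specPV
lemma comp' : SpecCOMP := specCOMP specGLUE specCW specCV
lemma if' : SpecIF := specIF (specBE pc' specDIST comp') (specBLT specRMAP)
lemma nec' : SpecNEC := specNEC (specTOW (specCOPY specISO)) specCLO
lemma lpw' : SpecLPW := specLPW (specLREM specFOLD)

theorem main : SpecFINAL := specFINAL if' nec' lpw' specLRE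

end TwoSum
end
end

section
set_option linter.all false

/-!
# Treewidth three: module COR, corollaries with the 2-sum theorem
-/

noncomputable section

namespace TW3

open KSum52 TwoSum

namespace CORM

lemma isSum_mono {k k' a b N : ℕ} (hk : k ≤ k') {G₁ : SimpleGraph (Fin a)}
    {G₂ : SimpleGraph (Fin b)} {φ₁ : Fin a ↪ Fin N} {φ₂ : Fin b ↪ Fin N}
    (h : IsSum k G₁ G₂ φ₁ φ₂) : IsSum k' G₁ G₂ φ₁ φ₂ :=
  ⟨h.cover, h.card.trans hk, h.clique⟩

lemma clos_clos {k k' : ℕ} (hk : k ≤ k') {F : Family} :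
    ∀ (n : ℕ) (G : SimpleGraph (Fin n)), Clos k (Clos k' F) n G → Clos k' F n G := by
  intro n G h
  induction h with
  | piece h => exact h
  | glue φ₁ φ₂ h₁ h₂ h G hle hdel ih₁ ih₂ =>
    exact Clos.glue φ₁ φ₂ ih₁ ih₂ (isSum_mono hk h) G hle hdel

end CORM

open CORM in
theorem specCOR : SpecCOR := by
  rintro ⟨D, hD⟩
  have h1 : ∃ D, Embeds (Clos 2 (Clos 3 Le4)) D :=
    ⟨D, fun n G hG => hD n G (clos_clos (by norm_num) n G hG)⟩
  exact ⟨(TwoSum.main.1 (Clos 3 Le4)).1 h1, fun F hF => TwoSum.main.2.1 F (Clos 3 Le4) hF h1⟩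

end TW3
end
end

section
set_option linter.all false

/-!
# Treewidth three: assembly
-/

noncomputable section

namespace TW3

open KSum52 TwoSum

lemma nl' : SpecNL := specNLA specPEND specCH1 specCH3 specT1 specT21 specLEG specT20
lemma clo' : SpecCLO := specCLA specPER (specWJ specPER specLG) (specWX specPER specLG)
lemma upd' : SpecUPD := specUPD specEXT
lemma sym' : SpecSYM := specSYM specPER specIDS
lemma fbd' : SpecFBD := specFBD specINI specIDS sym'
lemma stp' : SpecSTP := specSTA clo' specINI specEXT upd' specIDS sym'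
lemma one' : SpecONE := specONA nl' upd' specIDS stp' fbd'
lemma met' : SpecMET := specMEA one' specINI specIDS sym' fbd'
lemma god' : SpecGOD := specGOA specRTB (specPIE specRTB) specGRF
lemma fin' : SpecFIN := specFIA god' specCNV met'
lemma twd' : ∃ D, Embeds (Tw 3) D := specTWD specRTB (specPIE specRTB) specGRF specCNV met'
lemma cor' : (∃ D, RootExact (Clos 3 Le4) D) ∧
    ∀ F : Family, (∃ D, Embeds (Clos 2 F) D) → ∃ D, Embeds (Clos 2 (FUnion F (Clos 3 Le4))) D :=
  specCOR fin'

theorem mainTw : ∃ D : ℝ, ∀ (k : ℕ) (F : Family), (∀ n G, F n G → Tw 3 n G) →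
    Embeds (Clos k F) D := twMain twd'

end TW3
end
end

section
set_option linter.all false

/-!
# The 2-sum theorem as a single equivalence
-/

noncomputable section

namespace TwoSum

open KSum52

/-- The closure under 2-sums of `F` together with all graphs of pathwidth at most `k` embeds with
bounded distortion if and only if `F` is root-exact. -/
theorem strict (F : Family) (k : ℕ) :
    (∃ D, Embeds (Clos 2 (FUnion F (PW k))) D) ↔ ∃ D, RootExact F D := by
  obtain ⟨h1, -, h3⟩ := main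
  constructor
  · intro h
    obtain ⟨D, hD⟩ := (h1 _).mp h
    exact ⟨D, fun n G hG => hD n G (Or.inl hG)⟩
  · intro h
    exact h3 F k ((h1 F).mpr h)

end TwoSum
end
end
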